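import Mathlib
import Pool.Agent.H91.W.Profile
import Pool.Agent.H99.NC.Prob

set_option autoImplicit false
open Finset

/-! # Route W, W-D, D4: transport of the staircase statements under lattice symmetries

`pre S ω` : the configuration `ω` read through the symmetry `S` (`e ∈ pre S ω ↔ S.G e ∈ ω`).
`inv`, `cmp` : inverse, composition. `Isy S` : `S` is an isometry of the sup norm.

* `u_path_S`, `FF_prob_S` : `u_path`, `FF_prob` for an arbitrary symmetry.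
* tile frame of H13/W/Graph: column `x = (l.1 + l.2 - 1) / 2`, row `y = (l.2 - l.1 - 1) / 2`.
* `Floor k N Q E` : `E` is above a floor which rises to the left (rows between `k` and `k + N`).
  `u_path_F`, `FF_prob_FC`, `floor_of`.
* `Ceil k N Q E` : `E` is below a ceiling which goes up to the right (rows `-1 - k` down to
  `-1 - k - N`). `u_path_C`, `FF_prob_FC`, `ceil_of`.
* the windows are the left one `zW z u = z - (16u,16u)` and the right one `zE z u = z + (16u,16u)`.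
* dual colour: apply everything to `Q.map sh1`, `E.map sh1`, `du E ω` (`PQ_du`), `Floor.sh1` etc.
-/

namespace Pool.Agent.H55.W

open Pool.Agent.H75.Perc Pool.Agent.H75.TwoArm Pool.Agent.H75.Four Pool.Agent.H60.Q1
open Pool.Agent.H99.NC Pool.Agent.H91.W

/-! ## Symmetries -/

lemma G'G (S : Sy) (e : ℤ × ℤ) : S.G' (S.G e) = e := S.G.injective (S.GG' _)

/-- inverse symmetry -/
def inv (S : Sy) : Sy where
  g := S.g'
  g' := S.g
  G := ⟨S.G', fun a b h => by rw [← S.GG' a, ← S.GG' b, h]⟩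
  G' := S.G
  gg' := S.g'g
  g'g := S.gg'
  GG' := G'G S
  add u v := by
    have h := S.add (S.g' u) (S.g' v)
    rw [S.gg', S.gg'] at h
    rw [Function.Embedding.coeFn_mk, h, G'G]
  unit u v := by
    rw [S.unit (S.g' u) (S.g' v), S.gg', S.gg']

/-- composition: first `T`, then `S` -/
def cmp (S T : Sy) : Sy where
  g u := S.g (T.g u)
  g' u := T.g' (S.g' u)
  G := T.G.trans S.G
  G' e := T.G' (S.G' e)
  gg' u := by rw [T.gg', S.gg']
  g'g u := by rw [S.g'g, T.g'g]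
  GG' e := by rw [Function.Embedding.trans_apply, T.GG', S.GG']
  add u v := by rw [S.add, T.add]; rfl
  unit u v := by rw [T.unit, S.unit]

/-- isometry of the sup norm -/
structure Isy (S : Sy) : Prop where
  near : ∀ z ρ u, Near (S.g z) ρ (S.g u) ↔ Near z ρ u
  far : ∀ z ρ u, Far (S.g z) ρ (S.g u) ↔ Far z ρ u
  br : ∀ z r e, S.G e ∈ BR (S.g z) r ↔ e ∈ BR z r

lemma Isy.inv {S : Sy} (h : Isy S) : Isy (inv S) where
  near z ρ u := by
    have := h.near (S.g' z) ρ (S.g' u)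
    rw [S.gg', S.gg'] at this
    exact this.symm
  far z ρ u := by
    have := h.far (S.g' z) ρ (S.g' u)
    rw [S.gg', S.gg'] at this
    exact this.symm
  br z r e := by
    have := h.br (S.g' z) r (S.G' e)
    rw [S.gg', S.GG'] at this
    exact this.symm

lemma Isy.cmp {S T : Sy} (h : Isy S) (h' : Isy T) : Isy (cmp S T) where
  near _ _ _ := (h.near _ _ _).trans (h'.near _ _ _)
  far _ _ _ := (h.far _ _ _).trans (h'.far _ _ _)
  br _ _ _ := (h.br _ _ _).trans (h'.br _ _ _)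

lemma isy_T (t : ℤ × ℤ) : Isy (syT t) where
  near z ρ u := by
    unfold Near syT
    simp only [Prod.fst_add, Prod.snd_add, add_sub_add_right_eq_sub]
  far z ρ u := by
    unfold Far syT
    simp only [Prod.fst_add, Prod.snd_add, add_sub_add_right_eq_sub]
  br z r e := by
    rw [mem_BR, mem_BR]
    unfold syT
    simp only [Prod.fst_add, Prod.snd_add, Function.Embedding.coeFn_mk]
    omega

lemma isy_X (s : ℤ) : Isy (syX s) where
  near z ρ u := by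
    unfold Near syX
    simp only [abs_le]
    omega
  far z ρ u := by
    unfold Far syX
    simp only [le_abs]
    omega
  br z r e := by
    rw [mem_BR, mem_BR]
    unfold syX
    simp only [Function.Embedding.coeFn_mk]
    omega

lemma isy_Y (s : ℤ) : Isy (syY s) where
  near z ρ u := by
    unfold Near syY
    simp only [abs_le]
    omega
  far z ρ u := by
    unfold Far syY
    simp only [le_abs]
    omega
  br z r e := by
    rw [mem_BR, mem_BR]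
    unfold syY
    simp only [Function.Embedding.coeFn_mk]
    omega

lemma isy_D : Isy syD where
  near z ρ u := by
    unfold Near syD
    exact and_comm
  far z ρ u := by
    unfold Far syD
    exact or_comm
  br z r e := by
    rw [mem_BR, mem_BR]
    unfold syD
    simp only [Function.Embedding.coeFn_mk]
    omega

/-! ## Configurations read through a symmetry -/

/-- the configuration read through the symmetry `S` -/
noncomputable def pre (S : Sy) (ω : Finset (ℤ × ℤ)) : Finset (ℤ × ℤ) := ω.map (inv S).G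

lemma mem_pre {S : Sy} {ω : Finset (ℤ × ℤ)} {e : ℤ × ℤ} : e ∈ pre S ω ↔ S.G e ∈ ω := by
  unfold pre
  rw [(inv S).mem_map]
  rfl

lemma map_pre (S : Sy) (ω : Finset (ℤ × ℤ)) : (pre S ω).map S.G = ω := by
  ext e
  rw [S.mem_map, mem_pre, S.GG']

lemma pre_map (S : Sy) (ω : Finset (ℤ × ℤ)) : pre S (ω.map S.G) = ω := by
  ext e
  rw [mem_pre, S.mem_map, G'G]

lemma pre_mono {S : Sy} {ω ω' : Finset (ℤ × ℤ)} (h : ω ⊆ ω') : pre S ω ⊆ pre S ω' := by
  intro e he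
  rw [mem_pre] at he ⊢
  exact h he

lemma pre_inter (S : Sy) (ω E : Finset (ℤ × ℤ)) : pre S (ω ∩ E) = pre S ω ∩ pre S E := by
  ext e
  rw [mem_inter, mem_pre, mem_pre, mem_pre, mem_inter]

lemma pre_sdiff (S : Sy) (ω E : Finset (ℤ × ℤ)) : pre S (ω \ E) = pre S ω \ pre S E := by
  ext e
  rw [mem_sdiff, mem_pre, mem_pre, mem_pre, mem_sdiff]

lemma pre_union (S : Sy) (ω E : Finset (ℤ × ℤ)) : pre S (ω ∪ E) = pre S ω ∪ pre S E := by
  ext e
  rw [mem_union, mem_pre, mem_pre, mem_pre, mem_union]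

lemma pre_BR {S : Sy} (h : Isy S) (z : ℤ × ℤ) (r : ℤ) : pre S (BR (S.g z) r) = BR z r := by
  ext e
  rw [mem_pre, h.br]

lemma pre_Rg {S : Sy} (h : Isy S) (z : ℤ × ℤ) (a b : ℤ) : pre S (Rg (S.g z) a b) = Rg z a b := by
  unfold Rg
  rw [pre_sdiff, pre_BR h, pre_BR h]

lemma co_pre {S : Sy} {ω : Finset (ℤ × ℤ)} {u v : ℤ × ℤ} :
    Co (pre S ω) u v ↔ Co ω (S.g u) (S.g v) := by
  have h := S.co_iff (pre S ω) u v
  rw [map_pre] at h
  exact h.symm

lemma co_pre' {S : Sy} {ω : Finset (ℤ × ℤ)} {u v : ℤ × ℤ} :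
    Co ω u v ↔ Co (pre S ω) (S.g' u) (S.g' v) := by
  rw [co_pre, S.gg', S.gg']

lemma Inc.pre {S : Sy} {A : Finset (ℤ × ℤ) → Prop} (h : Inc A) : Inc (fun ω => A (pre S ω)) :=
  fun _ _ hs h1 => h _ _ (pre_mono hs) h1

/-- probabilities read through a symmetry -/
lemma PrP_pre (S : Sy) (q : ℤ × ℤ → ℝ) (E : Finset (ℤ × ℤ)) (A : Finset (ℤ × ℤ) → Prop) :
    PrP q E (fun ω => A (pre S ω)) = PrP (fun e => q (S.G e)) (pre S E) A := by
  have h := PrP_map S.G q (pre S E) (fun ω => A (pre S ω))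
  rw [map_pre] at h
  rw [h]
  exact PrP_congr fun ω _ => by rw [pre_map]

lemma Pr_pre (S : Sy) (E : Finset (ℤ × ℤ)) (A : Finset (ℤ × ℤ) → Prop) :
    Pr E (fun ω => A (pre S ω)) = Pr (pre S E) A := by
  rw [← PrP_half, ← PrP_half, PrP_pre]

lemma Qh.pre {q : ℤ × ℤ → ℝ} (h : Qh q) (S : Sy) : Qh (fun e => q (S.G e)) := fun e => h (S.G e)

lemma armE_pre {S : Sy} (h : Isy S) {E : Finset (ℤ × ℤ)} {u : ℤ} {v : ℤ × ℤ}
    {ω : Finset (ℤ × ℤ)} : ArmE (pre S E) u v (pre S ω) ↔ ArmE E u (S.g v) ω := by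
  unfold ArmE
  constructor
  · rintro ⟨w, h1, h2⟩
    rw [← pre_inter, co_pre] at h2
    exact ⟨S.g w, (h.far _ _ _).2 h1, h2⟩
  · rintro ⟨w, h1, h2⟩
    refine ⟨S.g' w, (h.far _ _ _).1 (by rw [S.gg']; exact h1), ?_⟩
    rw [← pre_inter, co_pre, S.gg']
    exact h2

/-- the event `FF` read through a symmetry; `z` is the canonical centre -/
def FFS (S : Sy) (Q E : Finset (ℤ × ℤ)) (N : ℤ) (z : ℤ × ℤ) (u : ℤ) (ω : Finset (ℤ × ℤ)) : Prop :=
  FF (pre S Q) (pre S E) N z u (pre S ω)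

lemma FFS_inc {S : Sy} {Q E : Finset (ℤ × ℤ)} {N : ℤ} {z : ℤ × ℤ} {u : ℤ} :
    Inc (FFS S Q E N z u) := Inc.pre FF_inc

/-- **U-paths through a symmetry** -/
theorem u_path_S {S : Sy} (hI : Isy S) {k N : ℤ} {Q E : Finset (ℤ × ℤ)}
    (hS : Stair k N (pre S Q) (pre S E)) {z : ℤ × ℤ} {u : ℤ}
    (hz : z.1 + z.2 = k) (hN : 0 ≤ N) (hNu : N ≤ u) (hu : 1 ≤ u)
    (hQ : BR (S.g z) (22 * u + 1) ⊆ Q) {ω : Finset (ℤ × ℤ)} (hF : FFS S Q E N z u ω)
    {v v' : ℤ × ℤ} (hv : Near (S.g (zU z u)) (3 * u) v) (hv' : Near (S.g (zL z u)) (3 * u) v')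
    (ha : ArmE E u v ω) (ha' : ArmE E u v' ω) :
    Co (ω ∩ E ∩ Rg (S.g z) (10 * u - 1) (22 * u)) v v' := by
  have hQ' : BR z (22 * u + 1) ⊆ pre S Q := by
    rw [← pre_BR hI]
    exact pre_mono hQ
  rw [← S.gg' v] at hv ha ⊢
  rw [← S.gg' v'] at hv' ha' ⊢
  rw [hI.near] at hv hv'
  rw [← armE_pre hI] at ha ha'
  have h := u_path hS hz hN hNu hu hQ' hF hv hv' ha ha'
  rw [← pre_Rg hI z, ← pre_inter, ← pre_inter, co_pre] at h
  exact h

/-- the probability of the event `FFS` is bounded below -/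
theorem FF_prob_S : ∃ c : ℝ, 0 < c ∧ ∀ S : Sy, Isy S → ∀ q : ℤ × ℤ → ℝ, Qh q → ∀ (k N : ℤ)
    (Q E : Finset (ℤ × ℤ)), Stair k N (pre S Q) (pre S E) → ∀ (z : ℤ × ℤ) (u : ℤ),
    z.1 + z.2 = k → 0 ≤ N → N ≤ u → 1 ≤ u → BR (S.g z) (22 * u + 1) ⊆ Q →
    c ≤ PrP q E (FFS S Q E N z u) := by
  obtain ⟨c, hc, h⟩ := FF_prob
  refine ⟨c, hc, fun S hI q hq k N Q E hS z u hz hN hNu hu hQ => ?_⟩
  unfold FFS
  rw [PrP_pre]
  refine h _ (Qh.pre hq S) k N _ _ hS z u hz hN hNu hu ?_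
  rw [← pre_BR hI]
  exact pre_mono hQ

/-! ## Floors and ceilings -/

/-- the left and the right window of a horizontal wall -/
def zW (z : ℤ × ℤ) (u : ℤ) : ℤ × ℤ := (z.1 - 16 * u, z.2 - 16 * u)

def zE (z : ℤ × ℤ) (u : ℤ) : ℤ × ℤ := (z.1 + 16 * u, z.2 + 16 * u)

/-- Inside `Q` the set `E` is the part below a ceiling which goes up to the right:
rows `y ≤ -1 - T`, `T` nonincreasing to the right, between `k` and `k + N`; `2 y + 1 = l.2 - l.1`. -/
structure Ceil (k N : ℤ) (Q E : Finset (ℤ × ℤ)) : Prop where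
  lo : ∀ l ∈ E, l ∈ Q → 2 * k + 1 ≤ l.1 - l.2
  up : ∀ l ∈ Q, 2 * (k + N) + 1 ≤ l.1 - l.2 → l ∈ E
  cl : ∀ l ∈ E, l ∈ Q → ∀ l' ∈ Q, |l'.2 - l.2| ≤ l'.1 - l.1 → l' ∈ E

/-- Inside `Q` the set `E` is the part above a floor which rises to the left:
rows `y ≥ T`, `T` nonincreasing to the right, between `k` and `k + N`; `2 y + 1 = l.2 - l.1`. -/
structure Floor (k N : ℤ) (Q E : Finset (ℤ × ℤ)) : Prop where
  lo : ∀ l ∈ E, l ∈ Q → 2 * k + 1 ≤ l.2 - l.1
  up : ∀ l ∈ Q, 2 * (k + N) + 1 ≤ l.2 - l.1 → l ∈ E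
  cl : ∀ l ∈ E, l ∈ Q → ∀ l' ∈ Q, |l'.1 - l.1| ≤ l'.2 - l.2 → l' ∈ E

/-- the symmetry of ceilings: `(x,y) ↦ (x,-y)` -/
def sC : Sy := syY 0

/-- the symmetry of floors: `(x,y) ↦ (-y,x)` -/
def sF : Sy := cmp syD (syY 0)

lemma isy_C : Isy sC := isy_Y 0

lemma isy_F : Isy sF := isy_D.cmp (isy_Y 0)

lemma sC_g (u : ℤ × ℤ) : sC.g u = (u.1, -u.2) := by
  unfold sC syY; simp

lemma sF_g (u : ℤ × ℤ) : sF.g u = (-u.2, u.1) := by
  unfold sF cmp syD syY; simp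

lemma sC_G (e : ℤ × ℤ) : sC.G e = (e.1, -e.2) := by
  unfold sC syY; simp

lemma sF_G (e : ℤ × ℤ) : sF.G e = (-e.2, e.1) := by
  unfold sF cmp syD syY; simp

/-- canonical centre of a ceiling point -/
def cC (z : ℤ × ℤ) : ℤ × ℤ := (z.1, -z.2)

/-- canonical centre of a floor point -/
def cF (z : ℤ × ℤ) : ℤ × ℤ := (z.2, -z.1)

lemma sC_cC (z : ℤ × ℤ) : sC.g (cC z) = z := by
  rw [sC_g]; unfold cC; simp

lemma sF_cF (z : ℤ × ℤ) : sF.g (cF z) = z := by
  rw [sF_g]; unfold cF; simp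

lemma sC_zU (z : ℤ × ℤ) (u : ℤ) : sC.g (zU (cC z) u) = zW z u := by
  rw [sC_g]; unfold cC zU zW
  ext <;> simp only; ring

lemma sC_zL (z : ℤ × ℤ) (u : ℤ) : sC.g (zL (cC z) u) = zE z u := by
  rw [sC_g]; unfold cC zL zE
  ext <;> simp only; ring

lemma sF_zU (z : ℤ × ℤ) (u : ℤ) : sF.g (zU (cF z) u) = zW z u := by
  rw [sF_g]; unfold cF zU zW
  ext <;> simp only; ring

lemma sF_zL (z : ℤ × ℤ) (u : ℤ) : sF.g (zL (cF z) u) = zE z u := by
  rw [sF_g]; unfold cF zL zE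
  ext <;> simp only; ring

theorem Ceil.stair {k N : ℤ} {Q E : Finset (ℤ × ℤ)} (h : Ceil k N Q E) :
    Stair k N (pre sC Q) (pre sC E) where
  lo l hl hQ := by
    rw [mem_pre, sC_G] at hl hQ
    have := h.lo _ hl hQ
    simp only at this
    omega
  up l hQ hl := by
    rw [mem_pre, sC_G] at hQ ⊢
    exact h.up _ hQ (by simp only; omega)
  cl l hl hQ l' hQ' h' := by
    rw [mem_pre, sC_G] at hl hQ hQ' ⊢
    refine h.cl _ hl hQ _ hQ' ?_
    simp only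
    rw [abs_le] at h' ⊢
    omega

theorem Floor.stair {k N : ℤ} {Q E : Finset (ℤ × ℤ)} (h : Floor k N Q E) :
    Stair k N (pre sF Q) (pre sF E) where
  lo l hl hQ := by
    rw [mem_pre, sF_G] at hl hQ
    have := h.lo _ hl hQ
    simp only at this
    omega
  up l hQ hl := by
    rw [mem_pre, sF_G] at hQ ⊢
    exact h.up _ hQ (by simp only; omega)
  cl l hl hQ l' hQ' h' := by
    rw [mem_pre, sF_G] at hl hQ hQ' ⊢
    refine h.cl _ hl hQ _ hQ' ?_
    simp only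
    rw [abs_le] at h' ⊢
    omega

/-- the event of three half rings below a ceiling / above a floor -/
def FFC (Q E : Finset (ℤ × ℤ)) (N : ℤ) (z : ℤ × ℤ) (u : ℤ) : Finset (ℤ × ℤ) → Prop :=
  FFS sC Q E N (cC z) u

def FFF (Q E : Finset (ℤ × ℤ)) (N : ℤ) (z : ℤ × ℤ) (u : ℤ) : Finset (ℤ × ℤ) → Prop :=
  FFS sF Q E N (cF z) u

/-- **U-paths below a ceiling** -/
theorem u_path_C {k N : ℤ} {Q E : Finset (ℤ × ℤ)} (hS : Ceil k N Q E) {z : ℤ × ℤ} {u : ℤ}
    (hz : z.1 - z.2 = k) (hN : 0 ≤ N) (hNu : N ≤ u) (hu : 1 ≤ u) (hQ : BR z (22 * u + 1) ⊆ Q)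
    {ω : Finset (ℤ × ℤ)} (hF : FFC Q E N z u ω) {v v' : ℤ × ℤ} (hv : Near (zW z u) (3 * u) v)
    (hv' : Near (zE z u) (3 * u) v') (ha : ArmE E u v ω) (ha' : ArmE E u v' ω) :
    Co (ω ∩ E ∩ Rg z (10 * u - 1) (22 * u)) v v' := by
  have h := u_path_S isy_C hS.stair (z := cC z) (by unfold cC; simp only; omega) hN hNu hu
    (by rw [sC_cC]; exact hQ) hF (by rw [sC_zU]; exact hv) (by rw [sC_zL]; exact hv') ha ha'
  rwa [sC_cC] at h

/-- **U-paths above a floor** -/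
theorem u_path_F {k N : ℤ} {Q E : Finset (ℤ × ℤ)} (hS : Floor k N Q E) {z : ℤ × ℤ} {u : ℤ}
    (hz : z.2 - z.1 = k) (hN : 0 ≤ N) (hNu : N ≤ u) (hu : 1 ≤ u) (hQ : BR z (22 * u + 1) ⊆ Q)
    {ω : Finset (ℤ × ℤ)} (hF : FFF Q E N z u ω) {v v' : ℤ × ℤ} (hv : Near (zW z u) (3 * u) v)
    (hv' : Near (zE z u) (3 * u) v') (ha : ArmE E u v ω) (ha' : ArmE E u v' ω) :
    Co (ω ∩ E ∩ Rg z (10 * u - 1) (22 * u)) v v' := by
  have h := u_path_S isy_F hS.stair (z := cF z) (by unfold cF; simp only; omega) hN hNu hu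
    (by rw [sF_cF]; exact hQ) hF (by rw [sF_zU]; exact hv) (by rw [sF_zL]; exact hv') ha ha'
  rwa [sF_cF] at h

/-- the probabilities of `FFC` and `FFF` are bounded below -/
theorem FF_prob_FC : ∃ c : ℝ, 0 < c ∧ ∀ q : ℤ × ℤ → ℝ, Qh q → ∀ (k N : ℤ)
    (Q E : Finset (ℤ × ℤ)) (z : ℤ × ℤ) (u : ℤ), 0 ≤ N → N ≤ u → 1 ≤ u →
    BR z (22 * u + 1) ⊆ Q →
    (Ceil k N Q E → z.1 - z.2 = k → c ≤ PrP q E (FFC Q E N z u)) ∧
    (Floor k N Q E → z.2 - z.1 = k → c ≤ PrP q E (FFF Q E N z u)) := by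
  obtain ⟨c, hc, h⟩ := FF_prob_S
  refine ⟨c, hc, fun q hq k N Q E z u hN hNu hu hQ => ⟨fun hS hz => ?_, fun hS hz => ?_⟩⟩
  · exact h sC isy_C q hq k N Q E hS.stair (cC z) u (by unfold cC; simp only; omega) hN hNu hu
      (by rw [sC_cC]; exact hQ)
  · exact h sF isy_F q hq k N Q E hS.stair (cF z) u (by unfold cF; simp only; omega) hN hNu hu
      (by rw [sF_cF]; exact hQ)

/-! ## Profiles -/

/-- a label set which is inside `Q` the part below the ceiling: rows `y ≤ -1 - T x`, `T` nonincreasing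
in the column `x` -/
theorem ceil_of {k N : ℤ} {Q E : Finset (ℤ × ℤ)} {T : ℤ → ℤ}
    (hmono : ∀ i j, i ≤ j → T j ≤ T i) (hlo : ∀ i, k ≤ T i) (hhi : ∀ i, T i ≤ k + N)
    (hE : ∀ l ∈ Q, l ∈ E ↔ 2 * T ((l.1 + l.2 - 1) / 2) + 1 ≤ l.1 - l.2) : Ceil k N Q E where
  lo := by
    intro l hl hlQ
    have h1 := (hE l hlQ).1 hl
    have h2 := hlo ((l.1 + l.2 - 1) / 2)
    omega
  up := by
    intro l hlQ hl
    rw [hE l hlQ]
    have h2 := hhi ((l.1 + l.2 - 1) / 2)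
    omega
  cl := by
    intro l hl hlQ l' hlQ' h
    rw [hE l hlQ] at hl
    rw [hE l' hlQ']
    rw [abs_le] at h
    have h3 : (l.1 + l.2 - 1) / 2 ≤ (l'.1 + l'.2 - 1) / 2 := by omega
    have h4 := hmono _ _ h3
    omega

/-- a label set which is inside `Q` the part above the floor: rows `y ≥ T x`, `T` nonincreasing in the
column `x` -/
theorem floor_of {k N : ℤ} {Q E : Finset (ℤ × ℤ)} {T : ℤ → ℤ}
    (hmono : ∀ i j, i ≤ j → T j ≤ T i) (hlo : ∀ i, k ≤ T i) (hhi : ∀ i, T i ≤ k + N)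
    (hE : ∀ l ∈ Q, l ∈ E ↔ 2 * T ((l.1 + l.2 - 1) / 2) + 1 ≤ l.2 - l.1) : Floor k N Q E where
  lo := by
    intro l hl hlQ
    have h1 := (hE l hlQ).1 hl
    have h2 := hlo ((l.1 + l.2 - 1) / 2)
    omega
  up := by
    intro l hlQ hl
    rw [hE l hlQ]
    have h2 := hhi ((l.1 + l.2 - 1) / 2)
    omega
  cl := by
    intro l hl hlQ l' hlQ' h
    rw [hE l hlQ] at hl
    rw [hE l' hlQ']
    rw [abs_le] at h
    have h3 : (l.1 + l.2 - 1) / 2 ≤ (l'.1 + l'.2 - 1) / 2 := by omega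
    have h4 := hmono _ _ h3
    omega

/-! ## The dual colour: labels shifted by `(1,1)` = one column to the right -/

lemma mem_sh1 {E : Finset (ℤ × ℤ)} {l : ℤ × ℤ} : l ∈ E.map sh1 ↔ (l.1 - 1, l.2 - 1) ∈ E := by
  rw [mem_map]
  constructor
  · rintro ⟨x, hx, rfl⟩
    have : sh1 x = (x.1 + 1, x.2 + 1) := rfl
    rw [this]
    simpa using hx
  · intro h
    refine ⟨_, h, ?_⟩
    have : sh1 (l.1 - 1, l.2 - 1) = ((l.1 - 1) + 1, (l.2 - 1) + 1) := rfl
    rw [this]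
    simp

theorem Ceil.sh1 {k N : ℤ} {Q E : Finset (ℤ × ℤ)} (h : Ceil k N Q E) :
    Ceil k N (Q.map sh1) (E.map sh1) where
  lo l hl hQ := by
    rw [mem_sh1] at hl hQ
    have := h.lo _ hl hQ
    simp only at this
    omega
  up l hQ hl := by
    rw [mem_sh1] at hQ ⊢
    exact h.up _ hQ (by simp only; omega)
  cl l hl hQ l' hQ' h' := by
    rw [mem_sh1] at hl hQ hQ' ⊢
    refine h.cl _ hl hQ _ hQ' ?_
    simp only
    rw [abs_le] at h' ⊢
    omega

theorem Floor.sh1 {k N : ℤ} {Q E : Finset (ℤ × ℤ)} (h : Floor k N Q E) :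
    Floor k N (Q.map sh1) (E.map sh1) where
  lo l hl hQ := by
    rw [mem_sh1] at hl hQ
    have := h.lo _ hl hQ
    simp only at this
    omega
  up l hQ hl := by
    rw [mem_sh1] at hQ ⊢
    exact h.up _ hQ (by simp only; omega)
  cl l hl hQ l' hQ' h' := by
    rw [mem_sh1] at hl hQ hQ' ⊢
    refine h.cl _ hl hQ _ hQ' ?_
    simp only
    rw [abs_le] at h' ⊢
    omega

theorem Stair.sh1 {k N : ℤ} {Q E : Finset (ℤ × ℤ)} (h : Stair k N Q E) :
    Stair (k + 1) N (Q.map sh1) (E.map sh1) where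
  lo l hl hQ := by
    rw [mem_sh1] at hl hQ
    have := h.lo _ hl hQ
    simp only at this
    omega
  up l hQ hl := by
    rw [mem_sh1] at hQ ⊢
    exact h.up _ hQ (by simp only; omega)
  cl l hl hQ l' hQ' h' := by
    rw [mem_sh1] at hl hQ hQ' ⊢
    refine h.cl _ hl hQ _ hQ' ?_
    simp only
    rw [abs_le] at h' ⊢
    omega

/-- the box about the face index `z` is contained in the shift of the box of radius `r + 1` -/
lemma BR_sh1 {z : ℤ × ℤ} {r : ℤ} {Q : Finset (ℤ × ℤ)} (h : BR z (r + 1) ⊆ Q) :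
    BR z r ⊆ Q.map sh1 := by
  intro l hl
  rw [mem_sh1]
  refine h ?_
  rw [mem_BR] at hl ⊢
  simp only
  omega

/-- the probability in the dual colour, `q = 1/2` -/
lemma Pr_du (E : Finset (ℤ × ℤ)) (A : Finset (ℤ × ℤ) → Prop) :
    Pr E (fun ω => A (du E ω)) = Pr (E.map sh1) A := by
  have h1 : Pr E (fun ω => A (du E ω)) = PrP (fun _ => 1 / 2) E (fun ω => A (ω.map sh1)) := by
    rw [← PrP_half]
    have := PrP_compl (fun _ => (1 / 2 : ℝ)) E (fun ω => A (ω.map Pool.Agent.H75.TwoArm.sh1))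
    have e : (fun _ : ℤ × ℤ => 1 - (1 / 2 : ℝ)) = fun _ => 1 / 2 := by funext; norm_num
    rw [e] at this
    rw [this]
    rfl
  rw [h1, ← PrP_half, PrP_map]

end Pool.Agent.H55.W
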