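import Mathlib
import Pool.Agent.H58.W.Coin
import Pool.Agent.H99.NC.Prob

set_option autoImplicit false
open Finset

/-! # Route W, W-D, D4 (iv): independence over disjoint sets, dyadic form

`PQ_none`, `PB_none` : events `A m` decided by disjoint sets `W m` with probability at least `c`:
none of them happens with probability at most `(1-c)^n`.
`PQ_dyadic`, `PB_dyadic` : scales `s ≤ u`, `lam u ≤ r`: at most `(lam s / r)^(dk lam c)`. -/

namespace Pool.Agent.H55.W

open Pool.Agent.H75.Perc Pool.Agent.H69.NC Pool.Agent.H58.W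
open Pool.Agent.H99.NC

section PQ

variable {α : Type*} [DecidableEq α]

/-- none of `n` independent events -/
theorem PQ_none {q : α → ℝ} (hq : Wt q) {c : ℝ} (n : ℕ) (W : ℕ → Finset α)
    (A : ℕ → Finset α → Prop) : ∀ (E : Finset α), (∀ m < n, W m ⊆ E) →
    (∀ m < n, ∀ m' < m, Disjoint (W m') (W m)) → (∀ m < n, c ≤ PQ q (W m) (A m)) → c ≤ 1 →
    PQ q E (fun ω => ∀ m < n, ¬ A m (ω ∩ W m)) ≤ (1 - c) ^ n := by
  induction n with
  | zero =>
    intro E _ _ _ _
    simpa using PQ_le_one hq E _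
  | succ n ih =>
    intro E hW hd hA hc
    set U : Finset α := (range n).biUnion W with hU
    have hUE : U ⊆ E := by
      rw [hU, biUnion_subset]
      intro m hm
      exact hW m (by have := mem_range.1 hm; omega)
    have hdU : Disjoint U (W n) := by
      rw [hU, disjoint_biUnion_left]
      intro m hm
      exact hd n (by omega) m (mem_range.1 hm)
    have hsub : ∀ m < n, W m ⊆ U := fun m hm => by
      rw [hU]; exact subset_biUnion_of_mem W (mem_range.2 hm)
    have e1 : PQ q E (fun ω => ∀ m < n + 1, ¬ A m (ω ∩ W m)) =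
        PQ q E (fun ω => (fun η => ∀ m < n, ¬ A m (η ∩ W m)) (ω ∩ U) ∧
          (fun η => ¬ A n η) (ω ∩ W n)) := by
      refine PQ_congr fun ω _ => ?_
      beta_reduce
      constructor
      · intro h
        refine ⟨fun m hm => ?_, h n (by omega)⟩
        rw [inter_assoc, inter_eq_right.2 (hsub m hm)]
        exact h m (by omega)
      · rintro ⟨h1, h2⟩ m hm
        rcases Nat.lt_succ_iff_lt_or_eq.1 hm with h3 | h3
        · have := h1 m h3
          rwa [inter_assoc, inter_eq_right.2 (hsub m h3)] at this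
        · rw [h3]; exact h2
    rw [e1, PQ_indep hUE (hW n (by omega)) hdU (fun η => ∀ m < n, ¬ A m (η ∩ W m))
      (fun η => ¬ A n η), pow_succ]
    have h1 := ih U hsub (fun m hm => hd m (by omega)) (fun m hm => hA m (by omega)) hc
    have h2 : PQ q (W n) (fun η => ¬ A n η) ≤ 1 - c := by
      rw [PQ_not]
      have := hA n (by omega)
      linarith
    exact mul_le_mul h1 h2 (PQ_nonneg hq _ _) (by have : 0 ≤ 1 - c := by linarith
                                                  positivity)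

end PQ

section PB

variable {α β : Type*} [DecidableEq α] [DecidableEq β]

/-- none of `n` independent events, coin model -/
theorem PB_none {b : α → β} {c : ℝ} (n : ℕ) (W : ℕ → Finset α)
    (A : ℕ → Finset α → Prop) : ∀ (E : Finset α), (∀ m < n, W m ⊆ E) →
    (∀ m < n, ∀ m' < m, Sep b (W m') (W m)) → (∀ m < n, c ≤ PB (W m) b (A m)) → c ≤ 1 →
    PB E b (fun ω => ∀ m < n, ¬ A m (ω ∩ W m)) ≤ (1 - c) ^ n := by
  induction n with
  | zero =>
    intro E _ _ _ _
    simpa using PB_le_one E b _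
  | succ n ih =>
    intro E hW hd hA hc
    set U : Finset α := (range n).biUnion W with hU
    have hUE : U ⊆ E := by
      rw [hU, biUnion_subset]
      intro m hm
      exact hW m (by have := mem_range.1 hm; omega)
    have hdU : Sep b U (W n) := by
      intro l hl l' hl'
      rw [hU, mem_biUnion] at hl
      obtain ⟨m, hm, hl⟩ := hl
      exact hd n (by omega) m (mem_range.1 hm) l hl l' hl'
    have hsub : ∀ m < n, W m ⊆ U := fun m hm => by
      rw [hU]; exact subset_biUnion_of_mem W (mem_range.2 hm)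
    have e1 : PB E b (fun ω => ∀ m < n + 1, ¬ A m (ω ∩ W m)) =
        PB E b (fun ω => (fun η => ∀ m < n, ¬ A m (η ∩ W m)) (ω ∩ U) ∧
          (fun η => ¬ A n η) (ω ∩ W n)) := by
      refine PB_congr fun ω _ => ?_
      beta_reduce
      constructor
      · intro h
        refine ⟨fun m hm => ?_, h n (by omega)⟩
        rw [inter_assoc, inter_eq_right.2 (hsub m hm)]
        exact h m (by omega)
      · rintro ⟨h1, h2⟩ m hm
        rcases Nat.lt_succ_iff_lt_or_eq.1 hm with h3 | h3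
        · have := h1 m h3
          rwa [inter_assoc, inter_eq_right.2 (hsub m h3)] at this
        · rw [h3]; exact h2
    rw [e1, PB_indep hUE (hW n (by omega)) hdU (fun η => ∀ m < n, ¬ A m (η ∩ W m))
      (fun η => ¬ A n η), pow_succ]
    have h1 := ih U hsub (fun m hm => hd m (by omega)) (fun m hm => hA m (by omega)) hc
    have h2 : PB (W n) b (fun η => ¬ A n η) ≤ 1 - c := by
      rw [PB_not]
      have := hA n (by omega)
      linarith
    exact mul_le_mul h1 h2 (PB_nonneg _ _ _) (by have : 0 ≤ 1 - c := by linarith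
                                                 positivity)

end PB

/-- the exponent of the dyadic bound -/
noncomputable def dk (lam : ℕ) (c : ℝ) : ℝ := - Real.log (1 - c / 2) / Real.log lam

lemma dk_pos {lam : ℕ} (hl : 2 ≤ lam) {c : ℝ} (hc : 0 < c) (hc1 : c ≤ 1) : 0 < dk lam c := by
  unfold dk
  have h1 : Real.log (1 - c / 2) < 0 := Real.log_neg (by linarith) (by linarith)
  have h2 : 0 < Real.log lam := Real.log_pos (by exact_mod_cast (by omega : 1 < lam))
  exact div_pos (by linarith) h2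

/-- `(1-c)^(log_lam (r/s)) ≤ (lam s / r)^(dk lam c)` -/
theorem pow_log_le {lam : ℕ} (hl : 2 ≤ lam) {c : ℝ} (hc : 0 < c) (hc1 : c ≤ 1) {s r : ℕ}
    (hs : 1 ≤ s) (hr : s ≤ r) :
    (1 - c) ^ (Nat.log lam (r / s)) ≤ ((lam : ℝ) * s / r) ^ (dk lam c) := by
  set n := Nat.log lam (r / s) with hn
  have hl0 : (0 : ℝ) < lam := by exact_mod_cast (by omega : 0 < lam)
  have hs0 : (0 : ℝ) < s := by exact_mod_cast (by omega : 0 < s)
  have hr0 : (0 : ℝ) < r := by exact_mod_cast (by omega : 0 < r)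
  have hlog : 0 < Real.log lam := Real.log_pos (by exact_mod_cast (by omega : 1 < lam))
  have h1 : r / s < lam ^ (n + 1) := Nat.lt_pow_succ_log_self (by omega) _
  have h2 : r < lam ^ (n + 1) * s := (Nat.div_lt_iff_lt_mul (by omega)).1 h1
  have h3 : (r : ℝ) < (lam : ℝ) ^ (n + 1) * s := by exact_mod_cast h2
  have h4 : ((lam : ℝ) ^ n)⁻¹ ≤ (lam : ℝ) * s / r := by
    rw [le_div_iff₀ hr0, inv_mul_le_iff₀ (by positivity)]
    rw [pow_succ] at h3
    linarith
  have hx : (0 : ℝ) < 1 - c / 2 := by linarith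
  have e1 : (1 - c / 2) ^ n = (((lam : ℝ) ^ n)⁻¹) ^ (dk lam c) := by
    rw [Real.inv_rpow (by positivity), ← Real.rpow_natCast lam n, ← Real.rpow_mul hl0.le,
      ← Real.rpow_neg hl0.le, Real.rpow_def_of_pos hl0, ← Real.rpow_natCast (1 - c / 2) n,
      Real.rpow_def_of_pos hx]
    congr 1
    unfold dk
    field_simp
  calc (1 - c) ^ n ≤ (1 - c / 2) ^ n := pow_le_pow_left₀ (by linarith) (by linarith) n
    _ = (((lam : ℝ) ^ n)⁻¹) ^ (dk lam c) := e1
    _ ≤ _ := Real.rpow_le_rpow (by positivity) h4 (dk_pos hl hc hc1).le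

/-- the scales `lam^m s` -/
lemma scale_le {lam s r m : ℕ} (hl : 2 ≤ lam) (hs : 1 ≤ s) (hr : s ≤ r)
    (hm : m < Nat.log lam (r / s)) : s ≤ lam ^ m * s ∧ lam * (lam ^ m * s) ≤ r := by
  have h0 : r / s ≠ 0 := by
    have := Nat.div_pos hr (by omega)
    omega
  have h1 : lam ^ (m + 1) ≤ r / s :=
    (Nat.pow_le_pow_right (by omega) hm).trans (Nat.pow_log_le_self lam h0)
  have h2 : lam ^ (m + 1) * s ≤ r := (Nat.le_div_iff_mul_le (by omega)).1 h1
  refine ⟨Nat.le_mul_of_pos_left _ (by positivity), ?_⟩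
  calc lam * (lam ^ m * s) = lam ^ (m + 1) * s := by ring
    _ ≤ r := h2

lemma scale_lt {lam s m m' : ℕ} (hl : 2 ≤ lam) (hm : m' < m) :
    lam * (lam ^ m' * s) ≤ lam ^ m * s := by
  calc lam * (lam ^ m' * s) = lam ^ (m' + 1) * s := by ring
    _ ≤ lam ^ m * s := Nat.mul_le_mul_right _ (Nat.pow_le_pow_right (by omega) hm)

/-- **dyadic form** -/
theorem PQ_dyadic {α : Type*} [DecidableEq α] {q : α → ℝ} (hq : Wt q) {lam : ℕ} (hl : 2 ≤ lam)
    {c : ℝ} (hc : 0 < c) (hc1 : c ≤ 1) {E : Finset α} {s r : ℕ} (hs : 1 ≤ s) (hr : s ≤ r)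
    (W : ℕ → Finset α) (A : ℕ → Finset α → Prop)
    (hW : ∀ u, s ≤ u → lam * u ≤ r → W u ⊆ E)
    (hA : ∀ u, s ≤ u → lam * u ≤ r → c ≤ PQ q (W u) (A u))
    (hd : ∀ u u', s ≤ u → lam * u ≤ u' → lam * u' ≤ r → Disjoint (W u) (W u'))
    {B : Finset α → Prop}
    (hB : ∀ ω, ω ⊆ E → B ω → ∀ u, s ≤ u → lam * u ≤ r → ¬ A u (ω ∩ W u)) :
    PQ q E B ≤ ((lam : ℝ) * s / r) ^ (dk lam c) := by
  refine le_trans ?_ (pow_log_le hl hc hc1 hs hr)
  refine le_trans (PQ_mono hq (B := fun ω => ∀ m < Nat.log lam (r / s),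
    ¬ A (lam ^ m * s) (ω ∩ W (lam ^ m * s))) fun ω hω h m hm => ?_) ?_
  · obtain ⟨h1, h2⟩ := scale_le hl hs hr hm
    exact hB ω hω h _ h1 h2
  · refine PQ_none hq _ (fun m => W (lam ^ m * s)) (fun m => A (lam ^ m * s)) E
      (fun m hm => ?_) (fun m hm m' hm' => ?_) (fun m hm => ?_) hc1
    · obtain ⟨h1, h2⟩ := scale_le hl hs hr hm
      exact hW _ h1 h2
    · obtain ⟨h1, h2⟩ := scale_le hl hs hr hm
      obtain ⟨h3, h4⟩ := scale_le hl hs hr (hm'.trans hm)
      exact hd _ _ h3 (scale_lt hl hm') h2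
    · obtain ⟨h1, h2⟩ := scale_le hl hs hr hm
      exact hA _ h1 h2

/-- **dyadic form**, coin model -/
theorem PB_dyadic {α β : Type*} [DecidableEq α] [DecidableEq β] {b : α → β} {lam : ℕ}
    (hl : 2 ≤ lam) {c : ℝ} (hc : 0 < c) (hc1 : c ≤ 1) {E : Finset α} {s r : ℕ} (hs : 1 ≤ s)
    (hr : s ≤ r) (W : ℕ → Finset α) (A : ℕ → Finset α → Prop)
    (hW : ∀ u, s ≤ u → lam * u ≤ r → W u ⊆ E)
    (hA : ∀ u, s ≤ u → lam * u ≤ r → c ≤ PB (W u) b (A u))
    (hd : ∀ u u', s ≤ u → lam * u ≤ u' → lam * u' ≤ r → Sep b (W u) (W u'))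
    {B : Finset α → Prop}
    (hB : ∀ ω, ω ⊆ E → B ω → ∀ u, s ≤ u → lam * u ≤ r → ¬ A u (ω ∩ W u)) :
    PB E b B ≤ ((lam : ℝ) * s / r) ^ (dk lam c) := by
  refine le_trans ?_ (pow_log_le hl hc hc1 hs hr)
  refine le_trans (PB_mono (B := fun ω => ∀ m < Nat.log lam (r / s),
    ¬ A (lam ^ m * s) (ω ∩ W (lam ^ m * s))) fun ω hω h m hm => ?_) ?_
  · obtain ⟨h1, h2⟩ := scale_le hl hs hr hm
    exact hB ω hω h _ h1 h2
  · refine PB_none _ (fun m => W (lam ^ m * s)) (fun m => A (lam ^ m * s)) E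
      (fun m hm => ?_) (fun m hm m' hm' => ?_) (fun m hm => ?_) hc1
    · obtain ⟨h1, h2⟩ := scale_le hl hs hr hm
      exact hW _ h1 h2
    · obtain ⟨h1, h2⟩ := scale_le hl hs hr hm
      obtain ⟨h3, h4⟩ := scale_le hl hs hr (hm'.trans hm)
      exact hd _ _ h3 (scale_lt hl hm') h2
    · obtain ⟨h1, h2⟩ := scale_le hl hs hr hm
      exact hA _ h1 h2

end Pool.Agent.H55.W
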