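import Mathlib
import Pool.Agent.H51.W.Canon2

set_option autoImplicit false
open Finset

/-! # Route W, W-D, D4: one side of a chord of plates, canonical coordinates

Plates: plate `m` = canonical rows `X0 + 2 N m ≤ crow l < X0 + 2 N (m + 1)`, the room over it is
`T m ≤ chgt l`. `side_of` : all hypotheses of `SideD` for the profile `T`, nonincreasing and between
`k` and `k + τ` on the window of half length `60 u` round the centre `z`. -/

namespace Pool.Agent.H55.W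

open Pool.Agent.H75.Perc Pool.Agent.H75.TwoArm Pool.Agent.H75.Four Pool.Agent.H60.Q1
open Pool.Agent.H91.W Pool.Agent.H51.W Pool.Agent.H99.NC

/-- plate index -/
def plx (X0 N x : ℤ) : ℤ := (x - X0) / (2 * N)

lemma plx_le {X0 N x m : ℤ} (hN : 0 < N) (h : X0 + 2 * N * m ≤ x) : m ≤ plx X0 N x := by
  unfold plx
  rw [Int.le_ediv_iff_mul_le (by omega)]
  linarith [mul_comm m (2 * N)]

lemma plx_lt {X0 N x m : ℤ} (hN : 0 < N) (h : x < X0 + 2 * N * m) : plx X0 N x < m := by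
  unfold plx
  rw [Int.ediv_lt_iff_lt_mul (by omega)]
  linarith [mul_comm m (2 * N)]

lemma plx_spec {X0 N x : ℤ} (hN : 0 < N) :
    X0 + 2 * N * plx X0 N x ≤ x ∧ x < X0 + 2 * N * (plx X0 N x + 1) := by
  constructor
  · by_contra h
    have := plx_lt (m := plx X0 N x) hN (not_le.1 h)
    omega
  · by_contra h
    have := plx_le (m := plx X0 N x + 1) hN (not_lt.1 h)
    omega

/-- canonical row along the wall and height -/
def crow (l : ℤ × ℤ) : ℤ := (l.1 - l.2 - 1) / 2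

def chgt (l : ℤ × ℤ) : ℤ := (l.1 + l.2 - 1) / 2

/-- the room over the profile `T`, in a box -/
noncomputable def cE (X0 N : ℤ) (T : ℤ → ℤ) (Q : Finset (ℤ × ℤ)) : Finset (ℤ × ℤ) :=
  Q.filter (fun l => T (plx X0 N (crow l)) ≤ chgt l)

lemma mem_cE {X0 N : ℤ} {T : ℤ → ℤ} {Q : Finset (ℤ × ℤ)} {l : ℤ × ℤ} :
    l ∈ cE X0 N T Q ↔ l ∈ Q ∧ T (plx X0 N (crow l)) ≤ chgt l := by
  unfold cE; rw [mem_filter]

/-- centre of the bank of plate `m` -/
def bc (X0 N : ℤ) (T : ℤ → ℤ) (m : ℤ) : ℤ × ℤ :=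
  ((T m + (X0 + 2 * N * m + N) + 1) / 2, T m - (T m + (X0 + 2 * N * m + N) + 1) / 2)

/-- the plate `m` meets the window -/
def Wn (X0 N c0 R m : ℤ) : Prop := c0 - R < X0 + 2 * N * (m + 1) ∧ X0 + 2 * N * m < c0 + R

/-- hypotheses on a profile -/
structure Pf (X0 N c0 R k τ : ℤ) (T : ℤ → ℤ) : Prop where
  lo : ∀ m, Wn X0 N c0 R m → k ≤ T m
  hi : ∀ m, Wn X0 N c0 R m → T m ≤ k + τ
  anti : ∀ m m', Wn X0 N c0 R m → Wn X0 N c0 R m' → m ≤ m' → T m' ≤ T m

lemma Wn.mono {X0 N c0 R R' m : ℤ} (h : Wn X0 N c0 R m) (hR : R ≤ R') : Wn X0 N c0 R' m := by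
  unfold Wn at h ⊢; omega

lemma Pf.mono {X0 N c0 R R' k τ : ℤ} {T : ℤ → ℤ} (h : Pf X0 N c0 R' k τ T) (hR : R ≤ R') :
    Pf X0 N c0 R k τ T where
  lo := fun m hm => h.lo m (hm.mono hR)
  hi := fun m hm => h.hi m (hm.mono hR)
  anti := fun m m' hm hm' => h.anti m m' (hm.mono hR) (hm'.mono hR)

/-- first plate to the right of `a` (centre) -/
def fp (X0 N a : ℤ) : ℤ := - ((X0 + N - a) / (2 * N))

lemma fp_spec {X0 N a : ℤ} (hN : 0 < N) :
    a ≤ X0 + 2 * N * fp X0 N a + N ∧ X0 + 2 * N * fp X0 N a + N < a + 2 * N := by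
  unfold fp
  have h1 := Int.ediv_mul_le (X0 + N - a) (b := 2 * N) (by omega)
  have h2 := Int.lt_ediv_add_one_mul_self (X0 + N - a) (b := 2 * N) (by omega)
  set q := (X0 + N - a) / (2 * N)
  constructor <;> nlinarith

/-- numbers of a chord at scale `u` -/
structure Scl (N τ u : ℤ) : Prop where
  hN : 80 ≤ N
  hτ : 0 ≤ τ
  hτN : 32 * τ + 16 ≤ N
  hu : 8 * N ≤ u

/-- number of plates in a block -/
def nn (N u : ℤ) : ℕ := ((u + N - 1) / N).toNat

lemma nn_spec {N τ u : ℤ} (h : Scl N τ u) : u ≤ (nn N u : ℤ) * N ∧ (nn N u : ℤ) * N < u + N := by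
  have hN := h.hN
  have hu := h.hu
  have h0 : 0 ≤ (u + N - 1) / N := Int.ediv_nonneg (by omega) (by omega)
  unfold nn
  rw [Int.toNat_of_nonneg h0]
  have h1 := Int.ediv_mul_le (u + N - 1) (b := N) (by omega)
  have h2 := Int.lt_ediv_add_one_mul_self (u + N - 1) (b := N) (by omega)
  constructor
  · linarith [add_mul ((u + N - 1) / N) 1 N]
  · linarith

lemma nums_of {N τ u : ℤ} (h : Scl N τ u) : Nums u N ((N - 8) / 2) τ (nn N u) := by
  have hN := h.hN
  have hτ := h.hτ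
  have h1 := h.hτN
  have hu := h.hu
  have h2 := nn_spec h
  refine ⟨by omega, by omega, by omega, hτ, by omega, hu, ?_, h2.1, by omega⟩
  by_contra h3
  have h4 : nn N u = 0 := by omega
  rw [h4] at h2
  simp at h2
  omega

variable {X0 N τ u k : ℤ} {T : ℤ → ℤ} {z : ℤ × ℤ}

/-- row of a label of the box -/
lemma row_BR {z l : ℤ × ℤ} {R : ℤ} (hl : l ∈ BR z R) :
    (z.1 - z.2) - 2 * R ≤ crow l ∧ crow l < (z.1 - z.2) + 2 * R := by
  rw [Pool.Agent.H91.W.mem_BR] at hl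
  unfold crow
  omega

lemma wn_BR (hN : 0 < N) {l : ℤ × ℤ} {R : ℤ} (hl : l ∈ BR z R) :
    Wn X0 N (z.1 - z.2) (2 * R) (plx X0 N (crow l)) := by
  have h1 := row_BR hl
  have h2 := plx_spec (X0 := X0) (x := crow l) hN
  unfold Wn
  constructor <;> linarith

/-- the bank plates of a block at canonical row distance `a` -/
lemma bank_in (hS : Scl N τ u) (hP : Pf X0 N (z.1 - z.2) (60 * u) (z.1 + z.2) τ T) {m : ℤ}
    (h1 : (z.1 - z.2) - 36 * u ≤ X0 + 2 * N * m) (h2 : X0 + 2 * N * (m + 1) ≤ (z.1 - z.2) + 36 * u) :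
    z.1 + z.2 ≤ T m ∧ T m ≤ z.1 + z.2 + τ ∧
      HL 1 (bc X0 N T m) ((N - 8) / 2) ⊆ cE X0 N T (BR z (30 * u)) := by
  have hN := hS.hN
  have hτ := hS.hτ
  have hτN := hS.hτN
  have hu := hS.hu
  have e1 : X0 + 2 * N * (m + 1) = X0 + 2 * N * m + 2 * N := by ring
  have hw : Wn X0 N (z.1 - z.2) (60 * u) m := by
    unfold Wn
    omega
  have hlo := hP.lo m hw
  have hhi := hP.hi m hw
  refine ⟨hlo, hhi, fun l hl => ?_⟩
  rw [mem_HL] at hl
  unfold bc at hl
  simp only [one_mul] at hl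
  have hQ : l ∈ BR z (30 * u) := by
    rw [Pool.Agent.H91.W.mem_BR]
    omega
  rw [mem_cE]
  refine ⟨hQ, ?_⟩
  have hw' := wn_BR (X0 := X0) (N := N) (by omega) hQ
  have e2 : 2 * (30 * u) = 60 * u := by ring
  rw [e2] at hw'
  have hge : m ≤ plx X0 N (crow l) := by
    refine plx_le (by omega) ?_
    unfold crow
    omega
  have h5 := hP.anti m _ hw hw' hge
  unfold chgt
  omega

/-- **the hypotheses of one side** -/
theorem side_of (hS : Scl N τ u) (hP : Pf X0 N (z.1 - z.2) (60 * u) (z.1 + z.2) τ T)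
    {mW mE : ℤ}
    (hW : (z.1 - z.2) - 34 * u + 2 ≤ X0 + 2 * N * mW + N ∧
      X0 + 2 * N * mW + N < (z.1 - z.2) - 34 * u + 2 + 2 * N)
    (hE : (z.1 - z.2) + 30 * u + 2 ≤ X0 + 2 * N * mE + N ∧
      X0 + 2 * N * mE + N < (z.1 - z.2) + 30 * u + 2 + 2 * N) :
    SideD z u N ((N - 8) / 2) τ ((X0 + 2 * N * mW + N - (z.1 - z.2)) / 2)
      ((X0 + 2 * N * mE + N - (z.1 - z.2)) / 2) (nn N u) (BR z (30 * u))
      (cE X0 N T (BR z (30 * u))) (fun i => bc X0 N T (mW + i)) (fun i => bc X0 N T (mE + i)) := by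
  have hN := hS.hN
  have hτ := hS.hτ
  have hτN := hS.hτN
  have hu := hS.hu
  obtain ⟨n1, n2⟩ := nn_spec hS
  have hi0 : ∀ i : ℕ, i < nn N u → 0 ≤ N * (i : ℤ) ∧ N * (i : ℤ) + N ≤ (nn N u : ℤ) * N := by
    intro i hi
    have h1 : (i : ℤ) + 1 ≤ nn N u := by exact_mod_cast hi
    have h2 : (0 : ℤ) ≤ i := by positivity
    constructor
    · positivity
    · nlinarith
  have eW : ∀ i : ℕ, X0 + 2 * N * (mW + i) = X0 + 2 * N * mW + 2 * (N * (i : ℤ)) := fun i => by ring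
  have eE : ∀ i : ℕ, X0 + 2 * N * (mE + i) = X0 + 2 * N * mE + 2 * (N * (i : ℤ)) := fun i => by ring
  have eW' : ∀ i : ℕ, X0 + 2 * N * (mW + i + 1) = X0 + 2 * N * mW + 2 * (N * (i : ℤ)) + 2 * N :=
    fun i => by ring
  have eE' : ∀ i : ℕ, X0 + 2 * N * (mE + i + 1) = X0 + 2 * N * mE + 2 * (N * (i : ℤ)) + 2 * N :=
    fun i => by ring
  have bW : ∀ i : ℕ, i < nn N u → _ := fun i hi => bank_in (m := mW + i) hS hP
    (by have := hi0 i hi; rw [eW]; omega) (by have := hi0 i hi; rw [eW']; omega)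
  have bE : ∀ i : ℕ, i < nn N u → _ := fun i hi => bank_in (m := mE + i) hS hP
    (by have := hi0 i hi; rw [eE]; omega) (by have := hi0 i hi; rw [eE']; omega)
  have e2 : 2 * (30 * u) = 60 * u := by ring
  refine ⟨⟨?_, ?_, ?_⟩, ?_, ?_, Subset.refl _, ?_, ?_, ?_, ?_, ?_, ?_, ?_, ?_, ?_, ?_⟩
  · -- lo
    intro l hl hQ
    have hw := wn_BR (X0 := X0) (N := N) (by omega) hQ
    rw [e2] at hw
    have h1 := hP.lo _ hw
    have h2 := (mem_cE.1 hl).2
    unfold chgt at h2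
    omega
  · -- up
    intro l hQ hl
    have hw := wn_BR (X0 := X0) (N := N) (by omega) hQ
    rw [e2] at hw
    have h1 := hP.hi _ hw
    rw [mem_cE]
    refine ⟨hQ, ?_⟩
    unfold chgt
    omega
  · -- cl
    intro l hl hQ l' hQ' h
    have hw := wn_BR (X0 := X0) (N := N) (by omega) hQ
    have hw' := wn_BR (X0 := X0) (N := N) (by omega) hQ'
    rw [e2] at hw hw'
    rw [mem_cE] at hl ⊢
    refine ⟨hQ', ?_⟩
    rw [abs_le] at h
    have h3 : plx X0 N (crow l) ≤ plx X0 N (crow l') := by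
      refine plx_le (by omega) ((plx_spec (by omega)).1.trans ?_)
      unfold crow
      omega
    have h4 := hP.anti _ _ hw hw' h3
    have h5 := hl.2
    unfold chgt at h5 ⊢
    omega
  · intro l hl; exact (mem_cE.1 hl).1
  · intro l hl
    have := (mem_cE.1 hl).1
    rw [Pool.Agent.H91.W.mem_BR] at this
    exact this.2.2
  · omega
  · omega
  · omega
  · omega
  · intro i hi
    have h1 := bW i hi
    have h2 := hi0 i hi
    have h3 := eW i
    unfold Near wp bc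
    simp only [one_mul]
    rw [h3, abs_le, abs_le]
    have h4 : (i : ℤ) * N = N * (i : ℤ) := mul_comm _ _
    rw [h4]
    omega
  · intro i hi
    have h1 := bE i hi
    have h2 := hi0 i hi
    have h3 := eE i
    unfold Near wp bc
    simp only [one_mul]
    rw [h3, abs_le, abs_le]
    have h4 : (i : ℤ) * N = N * (i : ℤ) := mul_comm _ _
    rw [h4]
    omega
  · intro i hi
    have h1 := bW i hi
    unfold bc
    simp only
    omega
  · intro i hi
    have h1 := bE i hi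
    unfold bc
    simp only
    omega
  · intro i hi; exact (bW i hi).2.2
  · intro i hi; exact (bE i hi).2.2

/-- the bank segment of plate `m` lies over the rows of the plate -/
lemma seg_row {m : ℤ} {v : ℤ × ℤ} (h : Seg (bc X0 N T m) ((N - 8) / 2) v) :
    v.1 + v.2 = T m ∧ X0 + 2 * N * m < v.1 - v.2 ∧ v.1 - v.2 < X0 + 2 * N * (m + 1) := by
  unfold Seg ht bc at h
  simp only [one_mul] at h
  rw [abs_le] at h
  have e1 : X0 + 2 * N * (m + 1) = X0 + 2 * N * m + 2 * N := by ring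
  rw [e1]
  omega

end Pool.Agent.H55.W
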