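import Mathlib
import Pool.Agent.H55.W.Side
import Pool.Agent.H55.W.Ind
import Pool.Agent.H91.W.Rooms
import Pool.Agent.H35.W.Couple

set_option autoImplicit false
open Finset

/-! # Route W, W-D, D4: blocking circuits across a horizontal chord of plates, true coordinates

`Ch` : plate `m` = columns `X0 + 2 N m ≤ tX e < X0 + 2 N (m+1)`; upper room `TU m ≤ tY e`, lower room
`tY e ≤ -1 - TL m`. `Ch.bU m`, `Ch.bL m` : vertices strictly inside the upper, lower bank of plate `m`.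
`Ch.Blk c u K` : blocking event in the annulus of scale `u` round the vertex `c`: a left plate `j` and a
right plate `i` joined above and below the chord, with the coin condition `K j i`.
`chord_block` : probability bounded below, `K` = (state of the whole plate `j`, resp. `i`, is `σ`).
`Blk_local`, `chord_dyadic` : the scales `s ≤ u`, `3 u ≤ r`: no block with probability at most
`(3 s / r)^kap`. -/

namespace Pool.Agent.H55.W

open Pool.Agent.H75.Perc Pool.Agent.H75.TwoArm Pool.Agent.H75.Four Pool.Agent.H60.Q1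
open Pool.Agent.H91.W Pool.Agent.H51.W Pool.Agent.H99.NC
open Pool.Agent.H58.W (up mem_up up_subset PB PB_mono PB_congr PB_restrict PB_nonneg PB_le_one Sep)
open Pool.Agent.H35.W (PB_flip)

/-- a chord of plates -/
structure Ch where
  X0 : ℤ
  N : ℤ
  TU : ℤ → ℤ
  TL : ℤ → ℤ

namespace Ch

/-- upper profile on columns -/
def U (C : Ch) (x : ℤ) : ℤ := C.TU (plx C.X0 C.N x)

/-- lower profile on columns -/
def L (C : Ch) (x : ℤ) : ℤ := C.TL (plx C.X0 C.N x)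

/-- vertices strictly inside the upper bank of plate `m` -/
def bU (C : Ch) (m : ℤ) (v : ℤ × ℤ) : Prop :=
  v.2 - v.1 = C.TU m ∧ C.X0 + 2 * C.N * m < v.1 + v.2 ∧ v.1 + v.2 < C.X0 + 2 * C.N * (m + 1)

/-- vertices strictly inside the lower bank of plate `m` -/
def bL (C : Ch) (m : ℤ) (v : ℤ × ℤ) : Prop :=
  v.1 - v.2 = C.TL m ∧ C.X0 + 2 * C.N * m < v.1 + v.2 ∧ v.1 + v.2 < C.X0 + 2 * C.N * (m + 1)

/-- labels of the upper room in the annulus -/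
noncomputable def rU (C : Ch) (c : ℤ × ℤ) (u : ℤ) : Finset (ℤ × ℤ) :=
  RU C.U (Rg c (10 * u - 1) (22 * u))

/-- labels of the lower room in the annulus -/
noncomputable def rL (C : Ch) (c : ℤ × ℤ) (u : ℤ) : Finset (ℤ × ℤ) :=
  RL C.L (Rg c (10 * u - 1) (22 * u))

/-- left plates of the annulus -/
def isW (C : Ch) (c : ℤ × ℤ) (u j : ℤ) : Prop :=
  c.1 + c.2 - 36 * u ≤ C.X0 + 2 * C.N * j ∧ C.X0 + 2 * C.N * (j + 1) ≤ c.1 + c.2 - 28 * u

/-- right plates of the annulus -/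
def isE (C : Ch) (c : ℤ × ℤ) (u i : ℤ) : Prop :=
  c.1 + c.2 + 28 * u ≤ C.X0 + 2 * C.N * i ∧ C.X0 + 2 * C.N * (i + 1) ≤ c.1 + c.2 + 36 * u

/-- the blocking event at scale `u` -/
def Blk (C : Ch) (c : ℤ × ℤ) (u : ℤ) (K : ℤ → ℤ → Finset (ℤ × ℤ) → Prop)
    (ω : Finset (ℤ × ℤ)) : Prop :=
  ∃ j i, C.isW c u j ∧ C.isE c u i ∧ K j i ω ∧
    (∃ p p', C.bU j p ∧ C.bU i p' ∧ Co (ω ∩ C.rU c u) p p') ∧
    (∃ q q', C.bL j q ∧ C.bL i q' ∧ Co (ω ∩ C.rL c u) q q')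

/-- the plate meets the window -/
def Win (C : Ch) (c : ℤ × ℤ) (R m : ℤ) : Prop := Wn C.X0 C.N (c.1 + c.2) (2 * R) m

/-- geometry: profiles nonincreasing, between the height of `c` and `τ` above it, on the window -/
structure Ok (C : Ch) (c : ℤ × ℤ) (R τ : ℤ) : Prop where
  hN : 80 ≤ C.N
  hτ : 0 ≤ τ
  hτN : 32 * τ + 16 ≤ C.N
  U : Pf C.X0 C.N (c.1 + c.2) (2 * R) (c.2 - c.1) τ C.TU
  L : Pf C.X0 C.N (c.1 + c.2) (2 * R) (c.1 - c.2) τ C.TL

/-- labels of the two rooms in the window -/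
noncomputable def rooms (C : Ch) (c : ℤ × ℤ) (R : ℤ) : Finset (ℤ × ℤ) :=
  RU C.U (BR c R) ∪ RL C.L (BR c R)

/-- coin model: natural labels are single blocks, `rp m` is a label of the whole plate `m` -/
structure OkB {β : Type*} (C : Ch) (c : ℤ × ℤ) (R : ℤ) (E : Finset (ℤ × ℤ)) (b : ℤ × ℤ → β)
    (rp : ℤ → ℤ × ℤ) : Prop where
  nat : C.rooms c R ⊆ E
  inj : ∀ e ∈ C.rooms c R, ∀ e' ∈ C.rooms c R, b e = b e' → e = e'
  mem : ∀ m, C.Win c R m → rp m ∈ E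
  rpn : ∀ e ∈ C.rooms c R, ∀ m, C.Win c R m → b e ≠ b (rp m)
  rpi : ∀ m m', C.Win c R m → C.Win c R m' → b (rp m) = b (rp m') → m = m'

end Ch

/-- the state of the left plate is `σ` -/
def KW (rp : ℤ → ℤ × ℤ) (σ : ℤ → Prop) (j _i : ℤ) (ω : Finset (ℤ × ℤ)) : Prop := rp j ∈ ω ↔ σ j

/-- the state of the right plate is `σ` -/
def KE (rp : ℤ → ℤ × ℤ) (σ : ℤ → Prop) (_j i : ℤ) (ω : Finset (ℤ × ℤ)) : Prop := rp i ∈ ω ↔ σ i

section geometry

variable {C : Ch} {c : ℤ × ℤ} {R τ u : ℤ}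

lemma mem_uE {e : ℤ × ℤ} {Q : ℤ} : e ∈ cE C.X0 C.N C.TU (BR (c.2, -c.1) Q) ↔
    ((-e.2, e.1) : ℤ × ℤ) ∈ RU C.U (BR c Q) := by
  rw [mem_cE, mem_RU, mem_BR, mem_BR]
  have e1 : tX ((-e.2, e.1) : ℤ × ℤ) = crow e := by unfold tX crow; simp only; omega
  have e2 : tY ((-e.2, e.1) : ℤ × ℤ) = chgt e := by unfold tY chgt; simp only; omega
  unfold Ch.U
  rw [e1, e2]
  simp only
  refine and_congr ?_ Iff.rfl
  omega

lemma mem_lE {e : ℤ × ℤ} {Q : ℤ} : e ∈ cE C.X0 C.N C.TL (BR (c.1, -c.2) Q) ↔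
    ((e.1, -e.2) : ℤ × ℤ) ∈ RL C.L (BR c Q) := by
  rw [mem_cE, mem_RL, mem_BR, mem_BR]
  have e1 : tX ((e.1, -e.2) : ℤ × ℤ) = crow e := by unfold tX crow; simp only; omega
  unfold Ch.L
  rw [e1]
  unfold tY chgt
  simp only
  constructor
  · rintro ⟨h1, h2⟩
    refine ⟨by omega, by omega⟩
  · rintro ⟨h1, h2⟩
    refine ⟨by omega, by omega⟩

lemma rU_sub (h : 30 * u ≤ R) (_hu : 0 ≤ u) : C.rU c u ⊆ C.rooms c R := by
  intro e he
  unfold Ch.rU at he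
  rw [mem_RU] at he
  refine mem_union_left _ (mem_RU.2 ⟨?_, he.2⟩)
  exact Pool.Agent.H91.W.BR_mono (by omega) (mem_Rg.1 he.1).1

lemma rL_sub (h : 30 * u ≤ R) (_hu : 0 ≤ u) : C.rL c u ⊆ C.rooms c R := by
  intro e he
  unfold Ch.rL at he
  rw [mem_RL] at he
  refine mem_union_right _ (mem_RL.2 ⟨?_, he.2⟩)
  exact Pool.Agent.H91.W.BR_mono (by omega) (mem_Rg.1 he.1).1

lemma isW_win (hN : 0 < C.N) (h : 30 * u ≤ R) (hu : 0 < u) {j : ℤ} (hj : C.isW c u j) :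
    C.Win c R j := by
  unfold Ch.isW at hj
  unfold Ch.Win Wn
  have e1 : C.X0 + 2 * C.N * (j + 1) = C.X0 + 2 * C.N * j + 2 * C.N := by ring
  rw [e1] at hj ⊢
  omega

lemma isE_win (hN : 0 < C.N) (h : 30 * u ≤ R) (hu : 0 < u) {j : ℤ} (hj : C.isE c u j) :
    C.Win c R j := by
  unfold Ch.isE at hj
  unfold Ch.Win Wn
  have e1 : C.X0 + 2 * C.N * (j + 1) = C.X0 + 2 * C.N * j + 2 * C.N := by ring
  rw [e1] at hj ⊢
  omega

/-- the two rooms are disjoint -/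
lemma rooms_disj (hC : C.Ok c R τ) {e : ℤ × ℤ} (h1 : e ∈ RU C.U (BR c R))
    (h2 : e ∈ RL C.L (BR c R)) : False := by
  rw [mem_RU] at h1
  rw [mem_RL] at h2
  have hw : Wn C.X0 C.N (c.1 + c.2) (2 * R) (plx C.X0 C.N (tX e)) := by
    have h3 := plx_spec (X0 := C.X0) (N := C.N) (x := tX e) (by have := hC.hN; omega)
    have h4 : (c.1 + c.2) - 2 * R ≤ tX e ∧ tX e < (c.1 + c.2) + 2 * R := by
      have h5 := h1.1
      rw [mem_BR] at h5
      unfold tX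
      omega
    unfold Wn
    constructor <;> linarith
  have k1 := hC.U.lo _ hw
  have k2 := hC.L.lo _ hw
  have k3 := h1.2
  have k4 := h2.2
  unfold Ch.U at k3
  unfold Ch.L at k4
  omega

end geometry

/-- the blocking event from the canonical one -/
lemma blk_of_canon {β : Type*} [DecidableEq β] {C : Ch} {c : ℤ × ℤ} {R u : ℤ}
    {E : Finset (ℤ × ℤ)} {b : ℤ × ℤ → β} (hE : C.rooms c R ⊆ E) (hR : 30 * u ≤ R)
    {j i : ℤ} {ω : Finset β}
    (h1 : UPt (c.2, -c.1) u ((C.N - 8) / 2) (cE C.X0 C.N C.TU (BR (c.2, -c.1) (30 * u)))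
      (bc C.X0 C.N C.TU j) (bc C.X0 C.N C.TU i)
      (up (cE C.X0 C.N C.TU (BR (c.2, -c.1) (30 * u))) (fun l => b (-l.2, l.1)) ω))
    (h2 : UPt (c.1, -c.2) u ((C.N - 8) / 2) (cE C.X0 C.N C.TL (BR (c.1, -c.2) (30 * u)))
      (bc C.X0 C.N C.TL j) (bc C.X0 C.N C.TL i)
      (up (cE C.X0 C.N C.TL (BR (c.1, -c.2) (30 * u))) (fun l => b (l.1, -l.2)) ω)) :
    (∃ p p', C.bU j p ∧ C.bU i p' ∧ Co (up E b ω ∩ C.rU c u) p p') ∧
    (∃ q q', C.bL j q ∧ C.bL i q' ∧ Co (up E b ω ∩ C.rL c u) q q') := by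
  constructor
  · obtain ⟨v, v', s1, s2, h3⟩ := h1
    have r1 := seg_row s1
    have r2 := seg_row s2
    refine ⟨(-v.2, v.1), (-v'.2, v'.1), ⟨by simp only; omega, by simp only; linarith [r1.2.1],
      by simp only; linarith [r1.2.2]⟩, ⟨by simp only; omega, by simp only; linarith [r2.2.1],
      by simp only; linarith [r2.2.2]⟩, ?_⟩
    rw [← co_uI]
    simp only [neg_neg, Prod.mk.eta]
    refine h3.mono fun l hl => ?_
    obtain ⟨k1, k2⟩ := mem_inter.1 hl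
    obtain ⟨k3, k4⟩ := mem_inter.1 k1
    rw [mem_uI, mem_inter, mem_up]
    rw [mem_up] at k3
    have k5 := mem_uE.1 k4
    have k6 : ((-l.2, l.1) : ℤ × ℤ) ∈ C.rooms c R := by
      rw [mem_RU] at k5
      exact mem_union_left _ (mem_RU.2 ⟨Pool.Agent.H91.W.BR_mono hR k5.1, k5.2⟩)
    refine ⟨⟨hE k6, k3.2⟩, ?_⟩
    unfold Ch.rU
    rw [mem_RU] at k5 ⊢
    refine ⟨?_, k5.2⟩
    rw [mem_Rg, mem_BR, mem_BR] at k2 ⊢
    simp only at k2 ⊢
    omega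
  · obtain ⟨v, v', s1, s2, h3⟩ := h2
    have r1 := seg_row s1
    have r2 := seg_row s2
    refine ⟨(v.1, -v.2), (v'.1, -v'.2), ⟨by simp only; omega, by simp only; linarith [r1.2.1],
      by simp only; linarith [r1.2.2]⟩, ⟨by simp only; omega, by simp only; linarith [r2.2.1],
      by simp only; linarith [r2.2.2]⟩, ?_⟩
    rw [← co_lI]
    simp only [neg_neg, Prod.mk.eta]
    refine h3.mono fun l hl => ?_
    obtain ⟨k1, k2⟩ := mem_inter.1 hl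
    obtain ⟨k3, k4⟩ := mem_inter.1 k1
    rw [mem_lI, mem_inter, mem_up]
    rw [mem_up] at k3
    have k5 := mem_lE.1 k4
    have k6 : ((l.1, -l.2) : ℤ × ℤ) ∈ C.rooms c R := by
      rw [mem_RL] at k5
      exact mem_union_right _ (mem_RL.2 ⟨Pool.Agent.H91.W.BR_mono hR k5.1, k5.2⟩)
    refine ⟨⟨hE k6, k3.2⟩, ?_⟩
    unfold Ch.rL
    rw [mem_RL] at k5 ⊢
    refine ⟨?_, k5.2⟩
    rw [mem_Rg, mem_BR, mem_BR] at k2 ⊢
    simp only at k2 ⊢
    omega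

/-- both coins conditions, all plates open -/
theorem chord_open : ∃ c1 : ℝ, 0 < c1 ∧ ∀ {β : Type*} [DecidableEq β] (C : Ch) (c : ℤ × ℤ)
    (R τ : ℤ) (E : Finset (ℤ × ℤ)) (b : ℤ × ℤ → β) (rp : ℤ → ℤ × ℤ), C.Ok c R τ →
    C.OkB c R E b rp → ∀ u : ℤ, 8 * C.N ≤ u → 30 * u ≤ R →
    c1 ≤ PB E b (C.Blk c u (KW rp fun _ => True)) ∧
    c1 ≤ PB E b (C.Blk c u (KE rp fun _ => True)) := by
  obtain ⟨a1, ha1, H1⟩ := block_canonU
  obtain ⟨a2, ha2, H2⟩ := block_canon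
  refine ⟨min a1 a2, lt_min ha1 ha2, ?_⟩
  intro β _ C c R τ E b rp hC hB u hu hR
  have hN := hC.hN
  have hS : Scl C.N τ u := ⟨hC.hN, hC.hτ, hC.hτN, hu⟩
  have hu0 : 0 < u := by omega
  set z1 : ℤ × ℤ := (c.2, -c.1) with hz1
  set z2 : ℤ × ℤ := (c.1, -c.2) with hz2
  have hP1 : Pf C.X0 C.N (z1.1 - z1.2) (60 * u) (z1.1 + z1.2) τ C.TU := by
    have h := hC.U.mono (R := 60 * u) (by omega)
    have e1 : z1.1 - z1.2 = c.1 + c.2 := by rw [hz1]; ring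
    have e2 : z1.1 + z1.2 = c.2 - c.1 := by rw [hz1]; ring
    rw [e1, e2]
    exact h
  have hP2 : Pf C.X0 C.N (z2.1 - z2.2) (60 * u) (z2.1 + z2.2) τ C.TL := by
    have h := hC.L.mono (R := 60 * u) (by omega)
    have e1 : z2.1 - z2.2 = c.1 + c.2 := by rw [hz2]; ring
    have e2 : z2.1 + z2.2 = c.1 - c.2 := by rw [hz2]; ring
    rw [e1, e2]
    exact h
  set mW := fp C.X0 C.N (c.1 + c.2 - 34 * u + 2) with hmW
  set mE := fp C.X0 C.N (c.1 + c.2 + 30 * u + 2) with hmE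
  have fW := fp_spec (X0 := C.X0) (N := C.N) (a := c.1 + c.2 - 34 * u + 2) (by omega)
  have fE := fp_spec (X0 := C.X0) (N := C.N) (a := c.1 + c.2 + 30 * u + 2) (by omega)
  rw [← hmW] at fW
  rw [← hmE] at fE
  have S1 := side_of (mW := mW) (mE := mE) hS hP1 (by rw [hz1]; simp only; omega)
    (by rw [hz1]; simp only; omega)
  have S2 := side_of (mW := mW) (mE := mE) hS hP2 (by rw [hz2]; simp only; omega)
    (by rw [hz2]; simp only; omega)
  obtain ⟨n1, n2⟩ := nn_spec hS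
  have hi0 : ∀ i : ℕ, i < nn C.N u → 0 ≤ C.N * (i : ℤ) ∧ C.N * (i : ℤ) + C.N < u + C.N := by
    intro i hi
    have h1 : (i : ℤ) + 1 ≤ nn C.N u := by exact_mod_cast hi
    have h2 : (0 : ℤ) ≤ i := by positivity
    constructor
    · positivity
    · nlinarith
  have jW : ∀ i : ℕ, i < nn C.N u → C.isW c u (mW + i) := by
    intro i hi
    have h1 := hi0 i hi
    have e1 : C.X0 + 2 * C.N * (mW + i) = C.X0 + 2 * C.N * mW + 2 * (C.N * (i : ℤ)) := by ring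
    have e2 : C.X0 + 2 * C.N * (mW + i + 1) =
      C.X0 + 2 * C.N * mW + 2 * (C.N * (i : ℤ)) + 2 * C.N := by ring
    unfold Ch.isW
    rw [e1, e2]
    omega
  have jE : ∀ i : ℕ, i < nn C.N u → C.isE c u (mE + i) := by
    intro i hi
    have h1 := hi0 i hi
    have e1 : C.X0 + 2 * C.N * (mE + i) = C.X0 + 2 * C.N * mE + 2 * (C.N * (i : ℤ)) := by ring
    have e2 : C.X0 + 2 * C.N * (mE + i + 1) =
      C.X0 + 2 * C.N * mE + 2 * (C.N * (i : ℤ)) + 2 * C.N := by ring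
    unfold Ch.isE
    rw [e1, e2]
    omega
  have m1 : ∀ l ∈ cE C.X0 C.N C.TU (BR z1 (30 * u)), ((-l.2, l.1) : ℤ × ℤ) ∈ C.rooms c R := by
    intro l hl
    have h := mem_uE.1 hl
    rw [mem_RU] at h
    exact mem_union_left _ (mem_RU.2 ⟨Pool.Agent.H91.W.BR_mono hR h.1, h.2⟩)
  have m2 : ∀ l ∈ cE C.X0 C.N C.TL (BR z2 (30 * u)), ((l.1, -l.2) : ℤ × ℤ) ∈ C.rooms c R := by
    intro l hl
    have h := mem_lE.1 hl
    rw [mem_RL] at h
    exact mem_union_right _ (mem_RL.2 ⟨Pool.Agent.H91.W.BR_mono hR h.1, h.2⟩)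
  have i1 : ∀ l ∈ cE C.X0 C.N C.TU (BR z1 (30 * u)), ∀ l' ∈ cE C.X0 C.N C.TU (BR z1 (30 * u)),
      b (-l.2, l.1) = b (-l'.2, l'.1) → l = l' := by
    intro l hl l' hl' h
    have h1 := hB.inj _ (m1 l hl) _ (m1 l' hl') h
    rw [Prod.ext_iff] at h1 ⊢
    simp only at h1
    omega
  have i2 : ∀ l ∈ cE C.X0 C.N C.TL (BR z2 (30 * u)), ∀ l' ∈ cE C.X0 C.N C.TL (BR z2 (30 * u)),
      b (l.1, -l.2) = b (l'.1, -l'.2) → l = l' := by
    intro l hl l' hl' h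
    have h1 := hB.inj _ (m2 l hl) _ (m2 l' hl') h
    rw [Prod.ext_iff] at h1 ⊢
    simp only at h1
    omega
  have d12 : ∀ l ∈ cE C.X0 C.N C.TU (BR z1 (30 * u)), ∀ l' ∈ cE C.X0 C.N C.TL (BR z2 (30 * u)),
      b (-l.2, l.1) ≠ b (l'.1, -l'.2) := by
    intro l hl l' hl' h
    have h1 := hB.inj _ (m1 l hl) _ (m2 l' hl') h
    have h2 := mem_uE.1 hl
    have h3 := mem_lE.1 hl'
    rw [← h1] at h3
    rw [mem_RU] at h2
    rw [mem_RL] at h3
    exact rooms_disj hC (mem_RU.2 ⟨Pool.Agent.H91.W.BR_mono hR h2.1, h2.2⟩)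
      (mem_RL.2 ⟨Pool.Agent.H91.W.BR_mono hR h3.1, h3.2⟩)
  have wW : ∀ i : ℕ, i < nn C.N u → C.Win c R (mW + i) := fun i hi =>
    isW_win (by omega) hR hu0 (jW i hi)
  have wE : ∀ i : ℕ, i < nn C.N u → C.Win c R (mE + i) := fun i hi =>
    isE_win (by omega) hR hu0 (jE i hi)
  constructor
  · refine (min_le_left a1 a2).trans ?_
    have key := H1 (E.image b) u C.N ((C.N - 8) / 2) τ (nn C.N u) (nums_of hS) z1 z2 _ _ _ _ _ _ _ _
      _ _ _ _ S1 S2 (fun l => b (-l.2, l.1)) (fun l => b (l.1, -l.2)) (fun i => b (rp (mW + i)))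
      i1 i2 (fun l hl => mem_image_of_mem b (hB.nat (m1 l hl)))
      (fun l hl => mem_image_of_mem b (hB.nat (m2 l hl)))
      (fun i hi => mem_image_of_mem b (hB.mem _ (wW i hi))) d12
      (fun l hl i hi => hB.rpn _ (m1 l hl) _ (wW i hi))
      (fun l hl i hi => hB.rpn _ (m2 l hl) _ (wW i hi))
    refine key.trans (Pr_mono fun ω _ h => ?_)
    obtain ⟨i, hi, j, hj, h1, h2, h3⟩ := h
    obtain ⟨g1, g2⟩ := blk_of_canon hB.nat hR h1 h2
    refine ⟨mW + i, mE + j, jW i hi, jE j hj, ?_, g1, g2⟩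
    unfold KW
    rw [mem_up]
    exact ⟨fun _ => trivial, fun _ => ⟨hB.mem _ (wW i hi), h3⟩⟩
  · refine (min_le_right a1 a2).trans ?_
    have key := H2 (E.image b) u C.N ((C.N - 8) / 2) τ (nn C.N u) (nums_of hS) z1 z2 _ _ _ _ _ _ _ _
      _ _ _ _ S1 S2 (fun l => b (-l.2, l.1)) (fun l => b (l.1, -l.2)) (fun i => b (rp (mE + i)))
      i1 i2 (fun l hl => mem_image_of_mem b (hB.nat (m1 l hl)))
      (fun l hl => mem_image_of_mem b (hB.nat (m2 l hl)))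
      (fun i hi => mem_image_of_mem b (hB.mem _ (wE i hi))) d12
      (fun l hl i hi => hB.rpn _ (m1 l hl) _ (wE i hi))
      (fun l hl i hi => hB.rpn _ (m2 l hl) _ (wE i hi))
    refine key.trans (Pr_mono fun ω _ h => ?_)
    obtain ⟨i, hi, j, hj, h1, h2, h3⟩ := h
    obtain ⟨g1, g2⟩ := blk_of_canon hB.nat hR h1 h2
    refine ⟨mW + i, mE + j, jW i hi, jE j hj, ?_, g1, g2⟩
    unfold KE
    rw [mem_up]
    exact ⟨fun _ => trivial, fun _ => ⟨hB.mem _ (wE j hj), h3⟩⟩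

end Pool.Agent.H55.W
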