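import Mathlib
import Pool.Agent.H55.W.Chord

set_option autoImplicit false
open Finset

/-! # Route W, W-D, D4: blocking circuits across a chord, arbitrary colours, locality, product over scales

`chord_block` : `KW rp σ` (left plate in the state `σ`), `KE rp σ` (right plate in the state `σ`).
`Ch.W` : labels which decide the block at scale `u`. `chord_dyadic` : no block at the scales `s ≤ u`,
`3 u ≤ r`, with probability at most `(3 s / r)^kap`. -/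

namespace Pool.Agent.H55.W

open Pool.Agent.H75.Perc Pool.Agent.H75.TwoArm Pool.Agent.H75.Four Pool.Agent.H60.Q1
open Pool.Agent.H91.W Pool.Agent.H51.W Pool.Agent.H99.NC
open Pool.Agent.H58.W (up mem_up up_subset PB PB_mono PB_congr PB_restrict PB_nonneg PB_le_one Sep)
open Pool.Agent.H35.W (PB_flip)

variable {β : Type*} [DecidableEq β] {C : Ch} {c : ℤ × ℤ} {R τ u : ℤ} {E : Finset (ℤ × ℤ)}
  {b : ℤ × ℤ → β} {rp : ℤ → ℤ × ℤ} {σ : ℤ → Prop} {K : ℤ → ℤ → Finset (ℤ × ℤ) → Prop}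
  {ω ω' : Finset (ℤ × ℤ)}

/-- change of the configuration on the plates and of the coin condition -/
lemma Blk_change (h : C.Blk c u K ω) {K' : ℤ → ℤ → Finset (ℤ × ℤ) → Prop}
    (h1 : ∀ e ∈ ω, e ∈ C.rU c u → e ∈ ω') (h2 : ∀ e ∈ ω, e ∈ C.rL c u → e ∈ ω')
    (hK : ∀ j i, C.isW c u j → C.isE c u i → K j i ω → K' j i ω') : C.Blk c u K' ω' := by
  obtain ⟨j, i, hj, hi, hk, ⟨p, p', p1, p2, p3⟩, ⟨q, q', q1, q2, q3⟩⟩ := h
  refine ⟨j, i, hj, hi, hK j i hj hi hk, ⟨p, p', p1, p2, p3.mono ?_⟩, ⟨q, q', q1, q2, q3.mono ?_⟩⟩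
  · intro e he
    obtain ⟨k1, k2⟩ := mem_inter.1 he
    exact mem_inter.2 ⟨h1 e k1 k2, k2⟩
  · intro e he
    obtain ⟨k1, k2⟩ := mem_inter.1 he
    exact mem_inter.2 ⟨h2 e k1 k2, k2⟩

open Classical in
/-- the plates which are flipped -/
noncomputable def flS (C : Ch) (c : ℤ × ℤ) (R : ℤ) (E : Finset (ℤ × ℤ)) (b : ℤ × ℤ → β)
    (rp : ℤ → ℤ × ℤ) (σ : ℤ → Prop) : Finset (ℤ × ℤ) :=
  E.filter (fun l => ∃ m, C.Win c R m ∧ ¬ σ m ∧ b l = b (rp m))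

lemma mem_flS {l : ℤ × ℤ} : l ∈ flS C c R E b rp σ ↔
    l ∈ E ∧ ∃ m, C.Win c R m ∧ ¬ σ m ∧ b l = b (rp m) := by
  classical
  unfold flS; rw [mem_filter]

lemma rp_flS (hB : C.OkB c R E b rp) {m : ℤ} (hm : C.Win c R m) :
    rp m ∈ flS C c R E b rp σ ↔ ¬ σ m := by
  rw [mem_flS]
  constructor
  · rintro ⟨-, m', h1, h2, h3⟩
    rw [hB.rpi m m' hm h1 h3]; exact h2
  · intro h
    exact ⟨hB.mem m hm, m, hm, h, rfl⟩

/-- the blocking event has the same law for all prescribed states of the plates -/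
lemma flip_le (hB : C.OkB c R E b rp) (hu : 0 < u) (hR : 30 * u ≤ R)
    {K K' : ℤ → ℤ → Finset (ℤ × ℤ) → Prop}
    (hK : ∀ ω, ω ⊆ E → ∀ j i, C.isW c u j → C.isE c u i → K j i ω →
      K' j i (symmDiff ω (flS C c R E b rp σ))) :
    PB E b (C.Blk c u K) ≤ PB E b (C.Blk c u K') := by
  rw [← PB_flip (F := flS C c R E b rp σ) (fun l hl => (mem_flS.1 hl).1) (fun l hl l' hl' h => by
    obtain ⟨h1, m, h2, h3, h4⟩ := mem_flS.1 hl
    exact mem_flS.2 ⟨hl', m, h2, h3, by rw [← h, h4]⟩) (C.Blk c u K')]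
  refine PB_mono fun ω hω h => ?_
  have hr : ∀ e ∈ ω, e ∈ C.rooms c R → e ∈ symmDiff ω (flS C c R E b rp σ) := by
    intro e he hr
    rw [mem_symmDiff]
    refine Or.inl ⟨he, fun h1 => ?_⟩
    obtain ⟨-, m, h2, -, h4⟩ := mem_flS.1 h1
    exact hB.rpn e hr m h2 h4
  exact Blk_change h (fun e he h1 => hr e he (rU_sub hR hu.le h1))
    (fun e he h1 => hr e he (rL_sub hR hu.le h1)) (hK ω hω)

lemma flip_rp (hB : C.OkB c R E b rp) {m : ℤ} (hm : C.Win c R m)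
    (h : rp m ∈ ω ↔ True) : rp m ∈ symmDiff ω (flS C c R E b rp σ) ↔ σ m := by
  have h1 : rp m ∈ ω := h.2 trivial
  have h2 := rp_flS (σ := σ) hB hm
  rw [mem_symmDiff]
  constructor
  · rintro (⟨-, h3⟩ | ⟨-, h3⟩)
    · by_contra h4
      exact h3 (h2.2 h4)
    · exact absurd h1 h3
  · intro h3
    exact Or.inl ⟨h1, fun h4 => (h2.1 h4) h3⟩

/-- **blocking circuits across a horizontal chord of plates**: natural labels of the two rooms, the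
left plate (`KW`) or the right plate (`KE`) in the prescribed state `σ`. -/
theorem chord_block : ∃ c1 : ℝ, 0 < c1 ∧ c1 ≤ 1 ∧ ∀ {β : Type*} [DecidableEq β] (C : Ch)
    (c : ℤ × ℤ) (R τ : ℤ) (E : Finset (ℤ × ℤ)) (b : ℤ × ℤ → β) (rp : ℤ → ℤ × ℤ), C.Ok c R τ →
    C.OkB c R E b rp → ∀ u : ℤ, 8 * C.N ≤ u → 30 * u ≤ R → ∀ σ : ℤ → Prop,
    c1 ≤ PB E b (C.Blk c u (KW rp σ)) ∧ c1 ≤ PB E b (C.Blk c u (KE rp σ)) := by
  obtain ⟨c1, hc1, H⟩ := chord_open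
  refine ⟨min c1 1, lt_min hc1 one_pos, min_le_right _ _, ?_⟩
  intro β _ C c R τ E b rp hC hB u hu hR σ
  have hN := hC.hN
  have hu0 : 0 < u := by omega
  obtain ⟨h1, h2⟩ := H C c R τ E b rp hC hB u hu hR
  constructor
  · refine (min_le_left _ _).trans (h1.trans (flip_le (σ := σ) hB hu0 hR ?_))
    intro ω hω j i hj hi hk
    exact flip_rp hB (isW_win (by omega) hR hu0 hj) hk
  · refine (min_le_left _ _).trans (h2.trans (flip_le (σ := σ) hB hu0 hR ?_))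
    intro ω hω j i hj hi hk
    exact flip_rp hB (isE_win (by omega) hR hu0 hi) hk

/-! ## Locality -/

/-- the coin condition only depends on the states of the two plates -/
def KLoc (rp : ℤ → ℤ × ℤ) (K : ℤ → ℤ → Finset (ℤ × ℤ) → Prop) : Prop :=
  ∀ j i ω ω', (rp j ∈ ω ↔ rp j ∈ ω') → (rp i ∈ ω ↔ rp i ∈ ω') → K j i ω → K j i ω'

lemma KLoc_W : KLoc rp (KW rp σ) := by
  intro j i ω ω' h1 _ h
  unfold KW at h ⊢
  rw [← h1]; exact h

lemma KLoc_E : KLoc rp (KE rp σ) := by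
  intro j i ω ω' _ h1 h
  unfold KE at h ⊢
  rw [← h1]; exact h

open Classical in
/-- labels which decide the block at scale `u` -/
noncomputable def Ch.W (C : Ch) (c : ℤ × ℤ) (rp : ℤ → ℤ × ℤ) (E : Finset (ℤ × ℤ)) (u : ℤ) :
    Finset (ℤ × ℤ) :=
  E.filter (fun e => e ∈ C.rU c u ∨ e ∈ C.rL c u ∨ ∃ m, (C.isW c u m ∨ C.isE c u m) ∧ e = rp m)

lemma Ch.mem_W {e : ℤ × ℤ} : e ∈ C.W c rp E u ↔
    e ∈ E ∧ (e ∈ C.rU c u ∨ e ∈ C.rL c u ∨ ∃ m, (C.isW c u m ∨ C.isE c u m) ∧ e = rp m) := by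
  classical
  unfold Ch.W; rw [mem_filter]

lemma Ch.W_sub : C.W c rp E u ⊆ E := fun _ h => (Ch.mem_W.1 h).1

/-- the block at scale `u` is decided by the labels `W` -/
theorem Blk_local (hK : KLoc rp K) (hω : ω ⊆ E) :
    C.Blk c u K ω ↔ C.Blk c u K (ω ∩ C.W c rp E u) := by
  have hrp : ∀ m, (C.isW c u m ∨ C.isE c u m) → (rp m ∈ ω ↔ rp m ∈ ω ∩ C.W c rp E u) := by
    intro m hm
    rw [mem_inter, Ch.mem_W]
    constructor
    · intro h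
      exact ⟨h, hω h, Or.inr (Or.inr ⟨m, hm, rfl⟩)⟩
    · exact fun h => h.1
  constructor
  · intro h
    refine Blk_change h (fun e he h1 => ?_) (fun e he h1 => ?_) (fun j i hj hi h1 => ?_)
    · exact mem_inter.2 ⟨he, Ch.mem_W.2 ⟨hω he, Or.inl h1⟩⟩
    · exact mem_inter.2 ⟨he, Ch.mem_W.2 ⟨hω he, Or.inr (Or.inl h1)⟩⟩
    · exact hK j i _ _ (hrp j (Or.inl hj)) (hrp i (Or.inr hi)) h1
  · intro h
    refine Blk_change h (fun e he h1 => (mem_inter.1 he).1) (fun e he h1 => (mem_inter.1 he).1)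
      (fun j i hj hi h1 => ?_)
    exact hK j i _ _ (hrp j (Or.inl hj)).symm (hrp i (Or.inr hi)).symm h1

lemma Rg_disj {u' : ℤ} (h : 3 * u ≤ u') (hu : 0 < u) {e : ℤ × ℤ}
    (h1 : e ∈ Rg c (10 * u - 1) (22 * u)) (h2 : e ∈ Rg c (10 * u' - 1) (22 * u')) : False := by
  rw [mem_Rg] at h1 h2
  exact h2.2 (Pool.Agent.H91.W.BR_mono (by omega) h1.1)

/-- the sets of two separated scales have no common block -/
theorem W_sep (hN : 0 < C.N) (hB : C.OkB c R E b rp) {u' : ℤ} (hu : 0 < u) (h : 3 * u ≤ u')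
    (hR : 30 * u' ≤ R) : Sep b (C.W c rp E u) (C.W c rp E u') := by
  intro e he e' he' hb
  have hR0 : 30 * u ≤ R := by omega
  obtain ⟨h1, h2⟩ := Ch.mem_W.1 he
  obtain ⟨h1', h2'⟩ := Ch.mem_W.1 he'
  have key : ∀ {v : ℤ} {x : ℤ × ℤ}, 0 < v → 30 * v ≤ R → x ∈ E →
      (x ∈ C.rU c v ∨ x ∈ C.rL c v ∨ ∃ m, (C.isW c v m ∨ C.isE c v m) ∧ x = rp m) →
      (x ∈ C.rooms c R ∧ x ∈ Rg c (10 * v - 1) (22 * v)) ∨
        ∃ m, (C.isW c v m ∨ C.isE c v m) ∧ C.Win c R m ∧ x = rp m := by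
    intro v x hv hvR _ hx
    rcases hx with hx | hx | ⟨m, hm, hx⟩
    · exact Or.inl ⟨rU_sub hvR hv.le hx, by unfold Ch.rU at hx; exact (mem_RU.1 hx).1⟩
    · exact Or.inl ⟨rL_sub hvR hv.le hx, by unfold Ch.rL at hx; exact (mem_RL.1 hx).1⟩
    · refine Or.inr ⟨m, hm, ?_, hx⟩
      rcases hm with hm | hm
      · exact isW_win hN hvR hv hm
      · exact isE_win hN hvR hv hm
  rcases key hu hR0 h1 h2 with ⟨k1, k2⟩ | ⟨m, k1, k2, k3⟩ <;>
    rcases key (by omega) hR h1' h2' with ⟨k1', k2'⟩ | ⟨m', k1', k2', k3'⟩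
  · have := hB.inj e k1 e' k1' hb
    rw [← this] at k2'
    exact Rg_disj h hu k2 k2'
  · rw [k3'] at hb
    exact hB.rpn e k1 m' k2' hb
  · rw [k3] at hb
    exact hB.rpn e' k1' m k2 hb.symm
  · rw [k3, k3'] at hb
    have hm := hB.rpi m m' k2 k2' hb
    rw [← hm] at k1'
    have e1 : C.X0 + 2 * C.N * (m + 1) = C.X0 + 2 * C.N * m + 2 * C.N := by ring
    unfold Ch.isW Ch.isE at k1 k1'
    rw [e1] at k1 k1'
    omega

/-- **product over the scales** -/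
theorem chord_dyadic : ∃ kap : ℝ, 0 < kap ∧ ∀ {β : Type*} [DecidableEq β] (C : Ch)
    (c : ℤ × ℤ) (R τ : ℤ) (E : Finset (ℤ × ℤ)) (b : ℤ × ℤ → β) (rp : ℤ → ℤ × ℤ), C.Ok c R τ →
    C.OkB c R E b rp → ∀ s r : ℕ, 8 * C.N ≤ s → s ≤ r → 10 * (r : ℤ) ≤ R → ∀ σ : ℤ → Prop,
    PB E b (fun ω => ∀ u : ℕ, s ≤ u → 3 * u ≤ r → ¬ C.Blk c u (KW rp σ) ω) ≤
      (3 * (s : ℝ) / r) ^ kap ∧
    PB E b (fun ω => ∀ u : ℕ, s ≤ u → 3 * u ≤ r → ¬ C.Blk c u (KE rp σ) ω) ≤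
      (3 * (s : ℝ) / r) ^ kap := by
  obtain ⟨c1, hc1, hc11, H⟩ := chord_block
  refine ⟨dk 3 c1, dk_pos (by norm_num) hc1 hc11, ?_⟩
  intro β _ C c R τ E b rp hC hB s r hs hsr hrR σ
  have hN := hC.hN
  have hs1 : 1 ≤ s := by omega
  have main : ∀ K : ℤ → ℤ → Finset (ℤ × ℤ) → Prop, KLoc rp K →
      (∀ u : ℤ, 8 * C.N ≤ u → 30 * u ≤ R → c1 ≤ PB E b (C.Blk c u K)) →
      PB E b (fun ω => ∀ u : ℕ, s ≤ u → 3 * u ≤ r → ¬ C.Blk c u K ω) ≤
        (3 * (s : ℝ) / r) ^ dk 3 c1 := by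
    intro K hK hp
    have hz := PB_dyadic (b := b) (lam := 3) (by norm_num) hc1 hc11 (E := E) hs1 hsr
      (fun u : ℕ => C.W c rp E u) (fun u : ℕ => C.Blk c u K)
      (fun u h1 h2 => Ch.W_sub)
      (fun u h1 h2 => ?_)
      (fun u u' h1 h2 h3 => W_sep (R := R) (by omega) hB (by omega) (by omega) (by omega))
      (B := fun ω => ∀ u : ℕ, s ≤ u → 3 * u ≤ r → ¬ C.Blk c u K ω)
      (fun ω hω h u h1 h2 h3 => h u h1 h2 ((Blk_local hK hω).2 h3))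
    · exact_mod_cast hz
    · have h3 := hp u (by omega) (by omega)
      rw [← PB_restrict (Ch.W_sub (C := C) (c := c) (rp := rp) (E := E) (u := u)) b (C.Blk c u K)]
      refine h3.trans (le_of_eq (PB_congr fun ω hω => ?_))
      exact Blk_local hK hω
  exact ⟨main _ KLoc_W fun u h1 h2 => (H C c R τ E b rp hC hB u h1 h2 σ).1,
    main _ KLoc_E fun u h1 h2 => (H C c R τ E b rp hC hB u h1 h2 σ).2⟩

end Pool.Agent.H55.W
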