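import Mathlib
import Pool.Agent.H55.W.ChordD

set_option autoImplicit false
open Finset

/-! # Route W, W-D, D4: sufficient conditions for `Ch.Ok`, `Ch.OkB` at the level of cells

`n = 2 h` tiles per cell, a plate has `M` cells (`N = M h`), half thickness `T m` cells, strictly
decreasing to the right, `64 T m + 64 ≤ M`. Each bank may be raised by `0 ≤ dU m, dL m ≤ 1` tile rows. -/

namespace Pool.Agent.H55.W

open Pool.Agent.H75.Perc Pool.Agent.H75.TwoArm Pool.Agent.H75.Four Pool.Agent.H60.Q1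
open Pool.Agent.H91.W Pool.Agent.H51.W Pool.Agent.H99.NC

/-- **geometry of a wedge chord at cell level** -/
theorem Ch.ok_of {C : Ch} {c : ℤ × ℤ} {R h M Y : ℤ} {T dU dL : ℤ → ℤ} (hh : 2 ≤ h)
    (hM : 64 ≤ M) (hN : C.N = M * h)
    (hT : ∀ m m', C.Win c R m → C.Win c R m' → m < m' → T m' + 1 ≤ T m)
    (hT0 : ∀ m, C.Win c R m → 1 ≤ T m ∧ 64 * T m + 64 ≤ M)
    (hdU : ∀ m, C.Win c R m → 0 ≤ dU m ∧ dU m ≤ 1)
    (hdL : ∀ m, C.Win c R m → 0 ≤ dL m ∧ dL m ≤ 1)
    (hTU : ∀ m, C.Win c R m → C.TU m = (Y + T m) * (2 * h) + dU m)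
    (hTL : ∀ m, C.Win c R m → C.TL m = (-Y + T m) * (2 * h) + dL m)
    (hk : |(c.2 - c.1) - Y * (2 * h)| ≤ 1) : ∃ τ, C.Ok c R τ := by
  rw [abs_le] at hk
  -- the thickness
  have hMh : 64 * 2 ≤ M * h := by nlinarith
  refine ⟨(M * h - 16) / 32, ?_, ?_, ?_, ?_, ?_⟩
  · rw [hN]; omega
  · omega
  · rw [hN]; omega
  · have key : ∀ m, C.Win c R m → C.TU m ≤ c.2 - c.1 + (M * h - 16) / 32 := by
      intro m hm
      obtain ⟨h1, h2⟩ := hT0 m hm
      obtain ⟨h3, h4⟩ := hdU m hm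
      rw [hTU m hm]
      have h5 : 32 * (T m * (2 * h)) ≤ (M - 64) * h := by nlinarith
      have h6 : (Y + T m) * (2 * h) = Y * (2 * h) + T m * (2 * h) := by ring
      have h7 : (M - 64) * h = M * h - 64 * h := by ring
      rw [h6]
      rw [h7] at h5
      set a := Y * (2 * h)
      set t := T m * (2 * h)
      set w := M * h
      omega
    refine ⟨?_, key, ?_⟩
    · intro m hm
      obtain ⟨h1, h2⟩ := hT0 m hm
      obtain ⟨h3, h4⟩ := hdU m hm
      rw [hTU m hm]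
      nlinarith
    · intro m m' hm hm' hmm
      rcases hmm.lt_or_eq with h1 | h1
      swap
      · rw [h1]
      have h2 := hT m m' hm hm' h1
      obtain ⟨h3, h4⟩ := hdU m hm
      obtain ⟨h5, h6⟩ := hdU m' hm'
      rw [hTU m hm, hTU m' hm']
      nlinarith
  · have key : ∀ m, C.Win c R m → C.TL m ≤ c.1 - c.2 + (M * h - 16) / 32 := by
      intro m hm
      obtain ⟨h1, h2⟩ := hT0 m hm
      obtain ⟨h3, h4⟩ := hdL m hm
      rw [hTL m hm]
      have h5 : 32 * (T m * (2 * h)) ≤ (M - 64) * h := by nlinarith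
      have h6 : (-Y + T m) * (2 * h) = - (Y * (2 * h)) + T m * (2 * h) := by ring
      have h7 : (M - 64) * h = M * h - 64 * h := by ring
      rw [h6]
      rw [h7] at h5
      set a := Y * (2 * h)
      set t := T m * (2 * h)
      set w := M * h
      omega
    refine ⟨?_, key, ?_⟩
    · intro m hm
      obtain ⟨h1, h2⟩ := hT0 m hm
      obtain ⟨h3, h4⟩ := hdL m hm
      rw [hTL m hm]
      nlinarith
    · intro m m' hm hm' hmm
      rcases hmm.lt_or_eq with h1 | h1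
      swap
      · rw [h1]
      have h2 := hT m m' hm hm' h1
      obtain ⟨h3, h4⟩ := hdL m hm
      obtain ⟨h5, h6⟩ := hdL m' hm'
      rw [hTL m hm, hTL m' hm']
      nlinarith

/-- **coin model**: the labels of the rooms are single blocks, the plate `m` has the block `k m` -/
theorem Ch.okB_of {κ : Type*} {C : Ch} {c : ℤ × ℤ} {R : ℤ} {E : Finset (ℤ × ℤ)}
    {b : ℤ × ℤ → (ℤ × ℤ) ⊕ κ} {rp : ℤ → ℤ × ℤ} {k : ℤ → κ}
    (h1 : C.rooms c R ⊆ E) (h2 : ∀ e ∈ C.rooms c R, b e = Sum.inl e)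
    (h3 : ∀ m, C.Win c R m → rp m ∈ E ∧ b (rp m) = Sum.inr (k m))
    (h4 : ∀ m m', C.Win c R m → C.Win c R m' → k m = k m' → m = m') : C.OkB c R E b rp where
  nat := h1
  inj := by
    intro e he e' he' h
    rw [h2 e he, h2 e' he'] at h
    exact Sum.inl_injective h
  mem := fun m hm => (h3 m hm).1
  rpn := by
    intro e he m hm h
    rw [h2 e he, (h3 m hm).2] at h
    exact Sum.inl_ne_inr h
  rpi := by
    intro m m' hm hm' h
    rw [(h3 m hm).2, (h3 m' hm').2] at h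
    exact h4 m m' hm hm' (Sum.inr_injective h)

end Pool.Agent.H55.W
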