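import Mathlib
import Pool.Agent.H55.W.ChOk
import Pool.Agent.H91.W.Chn

set_option autoImplicit false
open Finset

/-! # Route W, J6: the chord of the junction box as a `Ch`, and the product over scales

`jCh b h dU dL` : plate `m < 0` = plate `i = -1 - m` of 6's chain `chn 0 M τ` at `n = 2 h` tiles per cell,
the upper (lower) bank raised by `dU m` (`dL m`) tile rows, `0 ≤ d ≤ 1`. `jc b h k` : the vertex over the
plate boundary `x = -k M` (cells), row `0`.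
`jCh_ok` : `Ch.Ok`. `jCh_rooms` : labels of the rooms. `jCh_dyadic` : for `8 M ≤ s ≤ r` (cells), `r` small
against the distances to the tip, to the wall and to the ceiling: no block at the scales between `s` and
`r` with probability at most `(3 s / r)^kap`, for every coin model with `Ch.OkB`. -/

namespace Pool.Agent.H55.W

open Pool.Agent.H75.Perc hiding WL CT hh PB
open Pool.Agent.H75.TwoArm Pool.Agent.H75.Four Pool.Agent.H60.Q1 Pool.Agent.H33.Q1
open Pool.Agent.Q1.M4 (Cell)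
open Pool.Agent.H91.W Pool.Agent.H51.W Pool.Agent.H99.NC
open Pool.Agent.H58.W Pool.Agent.H50.W Pool.Agent.H6.W

/-- the chord of the junction box -/
def jCh (b : JBox) (h : ℕ) (dU dL : ℤ → ℤ) : Ch where
  X0 := 0
  N := b.M * h
  TU m := (0 + (b.τ + (-1 - m))) * (2 * h) + dU m
  TL m := (-0 + (b.τ + (-1 - m))) * (2 * h) + dL m

/-- the vertex over the plate boundary `-k M`, row `0` -/
def jc (b : JBox) (h : ℕ) (k : ℕ) : ℤ × ℤ := (-(k * b.M * h : ℤ), -(k * b.M * h : ℤ))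

variable {b : JBox} {δ σ : ℝ} {h k r : ℕ} {dU dL : ℤ → ℤ}

/-- conditions on the window (cells): radius `10 r` -/
structure JWin (b : JBox) (k r : ℕ) : Prop where
  tip : 10 * r ≤ k * b.M
  wall : 10 * r + k * b.M ≤ b.X
  top : 10 * r < b.H

/-- the plates of the window -/
lemma jWin_plate (hb : b.Ok δ σ) (hh : 0 < h) (hw : JWin b k r) {m : ℤ}
    (hm : (jCh b h dU dL).Win (jc b h k) (10 * r * h) m) : m < 0 ∧ -(b.X : ℤ) ≤ m * b.M := by
  have hM : (0 : ℤ) < b.M := by exact_mod_cast hb.M0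
  have hh' : (0 : ℤ) < h := by exact_mod_cast hh
  have h1 : (10 * r : ℤ) ≤ k * b.M := by exact_mod_cast hw.tip
  have h2 : (10 * r + k * b.M : ℤ) ≤ b.X := by exact_mod_cast hw.wall
  obtain ⟨g1, g2⟩ := hm
  unfold jCh jc at g1 g2
  simp only at g1 g2
  obtain ⟨d, hd⟩ := hb.dvd
  have hd' : (b.X : ℤ) = b.M * d := by exact_mod_cast hd
  constructor
  · by_contra h0
    push Not at h0
    have : 0 ≤ (b.M : ℤ) * h * m := by positivity
    nlinarith
  · by_contra h0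
    push Not at h0
    have h3 : m < -(d : ℤ) := by
      rw [hd'] at h0
      by_contra h4
      push Not at h4
      nlinarith
    have h4 : (m + 1) * b.M ≤ -(b.X : ℤ) := by
      rw [hd']
      nlinarith
    have h5 : 2 * ((m + 1) * b.M) * h ≤ 2 * (-(b.X : ℤ)) * h := by nlinarith
    nlinarith

lemma jT (hb : b.Ok δ σ) {m : ℤ} (h1 : m < 0) (h2 : -(b.X : ℤ) ≤ m * b.M) :
    1 ≤ (b.τ : ℤ) + (-1 - m) ∧ 64 * ((b.τ : ℤ) + (-1 - m)) + 64 ≤ b.M := by
  have hM : (0 : ℤ) < b.M := by exact_mod_cast hb.M0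
  have hM' : (0 : ℝ) < b.M := by exact_mod_cast hb.M0
  have hτ : (0 : ℤ) < b.τ := by exact_mod_cast hb.τ0
  obtain ⟨d, hd⟩ := hb.dvd
  have hd' : (b.X : ℤ) = b.M * d := by exact_mod_cast hd
  have h3 : 64 * ((b.τ : ℤ) + d) ≤ b.M := by
    have h4 := hb.τ_le
    have h5 : (b.X : ℝ) / b.M = d := by
      rw [div_eq_iff hM'.ne']
      have : (b.X : ℝ) = b.M * d := by exact_mod_cast hd
      rw [this]; ring
    rw [h5] at h4
    exact_mod_cast h4
  have h6 : -(d : ℤ) ≤ m := by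
    rw [hd'] at h2
    by_contra h7
    push Not at h7
    nlinarith
  omega

/-- **geometry of the chord of the junction box** -/
theorem jCh_ok (hb : b.Ok δ σ) (hh : 2 ≤ h) (hw : JWin b k r)
    (hU : ∀ m, 0 ≤ dU m ∧ dU m ≤ 1) (hL : ∀ m, 0 ≤ dL m ∧ dL m ≤ 1) :
    ∃ τ, (jCh b h dU dL).Ok (jc b h k) (10 * r * h) τ := by
  have hp := fun m hm => jWin_plate (dU := dU) (dL := dL) (m := m) hb (by omega : 0 < h) hw hm
  have hM64 : (64 : ℤ) ≤ b.M := by
    have h4 := hb.τ_le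
    have hτ : (1 : ℝ) ≤ b.τ := by exact_mod_cast hb.τ0
    have h5 : (0 : ℝ) ≤ (b.X : ℝ) / b.M := by positivity
    have : (64 : ℝ) ≤ b.M := by linarith
    exact_mod_cast this
  refine Ch.ok_of (h := h) (M := b.M) (Y := 0) (T := fun m => (b.τ : ℤ) + (-1 - m)) (dU := dU)
    (dL := dL) (by exact_mod_cast hh) hM64 rfl (fun m m' _ _ hmm => by omega)
    (fun m hm => jT hb (hp m hm).1 (hp m hm).2) (fun m _ => hU m) (fun m _ => hL m)
    (fun m _ => rfl) (fun m _ => rfl) ?_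
  unfold jc
  simp

/-- the columns of the window -/
lemma jCh_box (hw : JWin b k r) (hh : 0 < h) {e : ℤ × ℤ}
    (he : e ∈ BR (jc b h k) (10 * r * h)) :
    (e.1 + e.2) % 2 = 1 ∧ -((b.X : ℤ) * (2 * h)) ≤ tX e ∧ tX e < 0 ∧
      -((b.H : ℤ) * (2 * h)) ≤ tY e ∧ tY e < (b.H : ℤ) * (2 * h) := by
  have hh' : (0 : ℤ) < h := by exact_mod_cast hh
  have h1 : (10 * r : ℤ) * h ≤ k * b.M * h := by
    have : (10 * r : ℤ) ≤ k * b.M := by exact_mod_cast hw.tip
    nlinarith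
  have h2 : (10 * r : ℤ) * h + k * b.M * h ≤ b.X * h := by
    have : (10 * r + k * b.M : ℤ) ≤ b.X := by exact_mod_cast hw.wall
    nlinarith
  have h3 : (10 * r : ℤ) * h + h ≤ b.H * h := by
    have : (10 * r + 1 : ℤ) ≤ b.H := by exact_mod_cast hw.top
    nlinarith
  rw [Pool.Agent.H91.W.mem_BR] at he
  unfold jc at he
  simp only at he
  have e1 : (b.X : ℤ) * (2 * h) = 2 * (b.X * h) := by ring
  have e2 : (b.H : ℤ) * (2 * h) = 2 * (b.H * h) := by ring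
  unfold tX tY
  rw [e1, e2]
  refine ⟨he.2.2, ?_, ?_, ?_, ?_⟩ <;> omega

lemma cT_eq (hh : 0 < h) (hM : 0 < b.M) {x : ℤ} (hx : x < 0) :
    cT 0 b.M b.τ (2 * h) x = ((b.τ : ℤ) + (-1 - plx 0 (b.M * h) x)) * (2 * h) := by
  have hM' : (0 : ℤ) < b.M := by exact_mod_cast hM
  have hh' : (0 : ℤ) < h := by exact_mod_cast hh
  have hN : (0 : ℤ) < b.M * h := by positivity
  have h1 := plx_spec (X0 := 0) (N := b.M * h) (x := x) hN
  have h0 : plx 0 (b.M * h) x < 0 := plx_lt hN (by simpa using hx)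
  set m := plx 0 (b.M * h) x with hm
  obtain ⟨i, hi⟩ : ∃ i : ℕ, (i : ℤ) = -1 - m := ⟨(-1 - m).toNat, Int.toNat_of_nonneg (by omega)⟩
  have hT : cT 0 b.M b.τ (2 * h) x = b.τ * (2 * h) + (2 * h) * i := by
    unfold cT
    refine chT_plate (by positivity) (by positivity) ?_ ?_
    · rw [hi]
      have : 0 * (2 * (h : ℤ)) - (-1 - m + 1) * (b.M * (2 * h)) = 0 + 2 * (b.M * h) * m := by ring
      rw [this]; exact h1.1
    · rw [hi]
      have : 0 * (2 * (h : ℤ)) - (-1 - m) * (b.M * (2 * h)) = 0 + 2 * (b.M * h) * (m + 1) := by ring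
      rw [this]; exact h1.2
  rw [hT, hi]
  ring

/-- cells of the window are in the box -/
lemma jCh_mem (hw : JWin b k r) (hh : 0 < h) {e : ℤ × ℤ}
    (he : e ∈ BR (jc b h k) (10 * r * h)) : e ∈ b.B h := by
  obtain ⟨h1, h2, h3, h4, h5⟩ := jCh_box hw hh he
  have hn : (0 : ℤ) < 2 * (h : ℤ) := by positivity
  unfold JBox.B
  rw [mem_TL hn]
  refine ⟨h1, ?_⟩
  unfold JBox.Q
  refine mem_union_left _ ?_
  unfold RC
  rw [mem_product, mem_Ico, mem_Ico, tt_eq]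
  unfold ct
  simp only
  have hX : (0 : ℤ) ≤ b.X := by positivity
  refine ⟨⟨?_, ?_⟩, ?_, ?_⟩
  · rw [Int.le_ediv_iff_mul_le hn]; linarith
  · rw [Int.ediv_lt_iff_lt_mul hn]
    have : (0 : ℤ) ≤ b.X * (2 * h) := by positivity
    linarith
  · rw [Int.le_ediv_iff_mul_le hn]; linarith
  · rw [Int.ediv_lt_iff_lt_mul hn]; linarith

/-- **labels of the rooms**: natural labels of the box, above the raised upper bank or below the raised
lower bank -/
theorem jCh_rooms (hb : b.Ok δ σ) (hw : JWin b k r) (hh : 0 < h)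
    (hU : ∀ m, 0 ≤ dU m ∧ dU m ≤ 1) (hL : ∀ m, 0 ≤ dL m ∧ dL m ≤ 1) {e : ℤ × ℤ}
    (he : e ∈ (jCh b h dU dL).rooms (jc b h k) (10 * r * h)) :
    e ∈ b.B h ∧ tX e < 0 ∧ chn 0 b.M b.τ (ct (2 * h) (tt e)) = none ∧
      (cT 0 b.M b.τ (2 * h) (tX e) + dU (plx 0 (b.M * h) (tX e)) ≤ tY e ∨
        tY e ≤ -1 - cT 0 b.M b.τ (2 * h) (tX e) - dL (plx 0 (b.M * h) (tX e))) := by
  have hn : (0 : ℤ) < 2 * (h : ℤ) := by positivity
  have hM := hb.M0
  unfold Ch.rooms at he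
  rcases mem_union.1 he with h1 | h1
  · obtain ⟨h2, h3⟩ := mem_RU.1 h1
    have h4 := (jCh_box hw hh h2).2.2.1
    have h5 : (jCh b h dU dL).U (tX e) =
        cT 0 b.M b.τ (2 * h) (tX e) + dU (plx 0 (b.M * h) (tX e)) := by
      rw [cT_eq hh hM h4]
      unfold Ch.U jCh
      simp only
      ring
    rw [h5] at h3
    have h6 := (hU (plx 0 (b.M * h) (tX e))).1
    refine ⟨jCh_mem hw hh h2, h4, ((chn_up hn hM).2 (by omega)).1, Or.inl h3⟩
  · obtain ⟨h2, h3⟩ := mem_RL.1 h1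
    have h4 := (jCh_box hw hh h2).2.2.1
    have h5 : (jCh b h dU dL).L (tX e) =
        cT 0 b.M b.τ (2 * h) (tX e) + dL (plx 0 (b.M * h) (tX e)) := by
      rw [cT_eq hh hM h4]
      unfold Ch.L jCh
      simp only
      ring
    rw [h5] at h3
    have h6 := (hL (plx 0 (b.M * h) (tX e))).1
    refine ⟨jCh_mem hw hh h2, h4, ((chn_lo hn hM).2 (by omega)).1, Or.inr (by omega)⟩

/-- **product over the scales, junction box**; `s ≤ r` in cells -/
theorem jCh_dyadic : ∃ kap : ℝ, 0 < kap ∧ ∀ (b : JBox) (δ σ : ℝ), b.Ok δ σ → ∀ (h k s r : ℕ),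
    2 ≤ h → 8 * b.M ≤ s → s ≤ r → JWin b k r → ∀ dU dL : ℤ → ℤ, (∀ m, 0 ≤ dU m ∧ dU m ≤ 1) →
    (∀ m, 0 ≤ dL m ∧ dL m ≤ 1) → ∀ {β : Type*} [DecidableEq β] (E : Finset (ℤ × ℤ))
    (bl : ℤ × ℤ → β) (rp : ℤ → ℤ × ℤ),
    (jCh b h dU dL).OkB (jc b h k) (10 * r * h) E bl rp → ∀ st : ℤ → Prop,
    PB E bl (fun ω => ∀ u : ℕ, s * h ≤ u → 3 * u ≤ r * h →
      ¬ (jCh b h dU dL).Blk (jc b h k) u (KW rp st) ω) ≤ (3 * (s : ℝ) / r) ^ kap ∧
    PB E bl (fun ω => ∀ u : ℕ, s * h ≤ u → 3 * u ≤ r * h →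
      ¬ (jCh b h dU dL).Blk (jc b h k) u (KE rp st) ω) ≤ (3 * (s : ℝ) / r) ^ kap := by
  obtain ⟨kap, hk, H⟩ := chord_dyadic
  refine ⟨kap, hk, ?_⟩
  intro b δ σ hb h k s r hh hs hsr hw dU dL hU hL β _ E bl rp hB st
  obtain ⟨τ, hτ⟩ := jCh_ok hb hh hw hU hL
  have hh0 : (0 : ℝ) < h := by exact_mod_cast (by omega : 0 < h)
  have key := H (jCh b h dU dL) (jc b h k) (10 * r * h) τ E bl rp hτ hB (s * h) (r * h)
    (by
      have : ((8 * b.M : ℕ) : ℤ) ≤ s := by exact_mod_cast hs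
      show 8 * ((b.M : ℤ) * h) ≤ ((s * h : ℕ) : ℤ)
      push_cast at this ⊢
      nlinarith)
    (Nat.mul_le_mul_right h hsr) (by push_cast; ring_nf; exact le_refl _) st
  have e1 : 3 * ((s * h : ℕ) : ℝ) / ((r * h : ℕ) : ℝ) = 3 * (s : ℝ) / r := by
    push_cast
    rw [← mul_assoc, mul_div_mul_right _ _ hh0.ne']
  rw [e1] at key
  exact key

end Pool.Agent.H55.W
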