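import Mathlib
import Pool.Agent.H55.W.JCh

set_option autoImplicit false
open Finset

/-! # Route W, D4 / J6: the block event over many scales, read from the labels outside the ball

`Ch.BlkS s r` : there is a block at some scale `s ≤ u`, `3 u ≤ r`. `blkS_le` : the event read from the
labels `O` only, if `O` contains the labels `C.W c rp E u` of all these scales.
`rect_BR` : a tile rectangle inside the box of a vertex. -/

namespace Pool.Agent.H55.W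

open Pool.Agent.H75.Perc hiding WL CT hh PB
open Pool.Agent.H75.TwoArm Pool.Agent.H75.Four Pool.Agent.H60.Q1
open Pool.Agent.H91.W Pool.Agent.H51.W Pool.Agent.H99.NC
open Pool.Agent.H58.W (up mem_up up_subset PB PB_mono PB_congr PB_restrict PB_nonneg PB_le_one Sep)
open Pool.Agent.H6.W

/-- a block at some scale `s ≤ u`, `3 u ≤ r` -/
def Ch.BlkS (C : Ch) (c : ℤ × ℤ) (K : ℤ → ℤ → Finset (ℤ × ℤ) → Prop) (s r : ℕ)
    (ω : Finset (ℤ × ℤ)) : Prop := ∃ u : ℕ, s ≤ u ∧ 3 * u ≤ r ∧ C.Blk c u K ω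

variable {β : Type*} [DecidableEq β] {C : Ch} {c : ℤ × ℤ} {R τ u : ℤ} {E O : Finset (ℤ × ℤ)}
  {b : ℤ × ℤ → β} {rp : ℤ → ℤ × ℤ} {σ : ℤ → Prop} {K : ℤ → ℤ → Finset (ℤ × ℤ) → Prop}
  {ω : Finset (ℤ × ℤ)} {s r : ℕ}

/-- the block read from `O` -/
lemma Blk_O (hK : KLoc rp K) (hω : ω ⊆ E) (hO : C.W c rp E u ⊆ O) (h : C.Blk c u K ω) :
    C.Blk c u K (ω ∩ O) := by
  have h1 : (ω ∩ O) ∩ C.W c rp E u = ω ∩ C.W c rp E u := by
    rw [inter_assoc, inter_eq_right.2 hO]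
  rw [Blk_local hK (E := E) (inter_subset_left.trans hω), h1]
  exact (Blk_local hK hω).1 h

theorem blkS_le {p : ℝ} (hK : KLoc rp K) (hO : ∀ u : ℕ, s ≤ u → 3 * u ≤ r → C.W c rp E u ⊆ O)
    (h : PB E b (fun ω => ∀ u : ℕ, s ≤ u → 3 * u ≤ r → ¬ C.Blk c u K ω) ≤ p) :
    PB E b (fun ω => ¬ C.BlkS c K s r (ω ∩ O)) ≤ p := by
  refine le_trans (PB_mono fun ω hω h1 u hu hu' h2 => ?_) h
  exact h1 ⟨u, hu, hu', Blk_O hK hω (hO u hu hu') h2⟩

/-- a tile rectangle inside the box of a vertex -/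
lemma rect_BR {A B ρ : ℤ} (h : A + B + 1 ≤ 2 * ρ) {e : ℤ × ℤ} (ho : (e.1 + e.2) % 2 = 1)
    (h1 : |tX e - (c.1 + c.2)| ≤ A) (h2 : |tY e - (c.2 - c.1)| ≤ B) : e ∈ BR c ρ := by
  rw [Pool.Agent.H91.W.mem_BR]
  unfold tX at h1
  unfold tY at h2
  rw [abs_le] at h1 h2
  omega

/-- labels of the rooms at scale `u` are outside the box of radius `10 u - 1` -/
lemma rU_out {e : ℤ × ℤ} (he : e ∈ C.rU c u) : e ∉ BR c (10 * u - 1) := by
  unfold Ch.rU at he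
  exact (mem_Rg.1 (mem_RU.1 he).1).2

lemma rL_out {e : ℤ × ℤ} (he : e ∈ C.rL c u) : e ∉ BR c (10 * u - 1) := by
  unfold Ch.rL at he
  exact (mem_Rg.1 (mem_RL.1 he).1).2

/-- the plates at scale `u` are at least `28 u` columns away -/
lemma isWE_out {m : ℤ} (hm : C.isW c u m ∨ C.isE c u m) {x : ℤ}
    (hx : C.X0 + 2 * C.N * m ≤ x) (hx' : x < C.X0 + 2 * C.N * (m + 1)) :
    28 * u ≤ |x - (c.1 + c.2)| ∨ u ≤ 0 := by
  rcases le_or_gt u 0 with h | h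
  · exact Or.inr h
  refine Or.inl ?_
  have e1 : C.X0 + 2 * C.N * (m + 1) = C.X0 + 2 * C.N * m + 2 * C.N := by ring
  rw [le_abs]
  unfold Ch.isW Ch.isE at hm
  rcases hm with hm | hm
  · right
    omega
  · left
    omega

/-- **the labels which decide a scale are outside a ball**: it is enough that `O` contains the labels
of the rooms outside the box `BR c ρ` and the labels `rp m` of the plates `m` at distance `≥ ρ'` -/
lemma W_sub_O {ρ ρ' : ℤ} (hR : 30 * u ≤ R) (hu : 0 < u) (hρ : ρ ≤ 10 * u - 1) (hρ' : ρ' ≤ 28 * u)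
    (h1 : ∀ e ∈ C.rooms c R, e ∉ BR c ρ → e ∈ O)
    (h2 : ∀ m, C.X0 + 2 * C.N * (m + 1) ≤ c.1 + c.2 - ρ' ∨ c.1 + c.2 + ρ' ≤ C.X0 + 2 * C.N * m →
      C.Win c R m → rp m ∈ O) (hN : 0 < C.N) : C.W c rp E u ⊆ O := by
  intro e he
  obtain ⟨-, h3⟩ := Ch.mem_W.1 he
  rcases h3 with h3 | h3 | ⟨m, hm, rfl⟩
  · exact h1 e (rU_sub hR hu.le h3) fun h4 => rU_out h3 (Pool.Agent.H91.W.BR_mono hρ h4)
  · exact h1 e (rL_sub hR hu.le h3) fun h4 => rL_out h3 (Pool.Agent.H91.W.BR_mono hρ h4)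
  · rcases hm with hm | hm
    · refine h2 m (Or.inl ?_) (isW_win hN hR hu hm)
      unfold Ch.isW at hm
      omega
    · refine h2 m (Or.inr ?_) (isE_win hN hR hu hm)
      unfold Ch.isE at hm
      omega

/-- **junction box, final form**: `O` contains the room labels outside `BR (jc b h k) (9 s h)` and the
labels `rp m` of the plates at distance at least `28 s h` columns. -/
theorem jCh_final : ∃ kap : ℝ, 0 < kap ∧ ∀ (b : JBox) (δ σ : ℝ), b.Ok δ σ → ∀ (h k s r : ℕ),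
    2 ≤ h → 8 * b.M ≤ s → s ≤ r → JWin b k r → ∀ dU dL : ℤ → ℤ, (∀ m, 0 ≤ dU m ∧ dU m ≤ 1) →
    (∀ m, 0 ≤ dL m ∧ dL m ≤ 1) → ∀ {β : Type*} [DecidableEq β] (E O : Finset (ℤ × ℤ))
    (bl : ℤ × ℤ → β) (rp : ℤ → ℤ × ℤ),
    (jCh b h dU dL).OkB (jc b h k) (10 * r * h) E bl rp →
    (∀ e ∈ (jCh b h dU dL).rooms (jc b h k) (10 * r * h), e ∉ BR (jc b h k) (9 * s * h) → e ∈ O) →
    (∀ m : ℤ, 2 * ((b.M : ℤ) * h) * (m + 1) ≤ -(2 * ((k : ℤ) * b.M * h)) - 28 * s * h ∨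
      -(2 * ((k : ℤ) * b.M * h)) + 28 * s * h ≤ 2 * ((b.M : ℤ) * h) * m →
      (jCh b h dU dL).Win (jc b h k) (10 * r * h) m → rp m ∈ O) →
    ∀ st : ℤ → Prop,
    PB E bl (fun ω => ¬ (jCh b h dU dL).BlkS (jc b h k) (KW rp st) (s * h) (r * h) (ω ∩ O)) ≤
      (3 * (s : ℝ) / r) ^ kap ∧
    PB E bl (fun ω => ¬ (jCh b h dU dL).BlkS (jc b h k) (KE rp st) (s * h) (r * h) (ω ∩ O)) ≤
      (3 * (s : ℝ) / r) ^ kap := by
  obtain ⟨kap, hk, H⟩ := jCh_dyadic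
  refine ⟨kap, hk, ?_⟩
  intro b δ σ hb h k s r hh hs hsr hw dU dL hU hL β _ E O bl rp hB hO1 hO2 st
  obtain ⟨g1, g2⟩ := H b δ σ hb h k s r hh hs hsr hw dU dL hU hL E bl rp hB st
  have hM : (0 : ℤ) < b.M := by exact_mod_cast hb.M0
  have hh' : (0 : ℤ) < h := by exact_mod_cast (by omega : 0 < h)
  have hN : 0 < (jCh b h dU dL).N := by
    show (0 : ℤ) < b.M * h
    positivity
  have hs1 : 1 ≤ s := by have := hb.M0; omega
  have hO : ∀ u : ℕ, s * h ≤ u → 3 * u ≤ r * h →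
      (jCh b h dU dL).W (jc b h k) rp E u ⊆ O := by
    intro u hu hu'
    have a1 : (s * h : ℤ) ≤ u := by exact_mod_cast hu
    have a2 : (3 * u : ℤ) ≤ r * h := by exact_mod_cast hu'
    have a3 : (1 : ℤ) ≤ s * h := by
      have : (1 : ℤ) ≤ s := by exact_mod_cast hs1
      nlinarith
    refine W_sub_O (R := 10 * r * h) (ρ := 9 * s * h) (ρ' := 28 * s * h) (by nlinarith) (by omega)
      (by nlinarith) (by nlinarith) hO1 (fun m hm hw' => hO2 m ?_ hw') hN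
    have e1 : (jCh b h dU dL).X0 + 2 * (jCh b h dU dL).N * (m + 1) =
      2 * ((b.M : ℤ) * h) * (m + 1) := by unfold jCh; simp only; ring
    have e2 : (jCh b h dU dL).X0 + 2 * (jCh b h dU dL).N * m =
      2 * ((b.M : ℤ) * h) * m := by unfold jCh; simp only; ring
    have e3 : (jc b h k).1 + (jc b h k).2 = -(2 * ((k : ℤ) * b.M * h)) := by unfold jc; simp only; ring
    rw [e1, e2, e3] at hm
    exact hm
  exact ⟨blkS_le KLoc_W hO g1, blkS_le KLoc_E hO g2⟩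

end Pool.Agent.H55.W
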