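import Mathlib
import Pool.Agent.H55.W.BlkS

set_option autoImplicit false
open Finset

/-! # Route W, D4 / J6: the coin condition with whole plates

`KFull O b rp K` : `K` and all labels of `O` in the plates `j`, `i` have the state of `rp j`, `rp i`.
Needed since the field `blk` of 82's `Half` speaks about all configurations of the labels.
`blkFull_le` : the same probability. -/

namespace Pool.Agent.H55.W

open Pool.Agent.H75.Perc hiding WL CT hh PB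
open Pool.Agent.H75.TwoArm Pool.Agent.H75.Four Pool.Agent.H60.Q1
open Pool.Agent.H91.W Pool.Agent.H51.W Pool.Agent.H99.NC
open Pool.Agent.H58.W (up mem_up up_subset PB PB_mono PB_congr PB_restrict PB_nonneg PB_le_one Sep)

variable {β : Type*} [DecidableEq β]

/-- the coin condition and whole plates -/
def KFull (O : Finset (ℤ × ℤ)) (b : ℤ × ℤ → β) (rp : ℤ → ℤ × ℤ)
    (K : ℤ → ℤ → Finset (ℤ × ℤ) → Prop) (j i : ℤ) (ω : Finset (ℤ × ℤ)) : Prop :=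
  K j i ω ∧ (∀ e ∈ O, b e = b (rp j) → (e ∈ ω ↔ rp j ∈ ω)) ∧
    (∀ e ∈ O, b e = b (rp i) → (e ∈ ω ↔ rp i ∈ ω))

variable {C : Ch} {c : ℤ × ℤ} {R τ u : ℤ} {E O : Finset (ℤ × ℤ)}
  {b : ℤ × ℤ → β} {rp : ℤ → ℤ × ℤ} {K : ℤ → ℤ → Finset (ℤ × ℤ) → Prop}
  {s r : ℕ}

/-- monotonicity of coin models on the configurations of coins -/
lemma PB_mono' {A B : Finset (ℤ × ℤ) → Prop}
    (h : ∀ ω : Finset β, A (up E b ω) → B (up E b ω)) : PB E b A ≤ PB E b B :=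
  Pr_mono fun ω _ h1 => h ω h1

theorem blkFull_le (hO : O ⊆ E)
    (h : ∀ u : ℕ, s ≤ u → 3 * u ≤ r → ∀ m, (C.isW c u m ∨ C.isE c u m) → rp m ∈ O) :
    PB E b (fun ω => ¬ C.BlkS c (KFull O b rp K) s r (ω ∩ O)) ≤
      PB E b (fun ω => ¬ C.BlkS c K s r (ω ∩ O)) := by
  refine PB_mono' fun ω h1 h2 => h1 ?_
  obtain ⟨u, hu, hu', h3⟩ := h2
  refine ⟨u, hu, hu', Blk_change h3 (fun _ h _ => h) (fun _ h _ => h) fun j i hj hi hK => ⟨hK, ?_, ?_⟩⟩
  · intro e he hb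
    have hj' := h u hu hu' j (Or.inl hj)
    rw [mem_inter, mem_inter, mem_up, mem_up, hb]
    exact ⟨fun g => ⟨⟨hO hj', g.1.2⟩, hj'⟩, fun g => ⟨⟨hO he, g.1.2⟩, he⟩⟩
  · intro e he hb
    have hi' := h u hu hu' i (Or.inr hi)
    rw [mem_inter, mem_inter, mem_up, mem_up, hb]
    exact ⟨fun g => ⟨⟨hO hi', g.1.2⟩, hi'⟩, fun g => ⟨⟨hO he, g.1.2⟩, he⟩⟩

end Pool.Agent.H55.W
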