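import Mathlib
import Pool.Agent.H55.W.BlkS
import Pool.Agent.H71.W.J6C

set_option autoImplicit false
open Finset

/-! # Route W, J6: probability of the block in 71's canonical world `WB`

`dUk k` : the upper bank is raised right of `xs = -k M n`. `rpJ b h m` = bottom left label of plate
`i = -1 - m`. `okB_WB` : `Ch.OkB`. `rpJ_F` : the flipped part contains `rpJ`.
`jWB_block` : `P_WB (no block between s and r, read from O) ≤ (3 s / r)^kap`. -/

namespace Pool.Agent.H55.W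

open Pool.Agent.H75.Perc hiding WL CT hh PB
open Pool.Agent.H75.TwoArm Pool.Agent.H75.Four Pool.Agent.H60.Q1
open Pool.Agent.H91.W Pool.Agent.H51.W Pool.Agent.H99.NC
open Pool.Agent.H58.W (up mem_up up_subset PB PB_mono PB_congr PB_restrict PB_nonneg PB_le_one Sep)
open Pool.Agent.H6.W Pool.Agent.H71.W Pool.Agent.H61.W Pool.Agent.H82.W
open Pool.Agent.H33.Q1 (lt tt TL ct mem_TL lt_odd)
open Pool.Agent.H19.W (cx cy lt_cc cx_lt cy_lt)

/-- raised banks right of `-k M` -/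
def dUk (k : ℕ) (m : ℤ) : ℤ := if -(k : ℤ) ≤ m then 1 else 0

lemma dUk_bd (k : ℕ) (m : ℤ) : 0 ≤ dUk k m ∧ dUk k m ≤ 1 := by
  unfold dUk; split_ifs <;> omega

/-- a label of the plate `i = -1 - m`: the bottom left corner -/
def rpJ (b : JBox) (h : ℕ) (m : ℤ) : ℤ × ℤ :=
  lt (m * b.M * (2 * h), -(((b.τ : ℤ) + (-1 - m)) * (2 * h)))

variable {b : JBox} {δ σ : ℝ} {h k r : ℕ}

lemma plx_neg {N x : ℤ} (hN : 0 < N) {m : ℤ} (h1 : 2 * N * m ≤ x) (h2 : x < 2 * N * (m + 1)) :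
    plx 0 N x = m := by
  have g1 := plx_le (X0 := 0) (N := N) (x := x) (m := m) hN (by simpa using h1)
  have g2 := plx_lt (X0 := 0) (N := N) (x := x) (m := m + 1) hN (by simpa using h2)
  omega

/-- plates of the window: index and position -/
lemma jWin_idx (hb : b.Ok δ σ) (hh : 0 < h) (hw : JWin b k r) (hP : 10 * r + b.m * b.M ≤ k * b.M)
    {dU dL : ℤ → ℤ} {m : ℤ}
    (hm : (jCh b h dU dL).Win (jc b h k) (10 * r * h) m) :
    ∃ i : ℕ, (i : ℤ) = -1 - m ∧ b.m ≤ i ∧ -(b.X : ℤ) ≤ m * b.M ∧ m < 0 := by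
  obtain ⟨h1, h2⟩ := jWin_plate hb hh hw hm
  have hM : (0 : ℤ) < b.M := by exact_mod_cast hb.M0
  have hh' : (0 : ℤ) < h := by exact_mod_cast hh
  refine ⟨(-1 - m).toNat, Int.toNat_of_nonneg (by omega), ?_, h2, h1⟩
  have h3 : (b.m : ℤ) ≤ -1 - m := by
    obtain ⟨-, g2⟩ := hm
    unfold jCh jc at g2
    simp only at g2
    have h4 : (10 * r + b.m * b.M : ℤ) ≤ k * b.M := by exact_mod_cast hP
    by_contra h5
    push Not at h5
    have h6 : -(b.m : ℤ) ≤ m := by omega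
    have h7 : -(b.m : ℤ) * (b.M * h) ≤ m * (b.M * h) := by
      have : (0 : ℤ) ≤ b.M * h := by positivity
      nlinarith
    nlinarith
  omega

lemma rpJ_cx (m : ℤ) : cx (rpJ b h m) = m * b.M * (2 * h) := cx_lt _

lemma rpJ_cy (m : ℤ) : cy (rpJ b h m) = -(((b.τ : ℤ) + (-1 - m)) * (2 * h)) := cy_lt _

lemma rpJ_odd (m : ℤ) : ((rpJ b h m).1 + (rpJ b h m).2) % 2 = 1 := lt_odd _

/-- the plate of `rpJ` -/
lemma rpJ_chn (hM : 0 < b.M) (hτ : 0 < b.τ) (hh : 0 < h) {m : ℤ} {i : ℕ} (hi : (i : ℤ) = -1 - m) :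
    chn 0 b.M b.τ (cx (rpJ b h m) / (2 * h : ℤ), cy (rpJ b h m) / (2 * h : ℤ)) = some i := by
  have hn : (0 : ℤ) < 2 * h := by positivity
  rw [chn_tile hM hn, rpJ_cx, rpJ_cy]
  have hM' : (0 : ℤ) < b.M := by exact_mod_cast hM
  have hMn : (0 : ℤ) < b.M * (2 * h) := by positivity
  have hm : m = -1 - i := by omega
  rw [hm]
  refine ⟨⟨by nlinarith, by nlinarith⟩, ?_, ?_⟩
  · have : (-1 : ℤ) - (-1 - i) = i := by ring
    rw [this]
  · have e : (-1 : ℤ) - (-1 - i) = i := by ring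
    rw [e]
    have : (0 : ℤ) < ((b.τ : ℤ) + i) * (2 * h) := by positivity
    linarith

lemma rpJ_rpl (hM : 0 < b.M) (hτ : 0 < b.τ) (hh : 0 < h) {xs : ℤ} {m : ℤ} {i : ℕ}
    (hi : (i : ℤ) = -1 - m) : rpl b (2 * h) xs (rpJ b h m) = some i :=
  chn_rch hM (by positivity) (rpJ_chn hM hτ hh hi)

/-- `rpJ` is in the box -/
lemma rpJ_B (hb : b.Ok δ σ) (hh : 0 < h) {m : ℤ} (h1 : m < 0) (h2 : -(b.X : ℤ) ≤ m * b.M)
    (hH : (b.τ : ℤ) + (-1 - m) ≤ b.H) : rpJ b h m ∈ b.B h := by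
  have hn : (0 : ℤ) < 2 * h := by positivity
  have hM : (0 : ℤ) < b.M := by exact_mod_cast hb.M0
  have hτ : (0 : ℤ) < b.τ := by exact_mod_cast hb.τ0
  have hH0 : (0 : ℤ) < b.H := by exact_mod_cast hb.H0
  have hX0 : (0 : ℤ) ≤ b.X := by positivity
  rw [mem_B hh]
  refine ⟨rpJ_odd m, ?_⟩
  rw [rpJ_cx, rpJ_cy, InQ_band hb hn (by nlinarith) (by nlinarith)]
  constructor
  · nlinarith
  · have h3 : m * b.M < 0 := mul_neg_of_neg_of_pos h1 hM
    have : m * b.M * (2 * (h : ℤ)) < 0 := mul_neg_of_neg_of_pos h3 hn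
    have h4 : (0 : ℤ) ≤ b.X * (2 * h) := by positivity
    linarith

/-- **coin model of `WB`** -/
theorem okB_WB (hb : b.Ok δ σ) (hh : 0 < h) (hw : JWin b k r)
    (hP : 10 * r + b.m * b.M ≤ k * b.M) (hδ : δ ≤ 1) (M : Finset (Bool × ℕ))
    (L : Finset (ℤ × ℤ)) (o s : Bool) (x1 y0 Yd : ℤ) :
    (jCh b h (dUk k) fun _ => 0).OkB (jc b h k) (10 * r * h)
      (WB b h M L o s x1 y0 (-(k * b.M * (2 * h))) Yd).E
      (WB b h M L o s x1 y0 (-(k * b.M * (2 * h))) Yd).b (rpJ b h) := by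
  classical
  have hn : (0 : ℤ) < 2 * h := by positivity
  have hM := hb.M0
  have hM' : (0 : ℤ) < b.M := by exact_mod_cast hM
  have hh' : (0 : ℤ) < h := by exact_mod_cast hh
  -- thickness
  have hthk : ∀ m : ℤ, m < 0 → -(b.X : ℤ) ≤ m * b.M → (b.τ : ℤ) + (-1 - m) ≤ b.H := by
    intro m h1 h2
    have h3 := (jT hb h1 h2).2
    have h4 : (b.M : ℝ) ≤ b.H := by
      have h5 := hb.M_le
      have h6 : (0 : ℝ) ≤ b.H := by positivity
      nlinarith
    have h5 : (b.M : ℤ) ≤ b.H := by exact_mod_cast h4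
    omega
  -- labels of the rooms are natural
  have hnat : ∀ e ∈ (jCh b h (dUk k) fun _ => 0).rooms (jc b h k) (10 * r * h),
      e ∈ b.B h ∧ rpl b (2 * h) (-(k * b.M * (2 * h))) e = none := by
    intro e he
    obtain ⟨g1, g2, g3, g4⟩ := jCh_rooms hb hw hh (dUk_bd k) (fun _ => ⟨le_refl _, by norm_num⟩) he
    refine ⟨g1, ?_⟩
    have g2' : cx e < 0 := g2
    rcases hr : rpl b (2 * h) (-(k * b.M * (2 * h))) e with _ | i
    · rfl
    exfalso
    unfold rpl at hr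
    rw [rch_some hM hn] at hr
    obtain ⟨⟨k1, k2⟩, k3, k4⟩ := hr
    rcases k4 with k4 | ⟨k4, k5⟩
    · have h5 : chn 0 b.M b.τ (cx e / (2 * h : ℤ), cy e / (2 * h : ℤ)) = some i :=
        (chn_tile hM hn).2 ⟨⟨k1, k2⟩, k3, k4⟩
      have h6 : chn 0 b.M b.τ (ct (2 * h) (tt e)) = some i := h5
      rw [g3] at h6
      exact absurd h6 (by simp)
    · -- the added row
      have hp : plx 0 (b.M * h) (tX e) = -1 - i := by
        refine plx_neg (by positivity) ?_ ?_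
        · have : (2 : ℤ) * (b.M * h) * (-1 - i) = -((i + 1) * b.M * (2 * h)) := by ring
          rw [this]; exact k1
        · have : (2 : ℤ) * (b.M * h) * (-1 - i + 1) = -(i * b.M * (2 * h)) := by ring
          rw [this]; exact k2
      have hc : cT 0 b.M b.τ (2 * h) (tX e) = ((b.τ : ℤ) + i) * (2 * h) := by
        rw [cT_eq hh hM g2, hp]; ring
      have hd : dUk k (plx 0 (b.M * h) (tX e)) = 1 := by
        rw [hp]
        unfold dUk
        rw [if_pos]
        have h7 : -((k : ℤ) * b.M * (2 * h)) < -(i * b.M * (2 * h)) := lt_of_le_of_lt k4 k2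
        have h8 : (i : ℤ) * (b.M * (2 * h)) < k * (b.M * (2 * h)) := by nlinarith
        have h9 : (i : ℤ) < k := lt_of_mul_lt_mul_right h8 (by positivity)
        omega
      have hty : tY e = ((b.τ : ℤ) + i) * (2 * h) := k5
      rw [hc, hd] at g4
      have hpos : (0 : ℤ) ≤ ((b.τ : ℤ) + i) * (2 * h) := by positivity
      rw [hty] at g4
      omega
  refine Ch.okB_of (k := fun m => (-1 - m).toNat) ?_ ?_ ?_ ?_
  · intro e he
    obtain ⟨g1, g2⟩ := hnat e he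
    show e ∈ (b.B h).filter _
    rw [mem_filter]
    refine ⟨g1, ?_⟩
    rintro ⟨i, -, h1⟩
    rw [g2] at h1
    exact absurd h1 (by simp)
  · intro e he
    exact blk_none (hnat e he).2
  · intro m hm
    obtain ⟨i, hi, him, hX, hm0⟩ := jWin_idx hb hh hw hP hm
    have h1 := rpJ_rpl (xs := -(k * b.M * (2 * h) : ℤ)) hM hb.τ0 hh hi
    refine ⟨?_, ?_⟩
    · show rpJ b h m ∈ (b.B h).filter _
      rw [mem_filter]
      refine ⟨rpJ_B hb hh hm0 hX (hthk m hm0 hX), ?_⟩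
      rintro ⟨j, hj, h2⟩
      rw [h1, Option.some.injEq] at h2
      omega
    · show blk (rpl b (2 * h) (-(k * b.M * (2 * h)))) (rpJ b h m) = _
      rw [blk_some h1]
      congr 1
      omega
  · intro m m' hm hm' hmm
    obtain ⟨i, hi, -, -, hm0⟩ := jWin_idx hb hh hw hP hm
    obtain ⟨i', hi', -, -, hm0'⟩ := jWin_idx hb hh hw hP hm'
    have hmm' : (-1 - m).toNat = (-1 - m').toNat := hmm
    omega

/-- **probability of the block in the canonical world** of 71's `J6B`: `c = jc b h k` is the vertex over the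
plate boundary `xs = -k M n`; `O` contains the labels of `E` outside the block rectangle and the deleted
rows. `KW` : the left plate is open (X worlds), `KE` : the right plate has the state `s` (Y worlds). -/
theorem jWB_block : ∃ kap : ℝ, 0 < kap ∧ ∀ (b : JBox) (δ σ : ℝ), b.Ok δ σ → δ ≤ 1 →
    ∀ (h k s r : ℕ), 2 ≤ h → 8 * b.M ≤ s → s ≤ r → JWin b k r → 10 * r + b.m * b.M ≤ k * b.M →
    ∀ (M : Finset (Bool × ℕ)) (L : Finset (ℤ × ℤ)) (o t : Bool) (x1 y0 Yd xl xe ρ A : ℤ),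
    -(b.τ * (2 * h) : ℤ) < y0 → y0 < b.τ * (2 * h) → -(b.τ * (2 * h) : ℤ) < Yd →
    Yd < b.τ * (2 * h) → -(k * b.M * (2 * h) : ℤ) - A ≤ xl → xe ≤ -(k * b.M * (2 * h) : ℤ) + A →
    A + ρ + 1 ≤ 18 * s * h → 0 ≤ ρ → ∀ O : Finset (ℤ × ℤ),
    (∀ e ∈ (WB b h M L o t x1 y0 (-(k * b.M * (2 * h))) Yd).E, e ∉ Bk xl xe ρ →
      e ∉ (WB b h M L o t x1 y0 (-(k * b.M * (2 * h))) Yd).D → e ∈ O) → ∀ st : ℤ → Prop,
    PB (WB b h M L o t x1 y0 (-(k * b.M * (2 * h))) Yd).E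
        (WB b h M L o t x1 y0 (-(k * b.M * (2 * h))) Yd).b
        (fun ω => ¬ (jCh b h (dUk k) fun _ => 0).BlkS (jc b h k) (KW (rpJ b h) st) (s * h) (r * h)
          (ω ∩ O)) ≤ (3 * (s : ℝ) / r) ^ kap ∧
    PB (WB b h M L o t x1 y0 (-(k * b.M * (2 * h))) Yd).E
        (WB b h M L o t x1 y0 (-(k * b.M * (2 * h))) Yd).b
        (fun ω => ¬ (jCh b h (dUk k) fun _ => 0).BlkS (jc b h k) (KE (rpJ b h) st) (s * h) (r * h)
          (ω ∩ O)) ≤ (3 * (s : ℝ) / r) ^ kap := by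
  obtain ⟨kap, hk, H⟩ := jCh_final
  refine ⟨kap, hk, ?_⟩
  intro b δ σ hb hδ h k s r hh hs hsr hw hP M L o t x1 y0 Yd xl xe ρ A y1 y2 Y1 Y2 hxl hxe hA hρ O hO'
    st
  have hO : ∀ e ∈ (WB b h M L o t x1 y0 (-(k * b.M * (2 * h))) Yd).E, e ∉ Bk xl xe ρ →
      cy e ≠ y0 → cy e ≠ Yd → e ∈ O := by
    intro e he h1 h2 h3
    refine hO' e he h1 ?_
    have he' : e ∈ (b.B h).filter _ := he
    rw [mem_DB ((mem_B (by omega)).1 (mem_filter.1 he').1).1]
    rintro (g | g)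
    · exact h3 g.1
    · exact h2 g.1
  have hh0 : 0 < h := by omega
  have hM' : (0 : ℤ) < b.M := by exact_mod_cast hb.M0
  have hh' : (0 : ℤ) < h := by exact_mod_cast hh0
  have hB := okB_WB hb hh0 hw hP hδ M L o t x1 y0 Yd
  refine H b δ σ hb h k s r hh hs hsr hw (dUk k) (fun _ => 0) (dUk_bd k)
    (fun _ => ⟨le_refl _, by norm_num⟩) _ O _ (rpJ b h) hB ?_ ?_ st
  · intro e he heB
    have g0 := hB.nat he
    obtain ⟨g1, g2, g3, g4⟩ := jCh_rooms hb hw hh0 (dUk_bd k)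
      (fun _ => ⟨le_refl _, by norm_num⟩) he
    have ho : (e.1 + e.2) % 2 = 1 := ((mem_B hh0).1 g1).1
    have hd := (dUk_bd k (plx 0 (b.M * h) (tX e))).1
    have hc : (b.τ : ℤ) * (2 * h) ≤ cT 0 b.M b.τ (2 * h) (tX e) := by
      rw [cT_eq hh0 hb.M0 g2]
      have hN : (0 : ℤ) < b.M * h := by positivity
      have := plx_lt (X0 := 0) (N := b.M * h) (x := tX e) (m := 0) hN (by simpa using g2)
      nlinarith
    refine hO e g0 ?_ ?_ ?_
    · intro hbk
      obtain ⟨⟨k1, k2⟩, k3, k4⟩ := hbk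
      have k1' : xl ≤ tX e := k1
      have k2' : tX e < xe := k2
      have k3' : -ρ ≤ tY e := k3
      have k4' : tY e < ρ := k4
      refine heB (rect_BR (A := A) (B := ρ) (by push_cast at hA ⊢; linarith) ho ?_ ?_)
      · have e3 : (jc b h k).1 + (jc b h k).2 = -((k : ℤ) * b.M * (2 * h)) := by
          unfold jc; simp only; ring
        rw [e3, abs_le]
        constructor <;> linarith
      · have e3 : (jc b h k).2 - (jc b h k).1 = 0 := by unfold jc; simp only; ring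
        rw [e3, sub_zero, abs_le]
        constructor <;> linarith
    · intro h1
      have h1' : tY e = y0 := h1
      rcases g4 with g4 | g4 <;> linarith
    · intro h1
      have h1' : tY e = Yd := h1
      rcases g4 with g4 | g4 <;> linarith
  · intro m hm hwm
    obtain ⟨i, hi, him, hX, hm0⟩ := jWin_idx hb hh0 hw hP hwm
    have hsh : (8 * b.M : ℤ) * h ≤ s * h := by
      have : (8 * b.M : ℤ) ≤ s := by exact_mod_cast hs
      nlinarith
    have hMh : (1 : ℤ) ≤ b.M * h := by nlinarith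
    have hcx := rpJ_cx (b := b) (h := h) m
    have hcy := rpJ_cy (b := b) (h := h) m
    refine hO _ (hB.mem m hwm) ?_ ?_ ?_
    · intro hbk
      obtain ⟨⟨k1, k2⟩, -⟩ := hbk
      rw [hcx] at k1 k2
      have e1 : m * b.M * (2 * (h : ℤ)) = 2 * ((b.M : ℤ) * h) * m := by ring
      have e2 : 2 * ((b.M : ℤ) * h) * (m + 1) = 2 * ((b.M : ℤ) * h) * m + 2 * (b.M * h) := by ring
      have e3 : (k * b.M * (2 * h) : ℤ) = 2 * ((k : ℤ) * b.M * h) := by ring
      rw [e1] at k1 k2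
      rw [e3] at hxl hxe
      rw [e2] at hm
      have hA' : A + ρ + 1 ≤ 18 * (s * h : ℤ) := by linarith
      rcases hm with hm | hm
      · linarith
      · linarith
    · rw [hcy]
      intro h1
      have : ((b.τ : ℤ) + (-1 - m)) * (2 * h) = b.τ * (2 * h) + i * (2 * h) := by rw [← hi]; ring
      have h2 : (0 : ℤ) ≤ i * (2 * h) := by positivity
      linarith
    · rw [hcy]
      intro h1
      have : ((b.τ : ℤ) + (-1 - m)) * (2 * h) = b.τ * (2 * h) + i * (2 * h) := by rw [← hi]; ring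
      have h2 : (0 : ℤ) ≤ i * (2 * h) := by positivity
      linarith

end Pool.Agent.H55.W
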