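import Mathlib
import Pool.Agent.H55.W.BlkK
import Pool.Agent.H55.W.JWB
import Pool.Agent.H71.W.J6G
import Pool.Agent.H99.W.BlkXY

set_option autoImplicit false
open Finset

/-! # Route W, J6: field `blk` of 82's `Half` for the canonical world `WB` of the junction box

`JB` : numerical hypotheses; `n = 2 h`, string from `xs = -k M n`, block rectangle within `A` columns of `xs`,
`A + ρ + 6 ≤ 18 s h`, window radius `10 r` cells. `BX`, `BY` : the blocking events (X, Y worlds).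
`JB.exitX`, `JB.exitY` : one exit, for every configuration of labels. `JB.fieldX`, `JB.fieldY` : the field.
`jBlk_prob` : `P_WB (no block) ≤ (3 s / r)^kap`. -/

namespace Pool.Agent.H55.W

open Pool.Agent.H58.W (up mem_up up_subset PB PB_mono PB_congr PB_restrict PB_nonneg PB_le_one Sep)
open Pool.Agent.H6.W Pool.Agent.H71.W Pool.Agent.H61.W Pool.Agent.H82.W Pool.Agent.H50.W
open Pool.Agent.H13.W (SR KB Sd SG)
open Pool.Agent.H75.TwoArm (fi)
open Pool.Agent.H33.Q1 (lt tt TL ct mem_TL lt_odd)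
open Pool.Agent.H19.W (cx cy lt_cc cx_lt cy_lt)
open Pool.Agent.H99.W (OneExit Rows InW Del Qw blkX blkY)
open Pool.Agent.H91.W (mem_RU mem_RL mem_Rg cT)

/-- **Numerical hypotheses of the block.** -/
structure JB (δ σ : ℝ) (b : JBox) (h k s r : ℕ) (y0 xs xl xe ρ A Yd : ℤ) : Prop where
  ok : b.Ok δ σ
  dl : δ ≤ 1
  hh : 2 ≤ h
  sM : 8 * b.M ≤ s
  sr : s ≤ r
  win : JWin b k r
  wP : 10 * r + b.m * b.M ≤ k * b.M
  hxs : xs = -(k * b.M * (2 * h) : ℤ)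
  y0l : -(b.τ * (2 * h) : ℤ) < y0
  y0Y : y0 < Yd
  YdT : Yd + 1 < b.τ * (2 * h)
  xlA : xs - A ≤ xl
  xeA : xe ≤ xs + A
  Aρ : A + ρ + 6 ≤ 18 * (s * h)
  ρ0 : 0 ≤ ρ

/-- blocking event, X worlds: the whole left plate is open -/
def BX {β : Type*} (b : JBox) (h k s r : ℕ) (O : Finset (ℤ × ℤ)) (bl : ℤ × ℤ → β)
    (ω : Finset (ℤ × ℤ)) : Prop :=
  (jCh b h (dUk k) fun _ => 0).BlkS (jc b h k)
    (KFull O bl (rpJ b h) (KW (rpJ b h) fun _ => True)) (s * h) (r * h) ω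

/-- blocking event, Y worlds: the whole right plate has the state `t` -/
def BY {β : Type*} (b : JBox) (h k s r : ℕ) (t : Bool) (O : Finset (ℤ × ℤ)) (bl : ℤ × ℤ → β)
    (ω : Finset (ℤ × ℤ)) : Prop :=
  (jCh b h (dUk k) fun _ => 0).BlkS (jc b h k)
    (KFull O bl (rpJ b h) (KE (rpJ b h) fun _ => t = true)) (s * h) (r * h) ω

variable {δ σ : ℝ} {b : JBox} {h k s r : ℕ} {M : Finset (Bool × ℕ)} {L O : Finset (ℤ × ℤ)}
  {o t : Bool} {x1 y0 xs xl xe ρ A Yd : ℤ} {ω : Finset (ℤ × ℤ)}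

namespace JB

section basic

variable (J : JB δ σ b h k s r y0 xs xl xe ρ A Yd)
include J

lemma h0 : 0 < h := by have := J.hh; omega

lemma hn : (0 : ℤ) < 2 * h := by have := J.h0; positivity

lemma hM : (0 : ℤ) < b.M := by exact_mod_cast J.ok.M0

lemma c12 : (jc b h k).1 + (jc b h k).2 = xs := by
  rw [J.hxs]; unfold jc; simp only; ring

lemma c21 : (jc b h k).2 - (jc b h k).1 = 0 := by unfold jc; simp only; ring

/-- thickness -/
lemma thk {m : ℤ} (h1 : m < 0) (h2 : -(b.X : ℤ) ≤ m * b.M) :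
    (b.τ : ℤ) + (-1 - m) + 1 ≤ b.H := by
  have h3 := (jT J.ok h1 h2).2
  have h4 : (b.M : ℝ) ≤ b.H := by
    have h5 := J.ok.M_le
    have h6 : (0 : ℝ) ≤ b.H := by positivity
    have := J.dl
    nlinarith
  have h5 : (b.M : ℤ) ≤ b.H := by exact_mod_cast h4
  omega

/-- **tiles of a plate of the window** -/
lemma pl_tile {m : ℤ} (hm : (jCh b h (dUk k) fun _ => 0).Win (jc b h k) (10 * r * h) m)
    {e : ℤ × ℤ} (ho : (e.1 + e.2) % 2 = 1) (h1 : 0 + 2 * ((b.M : ℤ) * h) * m ≤ cx e)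
    (h2 : cx e < 0 + 2 * ((b.M : ℤ) * h) * (m + 1))
    (h3 : -((-0 + ((b.τ : ℤ) + (-1 - m))) * (2 * h) + 0) ≤ cy e)
    (h4 : cy e < (0 + ((b.τ : ℤ) + (-1 - m))) * (2 * h) + dUk k m) :
    ∃ i : ℕ, (i : ℤ) = -1 - m ∧ b.m ≤ i ∧ e ∈ b.B h ∧ rpl b (2 * h) xs e = some i := by
  obtain ⟨i, hi, him, hX, hm0⟩ := jWin_idx J.ok J.h0 J.win J.wP hm
  have hn := J.hn
  have hM := J.hM
  have ht := J.thk hm0 hX
  have hd := dUk_bd k m
  have hTH : ((b.τ : ℤ) + (-1 - m)) * (2 * h) + 2 * h ≤ b.H * (2 * h) := by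
    have := mul_le_mul_of_nonneg_right ht hn.le
    linarith
  have e1 : (0 : ℤ) + 2 * ((b.M : ℤ) * h) * m = -(((i : ℤ) + 1) * b.M * (2 * h)) := by
    have : m = -1 - i := by omega
    rw [this]; ring
  have e2 : (0 : ℤ) + 2 * ((b.M : ℤ) * h) * (m + 1) = -((i : ℤ) * b.M * (2 * h)) := by
    have : m = -1 - i := by omega
    rw [this]; ring
  have e3 : (-0 + ((b.τ : ℤ) + (-1 - m))) * (2 * h) + 0 = ((b.τ : ℤ) + i) * (2 * h) := by
    rw [← hi]; ring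
  have e4 : (0 + ((b.τ : ℤ) + (-1 - m))) * (2 * h) = ((b.τ : ℤ) + i) * (2 * h) := by
    rw [← hi]; ring
  have e5 : ((b.τ : ℤ) + (-1 - m)) * (2 * h) = ((b.τ : ℤ) + i) * (2 * h) := by rw [← hi]
  rw [e1] at h1
  rw [e2] at h2
  rw [e3] at h3
  rw [e4] at h4
  rw [e5] at hTH
  have h2h : (2 : ℤ) ≤ 2 * h := by
    have : (1 : ℤ) ≤ h := by exact_mod_cast J.h0
    linarith
  have hXn : (i : ℤ) * b.M * (2 * h) + b.M * (2 * h) ≤ b.X * (2 * h) := by
    have h5 : ((i : ℤ) + 1) * b.M ≤ b.X := by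
      have : m = -1 - i := by omega
      rw [this] at hX; linarith
    have := mul_le_mul_of_nonneg_right h5 hn.le
    linarith
  have hXi : (0 : ℤ) ≤ i * b.M * (2 * h) := by positivity
  refine ⟨i, hi, him, ?_, ?_⟩
  · rw [mem_B J.h0, InQ_band J.ok hn (by linarith) (by linarith [hd.2])]
    exact ⟨ho, by linarith, by linarith⟩
  · rw [rpl_some J.ok.M0 hn]
    refine ⟨⟨h1, h2⟩, h3, ?_⟩
    unfold dUk at h4
    split_ifs at h4 with hk
    · rcases (show cy e ≤ ((b.τ : ℤ) + i) * (2 * h) by linarith).lt_or_eq with h5 | h5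
      · exact Or.inl h5
      · refine Or.inr ⟨?_, h5⟩
        rw [J.hxs]
        have h6 : ((i : ℤ) + 1) ≤ k := by omega
        have h7 : ((i : ℤ) + 1) * b.M * (2 * h) ≤ k * b.M * (2 * h) :=
          mul_le_mul_of_nonneg_right (mul_le_mul_of_nonneg_right h6 hM.le) hn.le
        linarith
    · left; linarith

end basic

end JB

/-- state of a label of a plate which is not in `P` -/
lemma st_pl (hL : ∀ e ∈ L, e ∉ b.B h) (hω : ω ⊆ (WB b h M L o t x1 y0 xs Yd).E) {e : ℤ × ℤ}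
    (hB : e ∈ b.B h) {i : ℕ} (hi : rpl b (2 * h) xs e = some i) (him : b.m ≤ i) :
    e ∈ (WB b h M L o t x1 y0 xs Yd).st ω ↔
      Xor (e ∈ ω) (Xor (fA t x1 y0 (cx e) (cy e)) (xs ≤ cx e ∧ Yd < cy e)) := by
  rw [mem_stB hL hω]
  have h1 : ¬ ∃ i < b.m, rpl b (2 * h) xs e = some i := by
    rintro ⟨j, hj, hj2⟩
    rw [hi, Option.some.injEq] at hj2
    omega
  have h2 : ∃ i, rpl b (2 * h) xs e = some i := ⟨i, hi⟩
  simp only [hB, h1, h2, not_true_eq_false, false_and, true_and, false_or, not_false_eq_true]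

/-- state of a natural label -/
lemma st_nat (hL : ∀ e ∈ L, e ∉ b.B h) (hω : ω ⊆ (WB b h M L o t x1 y0 xs Yd).E) {e : ℤ × ℤ}
    (hB : e ∈ b.B h) (hi : rpl b (2 * h) xs e = none) :
    e ∈ (WB b h M L o t x1 y0 xs Yd).st ω ↔ e ∈ ω := by
  rw [mem_stB hL hω, hi]
  simp [hB, Xor]

/-- labels of `WB` -/
lemma mem_WBE {e : ℤ × ℤ} : e ∈ (WB b h M L o t x1 y0 xs Yd).E ↔
    e ∈ b.B h ∧ ¬ ∃ i < b.m, rpl b (2 * h) xs e = some i := by
  classical
  show e ∈ (b.B h).filter _ ↔ _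
  rw [mem_filter]

/-- the outside labels of the canonical world (71's `UpH.mem_O2`) -/
def OutB (b : JBox) (h : ℕ) (M : Finset (Bool × ℕ)) (L : Finset (ℤ × ℤ)) (o t : Bool)
    (x1 y0 xs Yd xl xe ρ : ℤ) (O : Finset (ℤ × ℤ)) : Prop :=
  ∀ e, e ∈ O ↔ e ∈ (WB b h M L o t x1 y0 xs Yd).E ∧ e ∉ Bk xl xe ρ ∧
    e ∉ (WB b h M L o t x1 y0 xs Yd).D

namespace JB

section fixed

variable (J : JB δ σ b h k s r y0 xs xl xe ρ A Yd)
include J

/-- scales -/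
lemma scale {u : ℕ} (h1 : s * h ≤ u) (h2 : 3 * u ≤ r * h) :
    (0 : ℤ) < s * h ∧ (s * h : ℤ) ≤ u ∧ (3 * u : ℤ) ≤ r * h ∧ 8 * ((b.M : ℤ) * h) ≤ u ∧
      30 * (u : ℤ) ≤ 10 * r * h := by
  have a1 : (s * h : ℤ) ≤ u := by exact_mod_cast h1
  have a2 : (3 * u : ℤ) ≤ r * h := by exact_mod_cast h2
  have a3 : (8 * b.M : ℤ) * h ≤ s * h := by
    have : (8 * b.M : ℤ) ≤ s := by exact_mod_cast J.sM
    exact mul_le_mul_of_nonneg_right this (by positivity)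
  have hh' : (0 : ℤ) < h := by exact_mod_cast J.h0
  have a4 : (0 : ℤ) < b.M * h := mul_pos J.hM hh'
  refine ⟨by linarith, a1, a2, by linarith, by linarith⟩

/-- labels of plates of the annulus are outside the block rectangle -/
lemma out_pl {u : ℕ} (h1 : s * h ≤ u) (h2 : 3 * u ≤ r * h) {m : ℤ}
    (hm : (jCh b h (dUk k) fun _ => 0).isW (jc b h k) u m ∨
      (jCh b h (dUk k) fun _ => 0).isE (jc b h k) u m)
    {e : ℤ × ℤ} (h3 : 0 + 2 * ((b.M : ℤ) * h) * m ≤ cx e)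
    (h4 : cx e < 0 + 2 * ((b.M : ℤ) * h) * (m + 1)) : e ∉ Bk xl xe ρ := by
  obtain ⟨s1, s2, s3, s4, s5⟩ := J.scale h1 h2
  have hA := J.Aρ
  have hρ := J.ρ0
  have hx := J.c12
  rintro ⟨⟨g1, g2⟩, -⟩
  have g3 := J.xlA
  have g4 := J.xeA
  rcases hm with hm | hm
  · obtain ⟨-, k2⟩ := hm
    have k2' : 0 + 2 * ((b.M : ℤ) * h) * (m + 1) ≤ (jc b h k).1 + (jc b h k).2 - 28 * u := k2
    rw [hx] at k2'
    linarith
  · obtain ⟨k1, -⟩ := hm
    have k1' : (jc b h k).1 + (jc b h k).2 + 28 * u ≤ 0 + 2 * ((b.M : ℤ) * h) * m := k1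
    rw [hx] at k1'
    linarith

/-- the plates of the annulus are in the window -/
lemma win_pl {u : ℕ} (h1 : s * h ≤ u) (h2 : 3 * u ≤ r * h) {m : ℤ}
    (hm : (jCh b h (dUk k) fun _ => 0).isW (jc b h k) u m ∨
      (jCh b h (dUk k) fun _ => 0).isE (jc b h k) u m) :
    (jCh b h (dUk k) fun _ => 0).Win (jc b h k) (10 * r * h) m := by
  obtain ⟨s1, s2, s3, s4, s5⟩ := J.scale h1 h2
  have hh' : (0 : ℤ) < h := by exact_mod_cast J.h0
  have hN : 0 < (jCh b h (dUk k) fun _ => 0).N := by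
    show (0 : ℤ) < b.M * h
    exact mul_pos J.hM hh'
  rcases hm with hm | hm
  · exact isW_win hN s5 (by linarith) hm
  · exact isE_win hN s5 (by linarith) hm

/-- the reference label in tiles -/
lemma rp_tile {m : ℤ} (hm : (jCh b h (dUk k) fun _ => 0).Win (jc b h k) (10 * r * h) m) :
    ∃ i : ℕ, (i : ℤ) = -1 - m ∧ b.m ≤ i ∧ rpJ b h m ∈ b.B h ∧
      rpl b (2 * h) xs (rpJ b h m) = some i ∧
      0 + 2 * ((b.M : ℤ) * h) * m ≤ cx (rpJ b h m) ∧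
      cx (rpJ b h m) < 0 + 2 * ((b.M : ℤ) * h) * (m + 1) ∧ cy (rpJ b h m) < y0 := by
  obtain ⟨i, hi, him, hX, hm0⟩ := jWin_idx J.ok J.h0 J.win J.wP hm
  have hn := J.hn
  have hh' : (0 : ℤ) < h := by exact_mod_cast J.h0
  have hMh : (0 : ℤ) < b.M * h := mul_pos J.hM hh'
  have ht := J.thk hm0 hX
  refine ⟨i, hi, him, rpJ_B J.ok J.h0 hm0 hX (by linarith), rpJ_rpl J.ok.M0 J.ok.τ0 J.h0 hi, ?_, ?_, ?_⟩
  · rw [rpJ_cx]; apply le_of_eq; ring
  · rw [rpJ_cx]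
    have : (0 : ℤ) + 2 * ((b.M : ℤ) * h) * (m + 1) = m * b.M * (2 * h) + 2 * (b.M * h) := by ring
    rw [this]; linarith
  · rw [rpJ_cy, ← hi]
    have h1 := J.y0l
    have h2 : (0 : ℤ) ≤ i * (2 * h) := by positivity
    linarith

/-- the reference label is an outside label -/
lemma rp_O (hO : OutB b h M L o t x1 y0 xs Yd xl xe ρ O) {u : ℕ} (h1 : s * h ≤ u)
    (h2 : 3 * u ≤ r * h) {m : ℤ}
    (hm : (jCh b h (dUk k) fun _ => 0).isW (jc b h k) u m ∨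
      (jCh b h (dUk k) fun _ => 0).isE (jc b h k) u m) : rpJ b h m ∈ O := by
  obtain ⟨i, hi, him, hB, hr, g1, g2, g3⟩ := J.rp_tile (J.win_pl h1 h2 hm)
  rw [hO, mem_WBE]
  refine ⟨⟨hB, ?_⟩, J.out_pl h1 h2 hm g1 g2, ?_⟩
  · rintro ⟨j, hj, hj2⟩
    rw [hr, Option.some.injEq] at hj2
    omega
  · rw [mem_DB (rpJ_odd m)]
    have := J.y0Y
    rintro (⟨g4, -⟩ | ⟨g4, -⟩) <;> linarith

/-- **the whole plate has the state of the reference label** -/
lemma pl_state (hO : OutB b h M L o t x1 y0 xs Yd xl xe ρ O) {u : ℕ} (h1 : s * h ≤ u)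
    (h2 : 3 * u ≤ r * h) {m : ℤ}
    (hm : (jCh b h (dUk k) fun _ => 0).isW (jc b h k) u m ∨
      (jCh b h (dUk k) fun _ => 0).isE (jc b h k) u m)
    (hK : ∀ e ∈ O, (WB b h M L o t x1 y0 xs Yd).b e = (WB b h M L o t x1 y0 xs Yd).b (rpJ b h m) →
      (e ∈ ω ∩ O ↔ rpJ b h m ∈ ω ∩ O))
    (hL : ∀ e ∈ L, e ∉ b.B h) (hω : ω ⊆ (WB b h M L o t x1 y0 xs Yd).E)
    {e : ℤ × ℤ} (ho : (e.1 + e.2) % 2 = 1) (h3 : 0 + 2 * ((b.M : ℤ) * h) * m ≤ cx e)
    (h4 : cx e < 0 + 2 * ((b.M : ℤ) * h) * (m + 1))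
    (h5 : -((-0 + ((b.τ : ℤ) + (-1 - m))) * (2 * h) + 0) ≤ cy e)
    (h6 : cy e < (0 + ((b.τ : ℤ) + (-1 - m))) * (2 * h) + dUk k m)
    (hD : e ∉ (WB b h M L o t x1 y0 xs Yd).D) :
    e ∈ (WB b h M L o t x1 y0 xs Yd).st ω ↔ Xor (rpJ b h m ∈ ω ∩ O)
      (Xor (fA t x1 y0 (cx e) (cy e)) (xs ≤ cx e ∧ Yd < cy e)) := by
  obtain ⟨i, hi, him, hB, hr⟩ := J.pl_tile (J.win_pl h1 h2 hm) ho h3 h4 h5 h6
  obtain ⟨i', hi', -, -, hr', -⟩ := J.rp_tile (J.win_pl h1 h2 hm)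
  have hii : i' = i := by omega
  rw [hii] at hr'
  have heO : e ∈ O := by
    rw [hO, mem_WBE]
    refine ⟨⟨hB, ?_⟩, J.out_pl h1 h2 hm h3 h4, hD⟩
    rintro ⟨j, hj, hj2⟩
    rw [hr, Option.some.injEq] at hj2
    omega
  have hbb : (WB b h M L o t x1 y0 xs Yd).b e = (WB b h M L o t x1 y0 xs Yd).b (rpJ b h m) := by
    show blk (rpl b (2 * h) xs) e = blk (rpl b (2 * h) xs) (rpJ b h m)
    rw [blk_some hr, blk_some hr']
  have e1 : e ∈ ω ↔ rpJ b h m ∈ ω ∩ O := by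
    rw [← hK e heO hbb, mem_inter]
    exact ⟨fun g => ⟨g, heO⟩, fun g => g.1⟩
  rw [st_pl hL hω hB hr him, e1]

/-- the rooms -/
lemma inW (hL : ∀ e ∈ L, e ∉ b.B h) (hω : ω ⊆ (WB b h M L o t x1 y0 xs Yd).E) {u : ℕ}
    (h1 : s * h ≤ u) (h2 : 3 * u ≤ r * h) :
    InW (jCh b h (dUk k) fun _ => 0) (jc b h k) u ((WB b h M L o t x1 y0 xs Yd).st ω) (ω ∩ O) := by
  obtain ⟨s1, s2, s3, s4, s5⟩ := J.scale h1 h2
  have hB := okB_WB J.ok J.h0 J.win J.wP J.dl M L o t x1 y0 Yd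
  rw [← J.hxs] at hB
  have key : ∀ e ∈ ω ∩ O, e ∈ (jCh b h (dUk k) fun _ => 0).rooms (jc b h k) (10 * r * h) →
      e ∈ (WB b h M L o t x1 y0 xs Yd).st ω := by
    intro e he hr
    have heω := (mem_inter.1 he).1
    have hEB := (mem_WBE.1 (hω heω)).1
    have hne : rpl b (2 * h) xs e = none := by
      rcases hc : rpl b (2 * h) xs e with _ | i
      · rfl
      exfalso
      obtain ⟨g1, g2, g3, g4⟩ := jCh_rooms J.ok J.win J.h0 (dUk_bd k)
        (fun _ => ⟨le_refl _, by norm_num⟩) hr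
      -- the plate label would be in the window
      have hn := J.hn
      have g2' : cx e < 0 := g2
      rw [rpl_some J.ok.M0 hn] at hc
      obtain ⟨⟨k1, k2⟩, k3, k4⟩ := hc
      have hh' : (0 : ℤ) < h := by exact_mod_cast J.h0
      have hMh : (0 : ℤ) < b.M * h := mul_pos J.hM hh'
      have hp : plx 0 (b.M * h) (Pool.Agent.H91.W.tX e) = -1 - i := by
        refine plx_neg hMh ?_ ?_
        · have : (2 : ℤ) * (b.M * h) * (-1 - i) = -((i + 1) * b.M * (2 * h)) := by ring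
          rw [this]; exact k1
        · have : (2 : ℤ) * (b.M * h) * (-1 - i + 1) = -(i * b.M * (2 * h)) := by ring
          rw [this]; exact k2
      have hc : cT 0 b.M b.τ (2 * h) (Pool.Agent.H91.W.tX e) = ((b.τ : ℤ) + i) * (2 * h) := by
        have g2'' : Pool.Agent.H91.W.tX e < 0 := g2
        rw [cT_eq J.h0 J.ok.M0 g2'', hp]; ring
      have hty : Pool.Agent.H91.W.tY e = cy e := rfl
      have g4' : cT 0 b.M b.τ (2 * h) (Pool.Agent.H91.W.tX e) +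
          dUk k (plx 0 (b.M * h) (Pool.Agent.H91.W.tX e)) ≤ Pool.Agent.H91.W.tY e ∨
        Pool.Agent.H91.W.tY e ≤ -1 - cT 0 b.M b.τ (2 * h) (Pool.Agent.H91.W.tX e) - 0 := g4
      rw [hc, hp, hty] at g4'
      have hpos : (0 : ℤ) ≤ ((b.τ : ℤ) + i) * (2 * h) := by positivity
      have hd := dUk_bd k (-1 - (i : ℤ))
      rcases k4 with k4 | ⟨k4, k5⟩
      · rcases g4' with g4' | g4' <;> linarith
      · have hd1 : dUk k (-1 - (i : ℤ)) = 1 := by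
          unfold dUk
          rw [if_pos]
          rw [J.hxs] at k4
          have h8 : (i : ℤ) * (b.M * (2 * h)) < k * (b.M * (2 * h)) := by linarith
          have h9 : (i : ℤ) < k := lt_of_mul_lt_mul_right h8 (by positivity)
          omega
        rw [hd1] at g4'
        rcases g4' with g4' | g4' <;> linarith
    rw [st_nat hL hω hEB hne]
    exact heω
  exact ⟨fun e he hr => key e he (rU_sub s5 (by linarith) hr),
    fun e he hr => key e he (rL_sub s5 (by linarith) hr)⟩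

end fixed

end JB

end Pool.Agent.H55.W
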