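import Mathlib
import Pool.Agent.H55.W.JBlk

set_option autoImplicit false
open Finset

/-! # Route W, J6: one exit of the blocking events `BX`, `BY`; field `blk` of `Half`; probability

`JB.exitX`, `JB.exitY` : `OneExit` at some scale. `JB.fieldX`, `JB.fieldY` : for every configuration with the
block a set `I` with one exit, all sides of the tiles of the block rectangle and their images one row up in
`I`, all corners near `xs` in `I`, all corners far from `xs` (`mark_far`, `mc_far`) not in `I`.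
`JB.blkX'`, `JB.blkY'` : the field `blk` of 82's `Half`. `jBlk_prob` : the probability. -/

namespace Pool.Agent.H55.W

open Pool.Agent.H58.W (up mem_up up_subset PB PB_mono PB_congr PB_restrict PB_nonneg PB_le_one Sep)
open Pool.Agent.H6.W Pool.Agent.H71.W Pool.Agent.H61.W Pool.Agent.H82.W Pool.Agent.H50.W
open Pool.Agent.H13.W (SR KB Sd SG eW eE eS eN)
open Pool.Agent.H75.TwoArm (fi)
open Pool.Agent.H33.Q1 (lt tt TL ct mem_TL lt_odd)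
open Pool.Agent.H19.W (cx cy lt_cc cx_lt cy_lt)
open Pool.Agent.H99.W (OneExit Rows InW Del Qw blkX blkY)

variable {δ σ : ℝ} {b : JBox} {h k s r : ℕ} {M : Finset (Bool × ℕ)} {L O : Finset (ℤ × ℤ)}
  {o t : Bool} {x1 y0 xs xl xe ρ A Yd : ℤ} {ω : Finset (ℤ × ℤ)}

namespace JB

variable (J : JB δ σ b h k s r y0 xs xl xe ρ A Yd)
include J

/-- the deleted rows are strictly inside the plates -/
lemma del (u : ℤ) : Del (jCh b h (dUk k) fun _ => 0) (jc b h k) (10 * r * h) u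
    (WB b h M L o t x1 y0 xs Yd).D (-(b.τ * (2 * h) : ℤ) + 1) (b.τ * (2 * h) - 1) where
  lo m hm := by
    obtain ⟨i, hi, -, -, -⟩ := jWin_idx J.ok J.h0 J.win J.wP hm
    show -((-0 + ((b.τ : ℤ) + (-1 - m))) * (2 * h) + 0) < _
    rw [← hi]
    have h2 : (0 : ℤ) ≤ i * (2 * h) := by positivity
    linarith
  hi m hm := by
    obtain ⟨i, hi, -, -, -⟩ := jWin_idx J.ok J.h0 J.win J.wP hm
    show _ < (0 + ((b.τ : ℤ) + (-1 - m))) * (2 * h) + dUk k m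
    rw [← hi]
    have h2 : (0 : ℤ) ≤ i * (2 * h) := by positivity
    linarith [(dUk_bd k m).1]
  row e he _ ho := by
    have h1 := J.y0l
    have h2 := J.y0Y
    have h3 := J.YdT
    show _ ≤ cy e ∧ cy e < _
    rw [mem_DB ho] at he
    rcases he with ⟨g, -⟩ | ⟨g, -⟩
    · rw [g]; constructor <;> linarith
    · rw [g]; constructor <;> linarith

/-- columns of the plates of the annulus -/
lemma colW {u : ℕ} (h1 : s * h ≤ u) (h2 : 3 * u ≤ r * h) {m x : ℤ}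
    (hm : (jCh b h (dUk k) fun _ => 0).isW (jc b h k) u m)
    (h4 : x < 0 + 2 * ((b.M : ℤ) * h) * (m + 1)) : x < xs := by
  obtain ⟨s1, s2, s3, s4, s5⟩ := J.scale h1 h2
  have hx := J.c12
  obtain ⟨-, k2⟩ := hm
  have k2' : 0 + 2 * ((b.M : ℤ) * h) * (m + 1) ≤ (jc b h k).1 + (jc b h k).2 - 28 * u := k2
  rw [hx] at k2'
  linarith

lemma colE {u : ℕ} (h1 : s * h ≤ u) (h2 : 3 * u ≤ r * h) {m x : ℤ}
    (hm : (jCh b h (dUk k) fun _ => 0).isE (jc b h k) u m)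
    (h3 : 0 + 2 * ((b.M : ℤ) * h) * m ≤ x) (h4 : x < 0 + 2 * ((b.M : ℤ) * h) * (m + 1)) :
    xs ≤ x ∧ x < xs + 12 * (r * h) := by
  obtain ⟨s1, s2, s3, s4, s5⟩ := J.scale h1 h2
  have hx := J.c12
  obtain ⟨k1, k2⟩ := hm
  have k1' : (jc b h k).1 + (jc b h k).2 + 28 * u ≤ 0 + 2 * ((b.M : ℤ) * h) * m := k1
  have k2' : 0 + 2 * ((b.M : ℤ) * h) * (m + 1) ≤ (jc b h k).1 + (jc b h k).2 + 36 * u := k2
  rw [hx] at k1' k2'
  constructor <;> linarith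

/-- **One exit, X worlds.** -/
theorem exitX (hx1 : x1 ≤ -(b.X * (2 * h) : ℤ)) (hL : ∀ e ∈ L, e ∉ b.B h)
    (hO : OutB b h M L o t x1 y0 xs Yd xl xe ρ O) (hω : ω ⊆ (WB b h M L o t x1 y0 xs Yd).E)
    (hB : BX b h k s r O (WB b h M L o t x1 y0 xs Yd).b (ω ∩ O)) :
    ∃ u : ℕ, s * h ≤ u ∧ 3 * u ≤ r * h ∧ OneExit (WB b h M L o t x1 y0 xs Yd).Λ
      (WB b h M L o t x1 y0 xs Yd).D ((WB b h M L o t x1 y0 xs Yd).st ω) (jc b h k) u := by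
  obtain ⟨u, h1, h2, hB⟩ := hB
  refine ⟨u, h1, h2, ?_⟩
  obtain ⟨s1, s2, s3, s4, s5⟩ := J.scale h1 h2
  obtain ⟨τ, hC⟩ := jCh_ok (dU := dUk k) (dL := fun _ => 0) J.ok J.hh J.win (dUk_bd k)
    (fun _ => ⟨le_refl _, by norm_num⟩)
  have y1 := J.y0l
  have y2 := J.y0Y
  have y3 := J.YdT
  refine blkX hC s4 s5 hB (fun e he => Lam_odd he) (J.inW hL hω h1 h2) (J.del u)
    (Yd := Yd) ⟨by linarith, by linarith⟩ ?_
  intro j i hj hi hK
  obtain ⟨hK0, hKj, hKi⟩ := hK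
  constructor
  · intro e ho g1 g2 g3 g4
    have g1' : 0 + 2 * ((b.M : ℤ) * h) * j ≤ cx e := g1
    have g2' : cx e < 0 + 2 * ((b.M : ℤ) * h) * (j + 1) := g2
    have hcx := J.colW h1 h2 hj g2'
    obtain ⟨i0, -, -, hbB, -⟩ := J.pl_tile (J.win_pl h1 h2 (Or.inl hj)) ho g1' g2' g3 g4
    have hcol := InQ_col J.ok J.hn ((mem_B J.h0).1 hbB).2
    have hnD : e ∉ (WB b h M L o t x1 y0 xs Yd).D := by
      rw [mem_DB ho]
      rintro (⟨-, g⟩ | ⟨-, g⟩) <;> linarith [hcol.1]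
    refine ⟨⟨fun g => absurd g hnD, fun g => absurd g id⟩, fun _ => ?_⟩
    rw [J.pl_state hO h1 h2 (Or.inl hj) hKj hL hω ho g1' g2' g3 g4 hnD]
    have hf : ¬ fA t x1 y0 (cx e) (cy e) := fun g => by linarith [g.1, hcol.1]
    have hx : ¬ (xs ≤ cx e ∧ Yd < cy e) := fun g => by linarith [g.1]
    have hr : rpJ b h j ∈ ω ∩ O := hK0.2 trivial
    simp [hf, hx, hr, Xor]
  · refine ⟨rpJ b h i ∈ ω ∩ O, ?_⟩
    intro e ho g1 g2 g3 g4
    have g1' : 0 + 2 * ((b.M : ℤ) * h) * i ≤ cx e := g1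
    have g2' : cx e < 0 + 2 * ((b.M : ℤ) * h) * (i + 1) := g2
    obtain ⟨hcx, -⟩ := J.colE h1 h2 hi g1' g2'
    obtain ⟨i0, -, -, hbB, -⟩ := J.pl_tile (J.win_pl h1 h2 (Or.inr hi)) ho g1' g2' g3 g4
    have hcol := InQ_col J.ok J.hn ((mem_B J.h0).1 hbB).2
    have hD : e ∈ (WB b h M L o t x1 y0 xs Yd).D ↔ cy e = Yd := by
      rw [mem_DB ho]
      constructor
      · rintro (⟨g, -⟩ | ⟨-, g⟩)
        · exact g
        · linarith [hcol.1]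
      · exact fun g => Or.inl ⟨g, hcx⟩
    refine ⟨hD, fun hne => ?_⟩
    have hne' : cy e ≠ Yd := hne
    rw [J.pl_state hO h1 h2 (Or.inr hi) hKi hL hω ho g1' g2' g3 g4 (fun g => hne (hD.1 g))]
    have hf : ¬ fA t x1 y0 (cx e) (cy e) := fun g => by linarith [g.1, hcol.1]
    show _ ↔ (cy e < Yd ↔ _)
    have hx : (xs ≤ cx e ∧ Yd < cy e) ↔ ¬ (cy e < Yd) := by
      constructor
      · rintro ⟨-, g⟩; linarith
      · intro g; exact ⟨hcx, by omega⟩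
    rw [hx]
    by_cases q1 : rpJ b h i ∈ ω ∩ O <;> by_cases q2 : cy e < Yd <;> simp [q1, q2, hf, Xor]

/-- **One exit, Y worlds.** -/
theorem exitY (hx1 : xs + 12 * (r * h) ≤ x1) (hL : ∀ e ∈ L, e ∉ b.B h)
    (hO : OutB b h M L o t x1 y0 xs Yd xl xe ρ O) (hω : ω ⊆ (WB b h M L o t x1 y0 xs Yd).E)
    (hB : BY b h k s r t O (WB b h M L o t x1 y0 xs Yd).b (ω ∩ O)) :
    ∃ u : ℕ, s * h ≤ u ∧ 3 * u ≤ r * h ∧ OneExit (WB b h M L o t x1 y0 xs Yd).Λ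
      (WB b h M L o t x1 y0 xs Yd).D ((WB b h M L o t x1 y0 xs Yd).st ω) (jc b h k) u := by
  obtain ⟨u, h1, h2, hB⟩ := hB
  refine ⟨u, h1, h2, ?_⟩
  obtain ⟨s1, s2, s3, s4, s5⟩ := J.scale h1 h2
  obtain ⟨τ, hC⟩ := jCh_ok (dU := dUk k) (dL := fun _ => 0) J.ok J.hh J.win (dUk_bd k)
    (fun _ => ⟨le_refl _, by norm_num⟩)
  have y1 := J.y0l
  have y2 := J.y0Y
  have y3 := J.YdT
  have hrh : (0 : ℤ) ≤ 12 * (r * h) := by positivity
  refine blkY hC s4 s5 hB (fun e he => Lam_odd he) (J.inW hL hω h1 h2) (J.del u)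
    (yj := y0) (y1 := y0) (y2 := Yd) ⟨by linarith, by linarith⟩ (by linarith) y2 (by linarith) ?_
  intro j i hj hi hK
  obtain ⟨hK0, hKj, hKi⟩ := hK
  constructor
  · refine ⟨(rpJ b h j ∈ ω ∩ O ↔ t = true), ?_⟩
    intro e ho g1 g2 g3 g4
    have g1' : 0 + 2 * ((b.M : ℤ) * h) * j ≤ cx e := g1
    have g2' : cx e < 0 + 2 * ((b.M : ℤ) * h) * (j + 1) := g2
    have hcx := J.colW h1 h2 hj g2'
    have hcx1 : cx e < x1 := by linarith
    have hD : e ∈ (WB b h M L o t x1 y0 xs Yd).D ↔ cy e = y0 := by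
      rw [mem_DB ho]
      constructor
      · rintro (⟨-, g⟩ | ⟨g, -⟩)
        · linarith
        · exact g
      · exact fun g => Or.inr ⟨g, hcx1⟩
    refine ⟨hD, fun hne => ?_⟩
    have hne' : cy e ≠ y0 := hne
    rw [J.pl_state hO h1 h2 (Or.inl hj) hKj hL hω ho g1' g2' g3 g4 (fun g => hne (hD.1 g))]
    have hx : ¬ (xs ≤ cx e ∧ Yd < cy e) := fun g => by linarith [g.1]
    show _ ↔ (cy e < y0 ↔ _)
    have hgt : y0 < cy e ↔ ¬ (cy e < y0) := by omega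
    unfold fA
    rw [hgt]
    rcases t with _ | _ <;> by_cases q1 : rpJ b h j ∈ ω ∩ O <;> by_cases q2 : cy e < y0 <;>
      simp [q1, q2, hx, hcx1, Xor]
  · intro e ho g1 g2 g3 g4
    have g1' : 0 + 2 * ((b.M : ℤ) * h) * i ≤ cx e := g1
    have g2' : cx e < 0 + 2 * ((b.M : ℤ) * h) * (i + 1) := g2
    obtain ⟨hcx, hcx2⟩ := J.colE h1 h2 hi g1' g2'
    have hcx1 : cx e < x1 := by linarith
    have hD : e ∈ (WB b h M L o t x1 y0 xs Yd).D ↔ (cy e = y0 ∨ cy e = Yd) := by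
      rw [mem_DB ho]
      constructor
      · rintro (⟨g, -⟩ | ⟨g, -⟩)
        · exact Or.inr g
        · exact Or.inl g
      · rintro (g | g)
        · exact Or.inr ⟨g, hcx1⟩
        · exact Or.inl ⟨g, hcx⟩
    refine ⟨hD, fun hne => ?_⟩
    have hne' : ¬ (cy e = y0 ∨ cy e = Yd) := hne
    rw [J.pl_state hO h1 h2 (Or.inr hi) hKi hL hω ho g1' g2' g3 g4 (fun g => hne (hD.1 g))]
    show _ ↔ (cy e < y0 ∨ Yd < cy e)
    have hr : rpJ b h i ∈ ω ∩ O ↔ t = true := hK0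
    unfold fA
    rcases lt_trichotomy (cy e) y0 with g | g | g
    · have q1 : ¬ (y0 < cy e) := by linarith
      have q2 : ¬ (Yd < cy e) := by linarith
      rcases t with _ | _ <;> simp [hr, g, q1, q2, hcx1, Xor]
    · exact absurd (Or.inl g) hne'
    · have q1 : ¬ (cy e < y0) := by linarith
      rcases lt_trichotomy (cy e) Yd with g5 | g5 | g5
      · have q2 : ¬ (Yd < cy e) := by linarith
        rcases t with _ | _ <;> simp [hr, g, q1, q2, hcx1, Xor]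
      · exact absurd (Or.inr g5) hne'
      · rcases t with _ | _ <;> simp [hr, g, q1, g5, hcx1, hcx, Xor]

/-- corners near the chord position -/
lemma near {u : ℕ} (h1 : s * h ≤ u) {c : ℤ × ℤ} (g1 : |c.1 - xs| ≤ 18 * (s * h) - 1)
    (g2 : |c.2 - xs| ≤ 18 * (s * h) - 1) :
    |(fi c).1 - (jc b h k).1| ≤ 9 * u ∧ |(fi c).2 - (jc b h k).2| ≤ 9 * u := by
  have a1 : (s * h : ℤ) ≤ u := by exact_mod_cast h1
  have hx := J.c12
  have hy := J.c21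
  rw [abs_le] at g1 g2
  unfold fi
  simp only
  rw [abs_le, abs_le]
  refine ⟨⟨?_, ?_⟩, ?_, ?_⟩ <;> omega

/-- corners far away -/
lemma far {u : ℕ} (h1 : s * h ≤ u) (h2 : 3 * u ≤ r * h) {c : ℤ × ℤ}
    (g1 : 15 * (r * h : ℤ) ≤ |c.1 - xs| ∨ 15 * (r * h : ℤ) ≤ |c.2 - xs|) :
    22 * (u : ℤ) < |(fi c).1 - (jc b h k).1| ∨ 22 * (u : ℤ) < |(fi c).2 - (jc b h k).2| := by
  obtain ⟨s1, s2, s3, s4, s5⟩ := J.scale h1 h2
  have hM64 : (64 : ℤ) ≤ b.M := by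
    have h4 := J.ok.τ_le
    have hτ : (1 : ℝ) ≤ b.τ := by exact_mod_cast J.ok.τ0
    have h5 : (0 : ℝ) ≤ (b.X : ℝ) / b.M := by positivity
    have : (64 : ℝ) ≤ b.M := by linarith
    exact_mod_cast this
  have hh' : (0 : ℤ) < h := by exact_mod_cast J.h0
  have hu : 64 ≤ (u : ℤ) := by nlinarith
  have hx := J.c12
  have hy := J.c21
  by_contra hc
  push Not at hc
  rw [abs_le, abs_le] at hc
  unfold fi at hc
  simp only at hc
  rw [le_abs, le_abs] at g1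
  rcases g1 with (g1 | g1) | g1 | g1 <;> omega

/-- rows above the window -/
lemma row_far {c : ℤ × ℤ} (g1 : 2 * (b.H * (2 * h)) ≤ |c.2 - c.1|) :
    15 * (r * h : ℤ) ≤ |c.1 - xs| ∨ 15 * (r * h : ℤ) ≤ |c.2 - xs| := by
  have hH : (10 * r : ℤ) * h + h ≤ b.H * h := by
    have : (10 * r + 1 : ℤ) ≤ b.H := by exact_mod_cast J.win.top
    have h0 : (0 : ℤ) ≤ h := by positivity
    have := mul_le_mul_of_nonneg_right this h0
    linarith
  have hh' : (0 : ℤ) < h := by exact_mod_cast J.h0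
  have hr' : (0 : ℤ) ≤ r * h := by positivity
  by_contra hc
  push Not at hc
  rw [abs_lt, abs_lt] at hc
  have e1 : (2 : ℤ) * (b.H * (2 * h)) = 4 * (b.H * h) := by ring
  rw [e1, le_abs] at g1
  have e2 : (10 * r : ℤ) * h = 10 * (r * h) := by ring
  rw [e2] at hH
  rcases g1 with g1 | g1 <;> omega

/-- the corners of the marks are far -/
lemma mark_far (q : Bool × ℕ) :
    (15 * (r * h : ℤ) ≤ |(f1 b (2 * h) q).1 - xs| ∨ 15 * (r * h : ℤ) ≤ |(f1 b (2 * h) q).2 - xs|) ∧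
    (15 * (r * h : ℤ) ≤ |(f2 b (2 * h) q).1 - xs| ∨ 15 * (r * h : ℤ) ≤ |(f2 b (2 * h) q).2 - xs|) := by
  have hn := J.hn
  have h1 : (0 : ℤ) ≤ ((q.2 : ℤ) + 1) * (2 * h) := by positivity
  have h2 : ((b.H : ℤ) + q.2 + 1) * (2 * h) = b.H * (2 * h) + (q.2 + 1) * (2 * h) := by ring
  constructor
  · apply J.row_far
    unfold f1 dgt cpt
    rw [le_abs]
    rcases q.1 with _ | _
    · right
      simp only [Bool.false_eq_true, if_false]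
      rw [h2]
      unfold eE lt
      simp only
      linarith
    · left
      simp only [if_true]
      rw [h2]
      unfold eE lt
      simp only
      linarith
  · apply J.row_far
    unfold f2 dgt cpt
    rw [le_abs]
    rcases q.1 with _ | _
    · right
      simp only [Bool.false_eq_true, if_false]
      rw [h2]
      unfold eN lt
      simp only
      linarith
    · left
      simp only [if_true]
      rw [h2]
      unfold eS lt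
      simp only
      linarith

omit J in
/-- the mark in the slit is far -/
lemma mc_far {x1 y : ℤ} (hx1 : xs + 15 * (r * h : ℤ) ≤ x1) :
    15 * (r * h : ℤ) ≤ |(eW (lt (x1, y))).1 - xs| ∨
      15 * (r * h : ℤ) ≤ |(eW (lt (x1, y))).2 - xs| := by
  unfold eW lt
  simp only
  rw [le_abs, le_abs]
  rcases le_or_gt 0 y with h | h
  · right; left; linarith
  · left; left; linarith

/-- the end of the canonical string is near -/
lemma zc_near : |(zc (xs, Yd)).1 - xs| ≤ 18 * (s * h) - 1 ∧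
    |(zc (xs, Yd)).2 - xs| ≤ 18 * (s * h) - 1 := by
  have h1 := J.y0l
  have h2 := J.y0Y
  have h3 := J.YdT
  have h4 : (8 * b.M : ℤ) * h ≤ s * h := by
    have : (8 * b.M : ℤ) ≤ s := by exact_mod_cast J.sM
    exact mul_le_mul_of_nonneg_right this (by positivity)
  have h5 : (64 * b.τ : ℤ) ≤ b.M := by
    have h4 := J.ok.τ_le
    have h5 : (0 : ℝ) ≤ (b.X : ℝ) / b.M := by positivity
    have : (64 * b.τ : ℝ) ≤ b.M := by linarith
    exact_mod_cast this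
  have h6 : (64 * b.τ : ℤ) * h ≤ b.M * h := mul_le_mul_of_nonneg_right h5 (by positivity)
  have h7 : (0 : ℤ) < b.τ * h := mul_pos (by exact_mod_cast J.ok.τ0) (by exact_mod_cast J.h0)
  unfold zc eW lt
  simp only
  rw [abs_le, abs_le]
  refine ⟨⟨?_, ?_⟩, ?_, ?_⟩ <;> linarith

/-- sides of the tiles of the block rectangle -/
lemma side_near {e c : ℤ × ℤ} (he : e ∈ Bk xl xe ρ) (hc : Sd e c) :
    (|c.1 - xs| ≤ 18 * (s * h) - 1 ∧ |c.2 - xs| ≤ 18 * (s * h) - 1) ∧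
    (|(Pool.Agent.H13.W.up c).1 - xs| ≤ 18 * (s * h) - 1 ∧
      |(Pool.Agent.H13.W.up c).2 - xs| ≤ 18 * (s * h) - 1) := by
  obtain ⟨⟨g1, g2⟩, g3, g4⟩ := he
  have h1 := J.xlA
  have h2 := J.xeA
  have h3 := J.Aρ
  unfold cx at g1 g2
  unfold cy at g3 g4
  have k1 : (e.1 = c.1 ∨ e.1 + 1 = c.1) ∧ (e.2 = c.2 ∨ e.2 + 1 = c.2) := by
    rcases hc with rfl | rfl | rfl | rfl <;> simp [eW, eE, eS, eN]
  unfold Pool.Agent.H13.W.up
  simp only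
  rw [abs_le, abs_le, abs_le, abs_le]
  refine ⟨⟨⟨?_, ?_⟩, ?_, ?_⟩, ⟨?_, ?_⟩, ?_, ?_⟩ <;> omega

end JB

/-- **the conclusion of the field `blk`** -/
def FieldB (G : SimpleGraph (ℤ × ℤ)) (h s r : ℕ) (xs xl xe ρ : ℤ) : Prop :=
  ∃ (I : Set (ℤ × ℤ)) (p : ℤ × ℤ), (∀ u v, u ∈ I → v ∉ I → G.Adj u v → v = p) ∧
    (∀ e ∈ Bk xl xe ρ, ∀ c, Sd e c → c ∈ I ∧ Pool.Agent.H13.W.up c ∈ I) ∧
    (∀ c : ℤ × ℤ, |c.1 - xs| ≤ 18 * (s * h) - 1 → |c.2 - xs| ≤ 18 * (s * h) - 1 → c ∈ I) ∧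
    (∀ c : ℤ × ℤ, 15 * (r * h : ℤ) ≤ |c.1 - xs| ∨ 15 * (r * h : ℤ) ≤ |c.2 - xs| → c ∉ I)

/-- the images of the corners at the block rectangle -/
lemma FieldB.sr {G : SimpleGraph (ℤ × ℤ)} (H : FieldB G h s r xs xl xe ρ) :
    ∃ (I : Set (ℤ × ℤ)) (p : ℤ × ℤ), (∀ u v, u ∈ I → v ∉ I → G.Adj u v → v = p) ∧
    (∀ (Λ D S : Set (ℤ × ℤ)), ∀ c ∈ KB (Bk xl xe ρ), ∀ c', SR Λ D (Bk xl xe ρ) S c c' → c' ∈ I) ∧
    (∀ e ∈ Bk xl xe ρ, ∀ c, Sd e c → c ∈ I) ∧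
    (∀ c : ℤ × ℤ, |c.1 - xs| ≤ 18 * (s * h) - 1 → |c.2 - xs| ≤ 18 * (s * h) - 1 → c ∈ I) ∧
    (∀ c : ℤ × ℤ, 15 * (r * h : ℤ) ≤ |c.1 - xs| ∨ 15 * (r * h : ℤ) ≤ |c.2 - xs| → c ∉ I) := by
  obtain ⟨I, p, h1, h2, h3, h4⟩ := H
  refine ⟨I, p, h1, ?_, fun e he c hc => (h2 e he c hc).1, h3, h4⟩
  intro Λ D S c hc c' hR
  have key : c ∈ I ∧ Pool.Agent.H13.W.up c ∈ I := by
    rcases hc with hc | hc
    · exact h2 _ hc c (Pool.Agent.H13.W.side_cases c (Or.inl rfl))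
    · exact h2 _ hc c (Pool.Agent.H13.W.side_cases c (Or.inr rfl))
  rcases hR with ⟨rfl, -⟩ | ⟨rfl, -⟩
  · exact key.1
  · exact key.2

namespace JB

variable (J : JB δ σ b h k s r y0 xs xl xe ρ A Yd)
include J

lemma field_of {Λ D : Set (ℤ × ℤ)} {w : Finset (ℤ × ℤ)} {u : ℕ} (h1 : s * h ≤ u)
    (h2 : 3 * u ≤ r * h) (hE : OneExit Λ D w (jc b h k) u) :
    FieldB (SG Λ D w) h s r xs xl xe ρ := by
  obtain ⟨I, p, g1, g2, g3⟩ := hE
  have key : ∀ c : ℤ × ℤ, |c.1 - xs| ≤ 18 * (s * h) - 1 → |c.2 - xs| ≤ 18 * (s * h) - 1 →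
      c ∈ I := fun c k1 k2 => g2 c (J.near h1 k1 k2).1 (J.near h1 k1 k2).2
  refine ⟨I, p, g1, ?_, key, fun c k1 => g3 c (J.far h1 h2 k1)⟩
  intro e he c hc
  obtain ⟨⟨k1, k2⟩, k3, k4⟩ := J.side_near he hc
  exact ⟨key c k1 k2, key _ k3 k4⟩

/-- **Field `blk`, X worlds.** -/
theorem fieldX (hx1 : x1 ≤ -(b.X * (2 * h) : ℤ)) (hL : ∀ e ∈ L, e ∉ b.B h)
    (hO : OutB b h M L o t x1 y0 xs Yd xl xe ρ O) (hω : ω ⊆ (WB b h M L o t x1 y0 xs Yd).E)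
    (hB : BX b h k s r O (WB b h M L o t x1 y0 xs Yd).b (ω ∩ O)) :
    FieldB ((WB b h M L o t x1 y0 xs Yd).G ω) h s r xs xl xe ρ := by
  obtain ⟨u, h1, h2, h3⟩ := J.exitX hx1 hL hO hω hB
  exact J.field_of h1 h2 h3

/-- **Field `blk`, Y worlds.** -/
theorem fieldY (hx1 : xs + 12 * (r * h) ≤ x1) (hL : ∀ e ∈ L, e ∉ b.B h)
    (hO : OutB b h M L o t x1 y0 xs Yd xl xe ρ O) (hω : ω ⊆ (WB b h M L o t x1 y0 xs Yd).E)
    (hB : BY b h k s r t O (WB b h M L o t x1 y0 xs Yd).b (ω ∩ O)) :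
    FieldB ((WB b h M L o t x1 y0 xs Yd).G ω) h s r xs xl xe ρ := by
  obtain ⟨u, h1, h2, h3⟩ := J.exitY hx1 hL hO hω hB
  exact J.field_of h1 h2 h3

end JB

/-- far corners -/
def Far (h r : ℕ) (xs : ℤ) (c : ℤ × ℤ) : Prop :=
  15 * (r * h : ℤ) ≤ |c.1 - xs| ∨ 15 * (r * h : ℤ) ≤ |c.2 - xs|

namespace JB

variable (J : JB δ σ b h k s r y0 xs xl xe ρ A Yd)
include J

/-- **Field `blk` of `Half`, X worlds.** -/
theorem blkX' (hx1 : x1 ≤ -(b.X * (2 * h) : ℤ)) (hL : ∀ e ∈ L, e ∉ b.B h)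
    (hO : OutB b h M L o t x1 y0 xs Yd xl xe ρ O) {ι : Type*} {y : ι → ℤ × ℤ}
    (hy : ∀ i, Far h r xs (y i)) (Λ D S : Set (ℤ × ℤ)) :
    ∀ ω2, ω2 ⊆ (WB b h M L o t x1 y0 xs Yd).E →
      BX b h k s r O (WB b h M L o t x1 y0 xs Yd).b (ω2 ∩ O) → ∃ (I : Set (ℤ × ℤ)) (p : ℤ × ℤ),
      (∀ u v, u ∈ I → v ∉ I → ((WB b h M L o t x1 y0 xs Yd).G ω2).Adj u v → v = p) ∧
      (∀ c ∈ KB (Bk xl xe ρ), ∀ c', SR Λ D (Bk xl xe ρ) S c c' → c' ∈ I) ∧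
      zc (xs, Yd) ∈ I ∧ ∀ i, y i ∉ I := by
  intro ω2 h1 h2
  obtain ⟨I, p, g1, g2, -, g4, g5⟩ := (J.fieldX hx1 hL hO h1 h2).sr
  exact ⟨I, p, g1, g2 Λ D S, g4 _ J.zc_near.1 J.zc_near.2, fun i => g5 _ (hy i)⟩

/-- **Field `blk` of `Half`, Y worlds.** -/
theorem blkY' (hx1 : xs + 12 * (r * h) ≤ x1) (hL : ∀ e ∈ L, e ∉ b.B h)
    (hO : OutB b h M L o t x1 y0 xs Yd xl xe ρ O) {ι : Type*} {y : ι → ℤ × ℤ}
    (hy : ∀ i, Far h r xs (y i)) (Λ D S : Set (ℤ × ℤ)) :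
    ∀ ω2, ω2 ⊆ (WB b h M L o t x1 y0 xs Yd).E →
      BY b h k s r t O (WB b h M L o t x1 y0 xs Yd).b (ω2 ∩ O) →
      ∃ (I : Set (ℤ × ℤ)) (p : ℤ × ℤ),
      (∀ u v, u ∈ I → v ∉ I → ((WB b h M L o t x1 y0 xs Yd).G ω2).Adj u v → v = p) ∧
      (∀ c ∈ KB (Bk xl xe ρ), ∀ c', SR Λ D (Bk xl xe ρ) S c c' → c' ∈ I) ∧
      zc (xs, Yd) ∈ I ∧ ∀ i, y i ∉ I := by
  intro ω2 h1 h2
  obtain ⟨I, p, g1, g2, -, g4, g5⟩ := (J.fieldY hx1 hL hO h1 h2).sr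
  exact ⟨I, p, g1, g2 Λ D S, g4 _ J.zc_near.1 J.zc_near.2, fun i => g5 _ (hy i)⟩

end JB

/-- **Probability of the block.** -/
theorem jBlk_prob : ∃ kap : ℝ, 0 < kap ∧ ∀ (δ σ : ℝ) (b : JBox) (h k s r : ℕ)
    (y0 xs xl xe ρ A Yd : ℤ), JB δ σ b h k s r y0 xs xl xe ρ A Yd →
    ∀ (M : Finset (Bool × ℕ)) (L O : Finset (ℤ × ℤ)) (o t : Bool) (x1 : ℤ),
    OutB b h M L o t x1 y0 xs Yd xl xe ρ O →
    PB (WB b h M L o t x1 y0 xs Yd).E (WB b h M L o t x1 y0 xs Yd).b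
      (fun ω => ¬ BX b h k s r O (WB b h M L o t x1 y0 xs Yd).b (ω ∩ O)) ≤
      (3 * (s : ℝ) / r) ^ kap ∧
    PB (WB b h M L o t x1 y0 xs Yd).E (WB b h M L o t x1 y0 xs Yd).b
      (fun ω => ¬ BY b h k s r t O (WB b h M L o t x1 y0 xs Yd).b (ω ∩ O)) ≤
      (3 * (s : ℝ) / r) ^ kap := by
  obtain ⟨kap, hk, H⟩ := jWB_block
  refine ⟨kap, hk, ?_⟩
  intro δ σ b h k s r y0 xs xl xe ρ A Yd J M L O o t x1 hO
  have y1 := J.y0l
  have y2 := J.y0Y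
  have y3 := J.YdT
  have hxs := J.hxs
  subst hxs
  have hOE : O ⊆ (WB b h M L o t x1 y0 (-(k * b.M * (2 * h))) Yd).E := fun e he => ((hO e).1 he).1
  have key := fun st => H b δ σ J.ok J.dl h k s r J.hh J.sM J.sr J.win J.wP M L o t x1 y0 Yd xl xe ρ A
    y1 (by linarith) (by linarith) (by linarith) J.xlA J.xeA (by have := J.Aρ; linarith) J.ρ0 O
    (fun e h1 h2 h3 => (hO e).2 ⟨h1, h2, h3⟩) st
  have hrp : ∀ u : ℕ, s * h ≤ u → 3 * u ≤ r * h → ∀ m,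
      ((jCh b h (dUk k) fun _ => 0).isW (jc b h k) u m ∨
      (jCh b h (dUk k) fun _ => 0).isE (jc b h k) u m) → rpJ b h m ∈ O :=
    fun u h1 h2 m hm => J.rp_O hO h1 h2 hm
  exact ⟨(blkFull_le hOE hrp).trans (key fun _ => True).1,
    (blkFull_le hOE hrp).trans (key fun _ => t = true).2⟩

end Pool.Agent.H55.W
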