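import Mathlib
import Pool.Agent.H55.W.JBlkE
import Pool.Agent.H71.W.J6L

set_option autoImplicit false
open Finset

/-! # Route W, J6: `BlkF` of 71 and the same for the Y worlds

`JB.of_num` : `JB` from the numbers of 82's `jnum`. `JB.blkF` : 71's `BlkF`; `jBlkF_prob` : its probability.
`JB.blkU_X`, `JB.blkU_Y` : the field `blk` for any layers. `jBlkU_prob` : probability, both kinds. -/

namespace Pool.Agent.H55.W

open Pool.Agent.H58.W (up mem_up up_subset PB PB_mono PB_congr PB_restrict PB_nonneg PB_le_one Sep)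
open Pool.Agent.H6.W Pool.Agent.H71.W Pool.Agent.H61.W Pool.Agent.H82.W Pool.Agent.H50.W
open Pool.Agent.H13.W (SR KB Sd SG eW eE eS eN)
open Pool.Agent.H33.Q1 (lt tt TL ct mem_TL lt_odd)
open Pool.Agent.H19.W (cx cy lt_cc cx_lt cy_lt)

variable {δ σ : ℝ} {b : JBox} {h k s r : ℕ} {M : Finset (Bool × ℕ)} {L O : Finset (ℤ × ℤ)}
  {o t : Bool} {x1 y0 xs xl xe ρ A Yd : ℤ} {ω : Finset (ℤ × ℤ)} {v : ℤ × ℤ}

/-- the numbers of `jnum` (`q` there = `s` here) -/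
theorem JB.of_num {a : ℕ} (ok : b.Ok δ σ) (dl : δ ≤ 1) (hh : 2 ≤ h) (sM : 8 * b.M ≤ s)
    (ha : a ≤ s) (sr : s ≤ r) (win : JWin b k r) (wP : 10 * r + b.m * b.M ≤ k * b.M)
    (hxs : xs = -(k * b.M * (2 * h) : ℤ)) (y0l : -(b.τ * (2 * h) : ℤ) < y0) (y0Y : y0 < Yd)
    (YdT : Yd + 1 < b.τ * (2 * h)) :
    JB δ σ b h k s r y0 xs (xs - a * (2 * h)) (xs + a * (2 * h)) (a * (2 * h)) (a * (2 * h)) Yd where
  ok := ok
  dl := dl
  hh := hh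
  sM := sM
  sr := sr
  win := win
  wP := wP
  hxs := hxs
  y0l := y0l
  y0Y := y0Y
  YdT := YdT
  xlA := le_refl _
  xeA := le_refl _
  Aρ := by
    have h1 : (a : ℤ) * h ≤ s * h := by
      have : (a : ℤ) ≤ s := by exact_mod_cast ha
      exact mul_le_mul_of_nonneg_right this (by positivity)
    have h2 : (1 : ℤ) ≤ s := by
      have := ok.M0
      have : 1 ≤ s := by omega
      exact_mod_cast this
    have h3 : (2 : ℤ) ≤ h := by exact_mod_cast hh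
    nlinarith
  ρ0 := by positivity

namespace JB

variable (J : JB δ σ b h k s r y0 xs xl xe ρ A Yd)
include J

/-- **Field `blk`, worlds without a row behind a mark, any layers.** -/
theorem blkU_X {L' : Finset (ℤ × ℤ)} (U : UpH δ σ b h x1 y0 xs xe xl ρ Yd v)
    (hx1 : x1 ≤ -(b.X * (2 * h) : ℤ)) (hL : ∀ e ∈ L', e ∉ b.B h) {ι : Type*} {y : ι → ℤ × ℤ}
    (hy : ∀ i, Far h r xs (y i)) :
    ∀ ω2, ω2 ⊆ (WB b h M L' o t x1 y0 xs Yd).E →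
      BX b h k s r (O2 b h x1 y0 xe xl ρ Yd v) (WB b h M L' o t x1 y0 xs Yd).b
        (ω2 ∩ O2 b h x1 y0 xe xl ρ Yd v) →
      ∃ (I : Set (ℤ × ℤ)) (e : ℤ × ℤ),
        (∀ u w, u ∈ I → w ∉ I → ((WB b h M L' o t x1 y0 xs Yd).G ω2).Adj u w → w = e) ∧
        (∀ c ∈ KB (Bk xl xe ρ), ∀ c', SR (WA b h M L o t x1 y0 v).Λ (WA b h M L o t x1 y0 v).D
          (Bk xl xe ρ) (St b (2 * h) xe Yd v) c c' → c' ∈ I) ∧ zc (xs, Yd) ∈ I ∧
        ∀ i, y i ∉ I :=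
  J.blkX' hx1 hL (fun _ => U.mem_O2 M L' o t) hy _ _ _

/-- **Field `blk`, worlds with the row `y0` left of `x1`, any layers.** -/
theorem blkU_Y {L' : Finset (ℤ × ℤ)} (U : UpH δ σ b h x1 y0 xs xe xl ρ Yd v)
    (hx1 : xs + 12 * (r * h) ≤ x1) (hL : ∀ e ∈ L', e ∉ b.B h) {ι : Type*} {y : ι → ℤ × ℤ}
    (hy : ∀ i, Far h r xs (y i)) :
    ∀ ω2, ω2 ⊆ (WB b h M L' o t x1 y0 xs Yd).E →
      BY b h k s r t (O2 b h x1 y0 xe xl ρ Yd v) (WB b h M L' o t x1 y0 xs Yd).b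
        (ω2 ∩ O2 b h x1 y0 xe xl ρ Yd v) →
      ∃ (I : Set (ℤ × ℤ)) (e : ℤ × ℤ),
        (∀ u w, u ∈ I → w ∉ I → ((WB b h M L' o t x1 y0 xs Yd).G ω2).Adj u w → w = e) ∧
        (∀ c ∈ KB (Bk xl xe ρ), ∀ c', SR (WA b h M L o t x1 y0 v).Λ (WA b h M L o t x1 y0 v).D
          (Bk xl xe ρ) (St b (2 * h) xe Yd v) c c' → c' ∈ I) ∧ zc (xs, Yd) ∈ I ∧
        ∀ i, y i ∉ I :=
  J.blkY' hx1 hL (fun _ => U.mem_O2 M L' o t) hy _ _ _

/-- **The whole set `I`, Y worlds** (for the passages in the block rectangle) -/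
theorem fieldU_Y {L' : Finset (ℤ × ℤ)} (U : UpH δ σ b h x1 y0 xs xe xl ρ Yd v)
    (hx1 : xs + 12 * (r * h) ≤ x1) (hL : ∀ e ∈ L', e ∉ b.B h)
    (hω : ω ⊆ (WB b h M L' o t x1 y0 xs Yd).E)
    (hB : BY b h k s r t (O2 b h x1 y0 xe xl ρ Yd v) (WB b h M L' o t x1 y0 xs Yd).b
        (ω ∩ O2 b h x1 y0 xe xl ρ Yd v)) :
    FieldB ((WB b h M L' o t x1 y0 xs Yd).G ω) h s r xs xl xe ρ :=
  J.fieldY hx1 hL (fun _ => U.mem_O2 M L' o t) hω hB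

/-- **71's `BlkF`.** -/
theorem blkF (U : UpH δ σ b h (xL b h) y0 xs xe xl ρ Yd v) (M : Finset (Bool × ℕ))
    (bse o t : Bool) :
    BlkF b h M bse o t y0 xs xe xl ρ Yd v
      (BX b h k s r (O2 b h (xL b h) y0 xe xl ρ Yd v) (WBX b h M bse o t y0 xs Yd).b) := by
  refine J.blkU_X U ?_ (fun e he => Wl_notMem he U.hh) ?_
  · unfold xL; linarith
  · intro i
    obtain ⟨h1, h2⟩ := J.mark_far i.1.1
    unfold yM fM
    rcases i.2 with _ | _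
    · exact h2
    · exact h1

end JB

/-- **Probability of the block, any layers.** -/
theorem jBlkU_prob : ∃ kap : ℝ, 0 < kap ∧ ∀ (δ σ : ℝ) (b : JBox) (h k s r : ℕ)
    (y0 xs xl xe ρ A Yd : ℤ), JB δ σ b h k s r y0 xs xl xe ρ A Yd →
    ∀ (M : Finset (Bool × ℕ)) (L : Finset (ℤ × ℤ)) (o t : Bool) (x1 : ℤ) (v : ℤ × ℤ),
    UpH δ σ b h x1 y0 xs xe xl ρ Yd v →
    PB (WB b h M L o t x1 y0 xs Yd).E (WB b h M L o t x1 y0 xs Yd).b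
      (fun ω => ¬ BX b h k s r (O2 b h x1 y0 xe xl ρ Yd v) (WB b h M L o t x1 y0 xs Yd).b
        (ω ∩ O2 b h x1 y0 xe xl ρ Yd v)) ≤ (3 * (s : ℝ) / r) ^ kap ∧
    PB (WB b h M L o t x1 y0 xs Yd).E (WB b h M L o t x1 y0 xs Yd).b
      (fun ω => ¬ BY b h k s r t (O2 b h x1 y0 xe xl ρ Yd v) (WB b h M L o t x1 y0 xs Yd).b
        (ω ∩ O2 b h x1 y0 xe xl ρ Yd v)) ≤ (3 * (s : ℝ) / r) ^ kap := by
  obtain ⟨kap, hk, H⟩ := jBlk_prob
  refine ⟨kap, hk, ?_⟩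
  intro δ σ b h k s r y0 xs xl xe ρ A Yd J M L o t x1 v U
  exact H δ σ b h k s r y0 xs xl xe ρ A Yd J M L _ o t x1 (fun _ => U.mem_O2 M L o t)

/-- **Probability of the block, 71's `X` worlds.** -/
theorem jBlkF_prob : ∃ kap : ℝ, 0 < kap ∧ ∀ (δ σ : ℝ) (b : JBox) (h k s r : ℕ)
    (y0 xs xl xe ρ A Yd : ℤ), JB δ σ b h k s r y0 xs xl xe ρ A Yd →
    ∀ (M : Finset (Bool × ℕ)) (bse o t : Bool) (v : ℤ × ℤ),
    UpH δ σ b h (xL b h) y0 xs xe xl ρ Yd v →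
    PB (WBX b h M bse o t y0 xs Yd).E (WBX b h M bse o t y0 xs Yd).b
      (fun ω => ¬ BX b h k s r (O2 b h (xL b h) y0 xe xl ρ Yd v) (WBX b h M bse o t y0 xs Yd).b
        (ω ∩ O2 b h (xL b h) y0 xe xl ρ Yd v)) ≤ (3 * (s : ℝ) / r) ^ kap := by
  obtain ⟨kap, hk, H⟩ := jBlkU_prob
  refine ⟨kap, hk, ?_⟩
  intro δ σ b h k s r y0 xs xl xe ρ A Yd J M bse o t v U
  exact (H δ σ b h k s r y0 xs xl xe ρ A Yd J M _ o t _ v U).1

end Pool.Agent.H55.W
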